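import Pool.Agent.Helper46.BMY.CAr

/-!
# The inequality `c_1 ^ 2 ≤ 3 c_2` for the cyclic covers
-/

set_option autoImplicit false

namespace Pool.Agent.Helper46.BMY

/-! ### Sums -/

/-- The sum of the local inequalities. -/
theorem sum_lc {m c x y n : ℕ} {l : List (Sg m)} (h : ∀ P ∈ l, Lc c x y n P.k P.e) :
    c * (36 * (l.map fun P => (gk n P.k P.e).1).sum) ≤
      c * (4 * (l.map fun P => (gk n P.k P.e).2).sum) +
        x * (l.map fun P => (P.k - 1) * P.e).sum + y * (l.map fun P => ct n P.k P.e).sum := by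
  induction l with
  | nil => simp
  | cons P l ih =>
    have h1 := ih fun Q hQ => h Q (List.mem_cons_of_mem _ hQ)
    have h2 : c * (36 * (gk n P.k P.e).1) ≤
      c * (4 * (gk n P.k P.e).2) + x * ((P.k - 1) * P.e) + y * ct n P.k P.e :=
      h P List.mem_cons_self
    simp only [List.map_cons, List.sum_cons]
    have e1 : c * (36 * ((gk n P.k P.e).1 + (l.map fun P => (gk n P.k P.e).1).sum)) =
      c * (36 * (gk n P.k P.e).1) + c * (36 * (l.map fun P => (gk n P.k P.e).1).sum) := by ring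
    have e2 : c * (4 * ((gk n P.k P.e).2 + (l.map fun P => (gk n P.k P.e).2).sum)) +
        x * ((P.k - 1) * P.e + (l.map fun P => (P.k - 1) * P.e).sum) +
        y * (ct n P.k P.e + (l.map fun P => ct n P.k P.e).sum) =
        (c * (4 * (gk n P.k P.e).2) + x * ((P.k - 1) * P.e) + y * ct n P.k P.e) +
        (c * (4 * (l.map fun P => (gk n P.k P.e).2).sum) +
        x * (l.map fun P => (P.k - 1) * P.e).sum + y * (l.map fun P => ct n P.k P.e).sum) := by
      ring
    rw [e1, e2]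
    exact Nat.add_le_add h2 h1

theorem two_choose (n : ℕ) : 2 * n.choose 2 + n = n * n := by
  induction n with
  | zero => rfl
  | succ n ih =>
    rw [Nat.choose_succ_succ' n 1, Nat.choose_one_right]
    linarith

/-- The correction `36 pg - 4 kk`. -/
def De {m : ℕ} (n : ℕ) (l : List (Sg m)) : ℤ :=
  36 * ((l.map fun P => (gk n P.k P.e).1).sum : ℕ) -
    4 * ((l.map fun P => (gk n P.k P.e).2).sum : ℕ)

/-- The bound of the certificate. -/
def Bd (x y n f : ℤ) : ℤ :=
  2 * x * (n * f * (n * f - 1)) + y * (2 * (n * f * (n * f - 1)) - f * (f - 1) -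
    (n * f - f) * (n * f - f - 1))

theorem De_le {m n f r c x y : ℕ} (hm : 2 ≤ m) (hd : m + 1 = n * f) (hn : 2 ≤ n)
    {l : List (Sg m)} (hl : IsCurve m r l) (h : ∀ P ∈ l, Lc c x y n P.k P.e) :
    2 * c * De n l ≤ r * Bd x y n f := by
  have hf : 1 ≤ f := by
    rcases Nat.eq_zero_or_pos f with h0 | h0
    · rw [h0, mul_zero] at hd
      omega
    · exact h0
  have hfm : 1 ≤ f ∧ f ≤ m := by
    refine ⟨hf, ?_⟩
    have h1 : 2 * f ≤ n * f := Nat.mul_le_mul_right f hn
    omega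
  have h1 := sum_lc h
  rw [sum_deg hl] at h1
  have h2 := sum_nt hm hfm hl
  simp only [nt_ct hd hf] at h2
  have h3 : NI m f ≤ (m + 1) * m := NI_le hfm
  obtain ⟨N, hN⟩ : ∃ N, N = (l.map fun P => ct n P.k P.e).sum := ⟨_, rfl⟩
  obtain ⟨G, hG⟩ : ∃ G, G = (l.map fun P => (gk n P.k P.e).1).sum := ⟨_, rfl⟩
  obtain ⟨K, hK⟩ : ∃ K, K = (l.map fun P => (gk n P.k P.e).2).sum := ⟨_, rfl⟩
  unfold De
  rw [← hN, ← hG, ← hK] at h1
  rw [← hN] at h2
  rw [← hG, ← hK]
  have h2' : (N : ℤ) ≤ r * ((m + 1) * m - NI m f) := by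
    have h4 : ((r * ((m + 1) * m - NI m f) : ℕ) : ℤ) = r * ((m + 1) * m - NI m f) := by
      rw [Nat.cast_mul, Nat.cast_sub h3]
      push_cast
      ring
    rw [← h4]
    exact_mod_cast h2
  have h1' : (c : ℤ) * (36 * G) ≤ c * (4 * K) + x * (r * ((m + 1) * m)) + y * N := by
    exact_mod_cast h1
  have h5 : (2 : ℤ) * NI m f = f * (f - 1) + (n * f - f) * (n * f - f - 1) := by
    unfold NI
    have e1 := two_choose f
    have e2 := two_choose (m + 1 - f)
    have e3 : ((m + 1 - f : ℕ) : ℤ) = n * f - f := by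
      rw [Nat.cast_sub (by omega), hd]
      push_cast
      ring
    have e1' : (2 : ℤ) * (f.choose 2 : ℕ) + f = f * f := by exact_mod_cast e1
    have e2' : (2 : ℤ) * ((m + 1 - f).choose 2 : ℕ) + (n * f - f) = (n * f - f) * (n * f - f) := by
      rw [← e3]
      exact_mod_cast e2
    push_cast
    linear_combination e1' + e2'
  have hd' : (m : ℤ) + 1 = n * f := by exact_mod_cast hd
  have h6 : (m : ℤ) = n * f - 1 := by linarith
  have h7 : (2 : ℤ) * N ≤ r * (2 * (n * f * (n * f - 1)) - f * (f - 1) -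
      (n * f - f) * (n * f - f - 1)) := by
    have e4 : (r : ℤ) * (2 * (n * f * (n * f - 1)) - f * (f - 1) -
      (n * f - f) * (n * f - f - 1)) = 2 * (r * ((m + 1) * m - NI m f)) := by
      rw [hd', h6]
      linear_combination (r : ℤ) * h5
    rw [e4]
    linarith
  have h8 := mul_le_mul_of_nonneg_left h7 (Int.natCast_nonneg y)
  unfold Bd
  rw [h6] at h1'
  have e5 : (n : ℤ) * f - 1 + 1 = n * f := by ring
  rw [e5] at h1'
  nlinarith [h8, h1']

/-- The invariants. -/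
theorem dif_F {m n f r : ℕ} (l : List (Sg m)) :
    3 * cTwoF n f r l - cOneSqF n f r l = 4 * n + r * ((n - 1) * (2 * n + 1) * (n * f ^ 2) -
      (n - 1) * (n * f)) - 2 * (n - 1) * (n * f) - De n l := by
  unfold cTwoF cOneSqF De sumS
  have e1 : (l.map fun P => 12 * (gk n P.k P.e).1).sum =
      12 * (l.map fun P => (gk n P.k P.e).1).sum := by
    rw [List.sum_map_mul_left]
  rw [e1]
  push_cast
  ring

theorem dif_P {m n f : ℕ} (l : List (Sg m)) :
    3 * cTwo n f l - cOneSq n f l = (n - 1) * (2 * n + 1) * (n * f ^ 2) -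
      3 * (n - 1) * (n * f) - De n l := by
  unfold cTwo cOneSq De sumS
  have e1 : (l.map fun P => 12 * (gk n P.k P.e).1).sum =
      12 * (l.map fun P => (gk n P.k P.e).1).sum := by
    rw [List.sum_map_mul_left]
  rw [e1]
  push_cast
  ring

/-! ### The conclusions from a certificate -/

/-- The projective plane. -/
theorem key_P {c n f D B : ℤ} (hc : 0 < c) (hD : 2 * c * D ≤ B)
    (h : B ≤ 2 * c * ((n - 1) * (2 * n + 1) * (n * f ^ 2) - 3 * (n - 1) * (n * f))) :
    0 ≤ (n - 1) * (2 * n + 1) * (n * f ^ 2) - 3 * (n - 1) * (n * f) - D := by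
  have h1 : 0 ≤ 2 * c * ((n - 1) * (2 * n + 1) * (n * f ^ 2) - 3 * (n - 1) * (n * f) - D) := by
    rw [mul_sub]
    linarith
  exact nonneg_of_mul_nonneg_right h1 (by linarith)

/-- The Hirzebruch surfaces. -/
theorem key_F {c n f r s D B : ℤ} (hc : 0 < c) (hs : s ≤ r) (hD : 2 * c * D ≤ r * B)
    (h1 : B ≤ 2 * c * ((n - 1) * (2 * n + 1) * (n * f ^ 2) - (n - 1) * (n * f)))
    (h2 : s * B ≤ 2 * c * (4 * n + s * ((n - 1) * (2 * n + 1) * (n * f ^ 2) - (n - 1) * (n * f)) -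
      2 * (n - 1) * (n * f))) :
    0 ≤ 4 * n + r * ((n - 1) * (2 * n + 1) * (n * f ^ 2) - (n - 1) * (n * f)) -
      2 * (n - 1) * (n * f) - D := by
  obtain ⟨A, hA⟩ : ∃ A, A = (n - 1) * (2 * n + 1) * (n * f ^ 2) - (n - 1) * (n * f) := ⟨_, rfl⟩
  rw [← hA] at h1 h2 ⊢
  have h3 := mul_nonneg (sub_nonneg.2 hs) (sub_nonneg.2 h1)
  have h4 : 0 ≤ 2 * c * (4 * n + r * A - 2 * (n - 1) * (n * f) - D) := by nlinarith
  exact nonneg_of_mul_nonneg_right h4 (by linarith)

/-- The gap, projective plane. -/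
theorem gap_P {c n f D B : ℤ} (hc : 0 < c) (hD : 2 * c * D ≤ B)
    (h : c * (n * (n * f) * (n * f - 15)) + 7 * B ≤
      14 * c * ((n - 1) * (2 * n + 1) * (n * f ^ 2) - 3 * (n - 1) * (n * f))) :
    n * (n * f) * (n * f - 15) ≤
      14 * ((n - 1) * (2 * n + 1) * (n * f ^ 2) - 3 * (n - 1) * (n * f) - D) := by
  have h1 : 0 ≤ c * (14 * ((n - 1) * (2 * n + 1) * (n * f ^ 2) - 3 * (n - 1) * (n * f) - D) -
      n * (n * f) * (n * f - 15)) := by nlinarith
  have := nonneg_of_mul_nonneg_right h1 hc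
  linarith

/-- The gap, Hirzebruch surfaces. -/
theorem gap_F {c n f r D B : ℤ} (hc : 0 < c) (hn : 1 ≤ n) (hf : 0 ≤ f) (hr : 1 ≤ r)
    (hD : 2 * c * D ≤ r * B)
    (h : c * (n * (n * f) * (n * f - 15)) + 7 * B ≤
      14 * c * ((n - 1) * (2 * n + 1) * (n * f ^ 2) - 3 * (n - 1) * (n * f))) :
    n * r * (n * f) * (n * f - 15) ≤
      14 * (4 * n + r * ((n - 1) * (2 * n + 1) * (n * f ^ 2) - (n - 1) * (n * f)) -
      2 * (n - 1) * (n * f) - D) := by
  obtain ⟨A, hA⟩ : ∃ A, A = (n - 1) * (2 * n + 1) * (n * f ^ 2) - (n - 1) * (n * f) := ⟨_, rfl⟩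
  obtain ⟨E, hE⟩ : ∃ E, E = (n - 1) * (n * f) := ⟨_, rfl⟩
  have hE0 : 0 ≤ E := by
    rw [hE]
    exact mul_nonneg (by linarith) (mul_nonneg (by linarith) hf)
  have e1 : (n - 1) * (2 * n + 1) * (n * f ^ 2) - 3 * (n - 1) * (n * f) = A - 2 * E := by
    rw [hA, hE]
    ring
  rw [e1] at h
  rw [← hA]
  have e2 : 2 * (n - 1) * (n * f) = 2 * E := by
    rw [hE]
    ring
  rw [e2]
  obtain ⟨X, hX⟩ : ∃ X, X = n * (n * f) * (n * f - 15) := ⟨_, rfl⟩
  have e3 : n * r * (n * f) * (n * f - 15) = r * X := by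
    rw [hX]
    ring
  rw [← hX] at h
  rw [e3]
  have h2 := mul_le_mul_of_nonneg_left h (by linarith : 0 ≤ r)
  have h3 : 0 ≤ c * E * (r - 1) := mul_nonneg (mul_nonneg hc.le hE0) (by linarith)
  have h4 : 0 ≤ c * n := mul_nonneg hc.le (by linarith)
  have h1 : 0 ≤ c * (14 * (4 * n + r * A - 2 * E - D) - r * X) := by nlinarith
  have := nonneg_of_mul_nonneg_right h1 hc
  linarith

/-! ### The conclusions for a curve -/

section concl

variable {m n f r c x y : ℕ} {l : List (Sg m)}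

theorem concl_P (hm : 2 ≤ m) (hd : m + 1 = n * f) (hn : 2 ≤ n) (hl : IsCurve m 1 l) (hc : 0 < c)
    (h : ∀ P ∈ l, Lc c x y n P.k P.e)
    (h1 : Bd x y n f ≤ 2 * c * ((n - 1) * (2 * n + 1) * (n * f ^ 2) - 3 * (n - 1) * (n * f))) :
    cOneSq n f l ≤ 3 * cTwo n f l := by
  have h2 := De_le hm hd hn hl h
  rw [Nat.cast_one, one_mul] at h2
  have h3 := key_P (by exact_mod_cast hc) h2 h1
  rw [← dif_P] at h3
  linarith

theorem concl_F {s : ℕ} (hm : 2 ≤ m) (hd : m + 1 = n * f) (hn : 2 ≤ n) (hl : IsCurve m r l)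
    (hc : 0 < c) (h : ∀ P ∈ l, Lc c x y n P.k P.e) (hs : s ≤ r)
    (h1 : Bd x y n f ≤ 2 * c * ((n - 1) * (2 * n + 1) * (n * f ^ 2) - (n - 1) * (n * f)))
    (h2 : s * Bd x y n f ≤ 2 * c * (4 * n + s * ((n - 1) * (2 * n + 1) * (n * f ^ 2) -
      (n - 1) * (n * f)) - 2 * (n - 1) * (n * f))) :
    cOneSqF n f r l ≤ 3 * cTwoF n f r l := by
  have h3 := key_F (by exact_mod_cast hc) (by exact_mod_cast hs) (De_le hm hd hn hl h) h1 h2
  rw [← dif_F] at h3
  linarith

theorem gap_PF (hm : 2 ≤ m) (hd : m + 1 = n * f) (hn : 2 ≤ n) (hl : IsCurve m r l) (hr : 1 ≤ r)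
    (hc : 0 < c) (h : ∀ P ∈ l, Lc c x y n P.k P.e)
    (h1 : c * (n * (n * f) * (n * f - 15)) + 7 * Bd x y n f ≤
      14 * c * ((n - 1) * (2 * n + 1) * (n * f ^ 2) - 3 * (n - 1) * (n * f))) :
    14 * cOneSqF n f r l + n * r * (m + 1) * (m + 1 - 15) ≤ 42 * cTwoF n f r l ∧
      (r = 1 → 14 * cOneSq n f l + n * (m + 1) * (m + 1 - 15) ≤ 42 * cTwo n f l) := by
  have hd' : (m : ℤ) + 1 = n * f := by exact_mod_cast hd
  have h2 := De_le hm hd hn hl h
  rw [hd']
  constructor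
  · have h3 := gap_F (n := n) (f := f) (r := r) (by exact_mod_cast hc)
      (by exact_mod_cast (by omega : 1 ≤ n)) (Int.natCast_nonneg f) (by exact_mod_cast hr) h2 h1
    rw [← dif_F] at h3
    linarith
  · rintro rfl
    rw [Nat.cast_one, one_mul] at h2
    have h3 := gap_P (by exact_mod_cast hc) h2 h1
    rw [← dif_P] at h3
    linarith

end concl

/-- Everything for the basic types. -/
theorem basic {m n f r : ℕ} {l : List (Sg m)} (hn : 2 ≤ n) (hm : 2 ≤ m) (hr : 1 ≤ r)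
    (hd : m + 1 = n * f) (hl : IsCurve m r l) (h : ∀ P ∈ l, Bas n P.k P.e) :
    cOneSqF n f r l ≤ 3 * cTwoF n f r l ∧
    (r = 1 → ¬ (n = 4 ∧ f ≤ 3 ∨ n = 6 ∧ f ≤ 2) → cOneSq n f l ≤ 3 * cTwo n f l) ∧
    14 * cOneSqF n f r l + n * r * (m + 1) * (m + 1 - 15) ≤ 42 * cTwoF n f r l ∧
      (r = 1 → 14 * cOneSq n f l + n * (m + 1) * (m + 1 - 15) ≤ 42 * cTwo n f l) := by
  have hf : 1 ≤ f := by
    rcases Nat.eq_zero_or_pos f with h0 | h0
    · rw [h0, mul_zero] at hd
      omega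
    · exact h0
  have hfz : (1 : ℤ) ≤ f := by exact_mod_cast hf
  have he : ∀ P ∈ l, 1 ≤ P.e := fun P hP => (hl.1 P hP).2.2
  rcases Nat.lt_or_ge n 9 with h9 | h9
  · interval_cases n
    · have h1 : ∀ P ∈ l, Lc 3 7 0 2 P.k P.e := fun P hP => bas_two (h P hP) (he P hP)
      have hf2 : (2 : ℤ) ≤ f := by exact_mod_cast (by omega : 2 ≤ f)
      refine ⟨concl_F (s := 1) hm hd hn hl (by norm_num) h1 hr ?_ ?_, ?_,
        gap_PF hm hd hn hl hr (by norm_num) h1 ?_⟩
      · unfold Bd; push_cast; nlinarith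
      · unfold Bd; push_cast; nlinarith
      · rintro rfl -
        refine concl_P hm hd hn hl (by norm_num) h1 ?_
        unfold Bd; push_cast; nlinarith
      · unfold Bd; push_cast; nlinarith
    · have h1 : ∀ P ∈ l, Lc 1 4 0 3 P.k P.e := fun P hP => bas_three (h P hP) (he P hP)
      refine ⟨concl_F (s := 1) hm hd hn hl (by norm_num) h1 hr ?_ ?_, ?_,
        gap_PF hm hd hn hl hr (by norm_num) h1 ?_⟩
      · unfold Bd; push_cast; nlinarith
      · unfold Bd; push_cast; nlinarith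
      · rintro rfl -
        refine concl_P hm hd hn hl (by norm_num) h1 ?_
        unfold Bd; push_cast; nlinarith
      · unfold Bd; push_cast; nlinarith
    · have h1 : ∀ P ∈ l, Lc 3 0 28 4 P.k P.e := fun P hP => bas_four (h P hP) (he P hP)
      refine ⟨concl_F (s := 1) hm hd hn hl (by norm_num) h1 hr ?_ ?_, ?_,
        gap_PF hm hd hn hl hr (by norm_num) h1 ?_⟩
      · unfold Bd; push_cast; nlinarith
      · unfold Bd; push_cast; nlinarith [sq_nonneg (2 * (f : ℤ) - 3)]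
      · rintro rfl hx
        have hf4 : (4 : ℤ) ≤ f := by exact_mod_cast (by omega : 4 ≤ f)
        refine concl_P hm hd hn hl (by norm_num) h1 ?_
        unfold Bd; push_cast; nlinarith
      · unfold Bd; push_cast; nlinarith
    · have h1 : ∀ P ∈ l, Lc 1 7 0 5 P.k P.e := fun P hP => bas_five (h P hP) (he P hP)
      refine ⟨concl_F (s := 1) hm hd hn hl (by norm_num) h1 hr ?_ ?_, ?_,
        gap_PF hm hd hn hl hr (by norm_num) h1 ?_⟩
      · unfold Bd; push_cast; nlinarith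
      · unfold Bd; push_cast; nlinarith
      · rintro rfl -
        refine concl_P hm hd hn hl (by norm_num) h1 ?_
        unfold Bd; push_cast; nlinarith
      · unfold Bd; push_cast; nlinarith
    · have h1 : ∀ P ∈ l, Lc 1 4 10 6 P.k P.e := fun P hP => bas_six (h P hP) (he P hP)
      refine ⟨concl_F (s := 1) hm hd hn hl (by norm_num) h1 hr ?_ ?_, ?_,
        gap_PF hm hd hn hl hr (by norm_num) h1 ?_⟩
      · unfold Bd; push_cast; nlinarith
      · unfold Bd; push_cast; nlinarith [sq_nonneg (8 * (f : ℤ) - 9)]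
      · rintro rfl hx
        have hf3 : (3 : ℤ) ≤ f := by exact_mod_cast (by omega : 3 ≤ f)
        refine concl_P hm hd hn hl (by norm_num) h1 ?_
        unfold Bd; push_cast; nlinarith
      · unfold Bd; push_cast; nlinarith
    · have h1 : ∀ P ∈ l, Lc 3 32 0 7 P.k P.e := fun P hP => bas_seven (h P hP) (he P hP)
      refine ⟨concl_F (s := 1) hm hd hn hl (by norm_num) h1 hr ?_ ?_, ?_,
        gap_PF hm hd hn hl hr (by norm_num) h1 ?_⟩
      · unfold Bd; push_cast; nlinarith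
      · unfold Bd; push_cast; nlinarith
      · rintro rfl -
        refine concl_P hm hd hn hl (by norm_num) h1 ?_
        unfold Bd; push_cast; nlinarith
      · unfold Bd; push_cast; nlinarith
    · have h1 : ∀ P ∈ l, Lc 1 14 0 8 P.k P.e := fun P hP => bas_eight (h P hP) (he P hP)
      refine ⟨concl_F (s := 1) hm hd hn hl (by norm_num) h1 hr ?_ ?_, ?_,
        gap_PF hm hd hn hl hr (by norm_num) h1 ?_⟩
      · unfold Bd; push_cast; nlinarith
      · unfold Bd; push_cast; nlinarith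
      · rintro rfl -
        refine concl_P hm hd hn hl (by norm_num) h1 ?_
        unfold Bd; push_cast; nlinarith
      · unfold Bd; push_cast; nlinarith
  · have h1 : ∀ P ∈ l, Lc 9 (16 * n) 0 n P.k P.e := fun P hP => bas_nine h9 (h P hP) (he P hP)
    have h9z : (9 : ℤ) ≤ n := by exact_mod_cast h9
    have hnf : (0 : ℤ) ≤ n * f := by positivity
    have k1 : (11 * n - 27 : ℤ) ≤ (2 * n ^ 2 - 9 * n - 9) * f := by
      have e1 : (0 : ℤ) ≤ 2 * n ^ 2 - 9 * n - 9 := by nlinarith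
      have e2 := mul_nonneg e1 (by linarith : (0 : ℤ) ≤ f - 1)
      nlinarith
    have k2 : (19 * n - 378 : ℤ) ≤ (19 * n ^ 2 - 126 * n - 126) * f := by
      have e1 : (0 : ℤ) ≤ 19 * n ^ 2 - 126 * n - 126 := by nlinarith
      have e2 := mul_nonneg e1 (by linarith : (0 : ℤ) ≤ f - 1)
      nlinarith
    have k1' := mul_nonneg hnf (sub_nonneg.2 k1)
    have k2' := mul_nonneg hnf (sub_nonneg.2 k2)
    have hP : Bd ((16 * n : ℕ) : ℤ) (0 : ℕ) n f ≤ 2 * (9 : ℕ) *
        (((n : ℤ) - 1) * (2 * n + 1) * (n * f ^ 2) - 3 * (n - 1) * (n * f)) := by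
      unfold Bd
      push_cast
      nlinarith
    have k3 : (0 : ℤ) ≤ (n - 1) * (n * f) := mul_nonneg (by linarith) hnf
    refine ⟨concl_F (s := 1) hm hd hn hl (by norm_num) h1 hr ?_ ?_, ?_,
      gap_PF hm hd hn hl hr (by norm_num) h1 ?_⟩
    · refine hP.trans ?_
      push_cast
      nlinarith
    · rw [Nat.cast_one, one_mul]
      refine hP.trans ?_
      push_cast
      nlinarith
    · rintro rfl -
      exact concl_P hm hd hn hl (by norm_num) h1 hP
    · unfold Bd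
      push_cast
      nlinarith

/-- **The theorem.** -/
theorem main {m n f r : ℕ} {l : List (Sg m)} (hn : 2 ≤ n) (hm : 2 ≤ m) (hr : 1 ≤ r)
    (hd : m + 1 = n * f) (hl : IsCurve m r l) (h : ∀ P ∈ l, Typ n r (m + 1) P.k P.e) :
    cOneSqF n f r l ≤ 3 * cTwoF n f r l ∧
    (r = 1 → ¬ (n = 4 ∧ f ≤ 3 ∨ n = 6 ∧ f ≤ 2) → cOneSq n f l ≤ 3 * cTwo n f l) := by
  have he : ∀ P ∈ l, 1 ≤ P.e := fun P hP => (hl.1 P hP).2.2
  have hk : ∀ P ∈ l, 2 ≤ P.k := fun P hP => (hl.1 P hP).1
  have hf : 1 ≤ f := by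
    rcases Nat.eq_zero_or_pos f with h0 | h0
    · rw [h0, mul_zero] at hd
      omega
    · exact h0
  have hfz : (1 : ℤ) ≤ f := by exact_mod_cast hf
  by_cases h2 : n = 2 ∧ (62 ≤ m + 1 ∨ 2 ≤ r)
  · obtain ⟨h2, h3⟩ := h2
    subst h2
    have h1 : ∀ P ∈ l, Lc 23 0 76 2 P.k P.e := by
      intro P hP
      refine ext_two (hk P hP) (he P hP) ?_
      have h4 := h P hP
      unfold Typ at h4
      omega
    rcases Nat.lt_or_ge 1 r with h4 | h4
    · refine ⟨concl_F (s := 2) hm hd hn hl (by norm_num) h1 h4 ?_ ?_, fun h5 => by omega⟩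
      · unfold Bd; push_cast; nlinarith
      · unfold Bd; push_cast; nlinarith [sq_nonneg ((f : ℤ) - 4)]
    · obtain rfl : r = 1 := by omega
      have hf31 : (31 : ℤ) ≤ f := by exact_mod_cast (by omega : 31 ≤ f)
      refine ⟨concl_F (s := 1) hm hd hn hl (by norm_num) h1 le_rfl ?_ ?_, fun _ _ => ?_⟩
      · unfold Bd; push_cast; nlinarith
      · unfold Bd; push_cast; nlinarith
      · refine concl_P hm hd hn hl (by norm_num) h1 ?_
        unfold Bd; push_cast; nlinarith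
  by_cases h3 : n = 3 ∧ (63 ≤ m + 1 ∨ 2 ≤ r)
  · obtain ⟨h3, h4⟩ := h3
    subst h3
    have h1 : ∀ P ∈ l, Lc 5 0 32 3 P.k P.e := by
      intro P hP
      refine ext_three (hk P hP) (he P hP) ?_
      have h5 := h P hP
      unfold Typ at h5
      omega
    rcases Nat.lt_or_ge 1 r with h4 | h4
    · refine ⟨concl_F (s := 2) hm hd hn hl (by norm_num) h1 h4 ?_ ?_, fun h5 => by omega⟩
      · unfold Bd; push_cast; nlinarith
      · unfold Bd; push_cast; nlinarith [sq_nonneg ((f : ℤ) - 3)]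
    · obtain rfl : r = 1 := by omega
      have hf21 : (21 : ℤ) ≤ f := by exact_mod_cast (by omega : 21 ≤ f)
      refine ⟨concl_F (s := 1) hm hd hn hl (by norm_num) h1 le_rfl ?_ ?_, fun _ _ => ?_⟩
      · unfold Bd; push_cast; nlinarith
      · unfold Bd; push_cast; nlinarith
      · refine concl_P hm hd hn hl (by norm_num) h1 ?_
        unfold Bd; push_cast; nlinarith
  by_cases h4 : n = 4
  · subst h4
    rcases Nat.lt_or_ge 1 r with h4 | h4
    · have h1 : ∀ P ∈ l, Lc 1 4 4 4 P.k P.e := by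
        intro P hP
        refine ext_four' (he P hP) ?_
        have h5 := h P hP
        unfold Typ at h5
        omega
      refine ⟨concl_F (s := 2) hm hd hn hl (by norm_num) h1 h4 ?_ ?_, fun h5 => by omega⟩
      · unfold Bd; push_cast; nlinarith
      · unfold Bd; push_cast; nlinarith
    · obtain rfl : r = 1 := by omega
      have h1 : ∀ P ∈ l, Lc 3 0 28 4 P.k P.e := by
        intro P hP
        refine ext_four (he P hP) ?_
        have h5 := h P hP
        unfold Typ at h5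
        omega
      refine ⟨concl_F (s := 1) hm hd hn hl (by norm_num) h1 le_rfl ?_ ?_, fun _ hx => ?_⟩
      · unfold Bd; push_cast; nlinarith
      · unfold Bd; push_cast; nlinarith [sq_nonneg (2 * (f : ℤ) - 3)]
      · have hf4 : (4 : ℤ) ≤ f := by exact_mod_cast (by omega : 4 ≤ f)
        refine concl_P hm hd hn hl (by norm_num) h1 ?_
        unfold Bd; push_cast; nlinarith
  have h5 : ∀ P ∈ l, Bas n P.k P.e := by
    intro P hP
    have h6 := h P hP
    unfold Typ at h6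
    unfold Bas
    omega
  have h6 := basic hn hm hr hd hl h5
  exact ⟨h6.1, h6.2.1⟩

end Pool.Agent.Helper46.BMY
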