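import Pool.Agent.Helper46.BMY.CMain

/-!
# Arithmetic of the local terms
-/

set_option autoImplicit false

open Finset

namespace Pool.Agent.Helper46.BMY

/-- The number `nt` for `a / (m + 1) = 1 / n`. -/
def ct (n k e : ℕ) : ℕ :=
  ((range (k - 1) ×ˢ range (e - 1)).filter fun q =>
    n * (k * e) ≤ k * e + n * ((q.1 + 1) * e + (q.2 + 1) * k) ∧
      k * e + n * ((q.1 + 1) * e + (q.2 + 1) * k) ≤ 2 * n * (k * e)).card

theorem nt_ct {m n f : ℕ} (hd : m + 1 = n * f) (hf : 0 < f) (k e : ℕ) :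
    nt m f k e = ct n k e := by
  unfold nt ct
  congr 1
  refine filter_congr fun q _ => ?_
  rw [hd]
  have e1 : n * f * (k * e) = f * (n * (k * e)) := by ring
  have e2 : f * (k * e) + n * f * ((q.1 + 1) * e + (q.2 + 1) * k) =
      f * (k * e + n * ((q.1 + 1) * e + (q.2 + 1) * k)) := by ring
  have e3 : 2 * (n * f) * (k * e) = f * (2 * n * (k * e)) := by ring
  rw [e1, e2, e3, Nat.mul_le_mul_left_iff hf, Nat.mul_le_mul_left_iff hf]

/-- One row. -/
def row (n k e s : ℕ) : ℕ :=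
  ((range (e - 1)).filter fun t =>
    n * (k * e) ≤ k * e + n * ((s + 1) * e + (t + 1) * k) ∧
      k * e + n * ((s + 1) * e + (t + 1) * k) ≤ 2 * n * (k * e)).card

theorem ct_row (n k e : ℕ) : ct n k e = ∑ s ∈ range (k - 1), row n k e s := by
  unfold ct row
  rw [card_filter, sum_product]
  refine sum_congr rfl fun s _ => ?_
  rw [card_filter]

theorem row_le {n k e s lo hi : ℕ} (h : ∀ t, lo ≤ t → t < hi → t + 1 < e ∧
    n * (k * e) ≤ k * e + n * ((s + 1) * e + (t + 1) * k) ∧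
      k * e + n * ((s + 1) * e + (t + 1) * k) ≤ 2 * n * (k * e)) : hi - lo ≤ row n k e s := by
  unfold row
  rw [← Nat.card_Ico]
  refine card_le_card fun t ht => ?_
  obtain ⟨h1, h2⟩ := mem_Ico.1 ht
  obtain ⟨h3, h4⟩ := h t h1 h2
  exact mem_filter.2 ⟨mem_range.2 (by omega), h4⟩

theorem ct_two_three (e : ℕ) : 10 * (e / 6) ≤ ct 2 3 e := by
  rw [ct_row, sum_range_succ, sum_range_one]
  have h0 := row_le (n := 2) (k := 3) (e := e) (s := 0) (lo := (e + 5) / 6 - 1) (hi := e - 1)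
    (fun t h1 h2 => by omega)
  have h1 := row_le (n := 2) (k := 3) (e := e) (s := 1) (lo := 0) (hi := min (e - 1) (5 * e / 6))
    (fun t h1 h2 => by omega)
  obtain ⟨q, r, hr, he⟩ : ∃ q r, r < 6 ∧ e = 6 * q + r :=
    ⟨e / 6, e % 6, Nat.mod_lt _ (by norm_num), by omega⟩
  generalize row 2 3 e 0 = a at h0 ⊢
  generalize row 2 3 e (0 + 1) = b at h1 ⊢
  subst he
  interval_cases r <;> omega

theorem ct_two_four (e : ℕ) : 9 * (e / 4) ≤ ct 2 4 e := by
  rw [ct_row, sum_range_succ, sum_range_succ, sum_range_one]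
  have h0 := row_le (n := 2) (k := 4) (e := e) (s := 0) (lo := (e + 3) / 4 - 1) (hi := e - 1)
    (fun t h1 h2 => by omega)
  have h1 := row_le (n := 2) (k := 4) (e := e) (s := 1) (lo := 0) (hi := e - 1)
    (fun t h1 h2 => by omega)
  have h2 := row_le (n := 2) (k := 4) (e := e) (s := 2) (lo := 0) (hi := min (e - 1) (3 * e / 4))
    (fun t h1 h2 => by omega)
  obtain ⟨q, r, hr, he⟩ : ∃ q r, r < 4 ∧ e = 4 * q + r :=
    ⟨e / 4, e % 4, Nat.mod_lt _ (by norm_num), by omega⟩
  generalize row 2 4 e 0 = a at h0 ⊢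
  generalize row 2 4 e 1 = b at h1 ⊢
  generalize row 2 4 e 2 = c at h2 ⊢
  subst he
  interval_cases r <;> omega

theorem ct_three_two (e : ℕ) : 5 * (e / 6) ≤ ct 3 2 e := by
  rw [ct_row, sum_range_one]
  have h0 := row_le (n := 3) (k := 2) (e := e) (s := 0) (lo := (e + 5) / 6 - 1) (hi := e - 1)
    (fun t h1 h2 => by omega)
  omega

theorem ct_three_three (e : ℕ) : 4 * (e / 3) ≤ ct 3 3 e := by
  rw [ct_row, sum_range_succ, sum_range_one]
  have h0 := row_le (n := 3) (k := 3) (e := e) (s := 0) (lo := (e + 2) / 3 - 1) (hi := e - 1)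
    (fun t h1 h2 => by omega)
  have h1 := row_le (n := 3) (k := 3) (e := e) (s := 1) (lo := 0) (hi := e - 1)
    (fun t h1 h2 => by omega)
  omega

theorem ct_four_two (e : ℕ) : 3 * (e / 4) ≤ ct 4 2 e := by
  rw [ct_row, sum_range_one]
  have h0 := row_le (n := 4) (k := 2) (e := e) (s := 0) (lo := (e + 3) / 4 - 1) (hi := e - 1)
    (fun t h1 h2 => by omega)
  omega

/-! ### The local inequalities -/

/-- The basic types. -/
def Bas (n k e : ℕ) : Prop := k = 2 ∧ e ≤ 4 ∨ k = 3 ∧ e ≤ 3 ∨ k = 4 ∧ e = 4 ∧ n ≠ 4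

/-- The local inequality with the constants `c, x, y`. -/
def Lc (c x y n k e : ℕ) : Prop :=
  c * (36 * (gk n k e).1) ≤ c * (4 * (gk n k e).2) + x * ((k - 1) * e) + y * ct n k e

instance (c x y n k e : ℕ) : Decidable (Lc c x y n k e) := by
  unfold Lc
  infer_instance

theorem gk_two (n : ℕ) {e : ℕ} (h1 : 1 ≤ e) (h : e ≤ 4) :
    gk n 2 e = if e = 3 then (n / 6, n / 6) else if e = 4 then (n / 4, 2 * (n / 4)) else (0, 0) := by
  unfold gk
  rw [if_pos rfl]
  by_cases h3 : n = 3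
  · rw [if_pos h3, h3]
    interval_cases e <;> rfl
  · rw [if_neg h3]
    by_cases h4 : n = 4
    · rw [if_pos h4, h4]
      interval_cases e <;> rfl
    · rw [if_neg h4]

theorem loc_bas {c x y n : ℕ} (h2 : c * (36 * (n / 6)) ≤ c * (4 * (n / 6)) + x * 3 + y * ct n 2 3)
    (h2' : c * (36 * (n / 4)) ≤ c * (4 * (2 * (n / 4))) + x * 4 + y * ct n 2 4)
    (h3 : Lc c x y n 3 1) (h3' : Lc c x y n 3 2) (h3'' : Lc c x y n 3 3)
    (h4 : n ≠ 4 → Lc c x y n 4 4) {k e : ℕ} (h : Bas n k e) (he : 1 ≤ e) : Lc c x y n k e := by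
  rcases h with ⟨hk, h⟩ | ⟨hk, h⟩ | ⟨hk, h, h'⟩
  · subst hk
    unfold Lc
    rw [gk_two n he h]
    interval_cases e
    · simp
    · simp
    · simpa using h2
    · simpa using h2'
  · subst hk
    interval_cases e
    · exact h3
    · exact h3'
    · exact h3''
  · subst hk
    subst h
    exact h4 h'

theorem bas_two {k e : ℕ} (h : Bas 2 k e) (he : 1 ≤ e) : Lc 3 7 0 2 k e :=
  loc_bas (by decide) (by decide) (by decide) (by decide) (by decide) (fun _ => by decide) h he

theorem bas_three {k e : ℕ} (h : Bas 3 k e) (he : 1 ≤ e) : Lc 1 4 0 3 k e :=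
  loc_bas (by decide) (by decide) (by decide) (by decide) (by decide) (fun _ => by decide) h he

theorem bas_four {k e : ℕ} (h : Bas 4 k e) (he : 1 ≤ e) : Lc 3 0 28 4 k e :=
  loc_bas (by decide) (by decide) (by decide) (by decide) (by decide) (fun h => absurd rfl h) h he

theorem bas_five {k e : ℕ} (h : Bas 5 k e) (he : 1 ≤ e) : Lc 1 7 0 5 k e :=
  loc_bas (by decide) (by decide) (by decide) (by decide) (by decide) (fun _ => by decide) h he

theorem bas_six {k e : ℕ} (h : Bas 6 k e) (he : 1 ≤ e) : Lc 1 4 10 6 k e :=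
  loc_bas (by decide) (by decide) (by decide) (by decide) (by decide) (fun _ => by decide) h he

theorem bas_seven {k e : ℕ} (h : Bas 7 k e) (he : 1 ≤ e) : Lc 3 32 0 7 k e :=
  loc_bas (by decide) (by decide) (by decide) (by decide) (by decide) (fun _ => by decide) h he

theorem bas_eight {k e : ℕ} (h : Bas 8 k e) (he : 1 ≤ e) : Lc 1 14 0 8 k e :=
  loc_bas (by decide) (by decide) (by decide) (by decide) (by decide) (fun _ => by decide) h he

theorem gk_three {n : ℕ} (hn : 9 ≤ n) : gk n 3 1 = (0, 0) ∧ gk n 3 2 = (n / 6, n / 6) ∧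
    gk n 3 3 = (n / 3, 3 * (n / 3)) := by
  have h2 : n ≠ 2 := by omega
  have h3 : n ≠ 3 := by omega
  unfold gk
  simp [h2, h3]

theorem gk_four {n : ℕ} (hn : 9 ≤ n) : 36 * (gk n 4 4).1 ≤ 4 * (gk n 4 4).2 + 20 * n := by
  have h2 : n ≠ 2 := by omega
  unfold gk
  rw [if_neg (by omega), if_neg (by omega), if_pos rfl, if_neg h2, if_neg (by omega)]
  split_ifs
  · simp only
    omega
  · simp only
    omega
  · simp only
    omega

theorem bas_nine {n k e : ℕ} (hn : 9 ≤ n) (h : Bas n k e) (he : 1 ≤ e) :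
    Lc 9 (16 * n) 0 n k e := by
  obtain ⟨h1, h2, h3⟩ := gk_three hn
  have h4 := gk_four hn
  refine loc_bas (by omega) (by omega) ?_ ?_ ?_ (fun _ => ?_) h he
  · unfold Lc
    rw [h1]
    simp
  · unfold Lc
    rw [h2]
    simp only
    omega
  · unfold Lc
    rw [h3]
    simp only
    omega
  · unfold Lc
    omega

theorem ext_two {k e : ℕ} (hk : 2 ≤ k) (he : 1 ≤ e) (h : k ≤ 4 ∨ k ≤ e ∧ e ≤ 7) :
    Lc 23 0 76 2 k e := by
  rcases h with h | ⟨h, h'⟩
  · interval_cases k
    · unfold Lc gk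
      simp
    · unfold Lc gk
      have := ct_two_three e
      simp
      omega
    · unfold Lc gk
      have := ct_two_four e
      simp
      omega
  · interval_cases e <;> interval_cases k <;> decide

theorem ext_three {k e : ℕ} (hk : 2 ≤ k) (he : 1 ≤ e) (h : k ≤ 3 ∨ k ≤ e ∧ e ≤ 5) :
    Lc 5 0 32 3 k e := by
  rcases h with h | ⟨h, h'⟩
  · interval_cases k
    · unfold Lc gk
      have := ct_three_two e
      simp
      omega
    · unfold Lc gk
      have := ct_three_three e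
      simp
      omega
  · interval_cases e <;> interval_cases k <;> decide

theorem ext_four {k e : ℕ} (he : 1 ≤ e) (h : k = 2 ∨ k = 3 ∧ e ≤ 5) :
    Lc 3 0 28 4 k e := by
  rcases h with h | ⟨h, h'⟩
  · subst h
    unfold Lc gk
    have := ct_four_two e
    simp
    omega
  · subst h
    interval_cases e <;> decide

theorem ext_four' {k e : ℕ} (he : 1 ≤ e) (h : k = 2 ∨ k = 3 ∧ e ≤ 5 ∨ k = 4 ∧ e = 4) :
    Lc 1 4 4 4 k e := by
  rcases h with h | ⟨h, h'⟩ | ⟨h, h'⟩
  · subst h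
    unfold Lc gk
    have := ct_four_two e
    simp
    omega
  · subst h
    interval_cases e <;> decide
  · subst h
    subst h'
    decide

end Pool.Agent.Helper46.BMY
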