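import Pool.Agent.Helper81.SBA.Def

/-!
# Symplectic curves as factorisations of powers of the full twist, and their cyclic covers
-/

set_option autoImplicit false

namespace Pool.Agent.Helper46.BMY

open Pool.Agent.Helper81.SBA (BraidGroup run twist)

/-- A special point of a curve of degree `m + 1` over the base: after the braid `g`, the strands
`a, ..., a + k - 1` meet in a point with the local equation `y ^ k = x ^ e`. -/
structure Sg (m : ℕ) where
  g : BraidGroup m
  a : ℕ
  k : ℕ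
  e : ℕ

/-- The local braid monodromy `(σ_a ⋯ σ_{a + k - 2}) ^ e`, conjugated by `g`. -/
def Sg.braid {m : ℕ} (P : Sg m) : BraidGroup m := P.g * run m P.a (P.k - 1) ^ P.e * P.g⁻¹

/-- A curve of degree `m + 1` over the base of the Hirzebruch surface `F_r`, disjoint from the
section of square `-r`; for `r = 1` also a curve of degree `m + 1` in the projective plane. Its
special points have the local equations `y ^ k = x ^ e` (`k = 2`: vertical tangent, node, cusp,
tacnode for `e = 1, 2, 3, 4`; `k = e`: ordinary `k`-fold point). -/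
def IsCurve (m r : ℕ) (l : List (Sg m)) : Prop :=
  (∀ P ∈ l, 2 ≤ P.k ∧ P.a + P.k ≤ m + 1 ∧ 1 ≤ P.e) ∧
    (l.map Sg.braid).prod = twist m 0 (m + 1) ^ r

/-- The types of special points which are allowed for the cyclic cover of degree `n`. -/
def Typ (n r d k e : ℕ) : Prop :=
  k = 2 ∧ e ≤ 4 ∨ k = 3 ∧ e ≤ 3 ∨ k = 4 ∧ e = 4 ∧ (n ≠ 4 ∨ 2 ≤ r) ∨
    n = 2 ∧ (62 ≤ d ∨ 2 ≤ r) ∧ (k ≤ 4 ∨ k ≤ e ∧ e ≤ 7) ∨
    n = 3 ∧ (63 ≤ d ∨ 2 ≤ r) ∧ (k ≤ 3 ∨ k ≤ e ∧ e ≤ 5) ∨ n = 4 ∧ (k = 2 ∨ k = 3 ∧ e ≤ 5)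

/-- The geometric genus of the point `z ^ n = y ^ k - x ^ e` (of a type in `Typ`) of the cover, and
minus the square of the canonical divisor of its minimal resolution. -/
def gk (n k e : ℕ) : ℕ × ℕ :=
  if k = 2 then
    if n = 3 then (e / 6, e / 6) else if n = 4 then (e / 4, 2 * (e / 4)) else
      if e = 3 then (n / 6, n / 6) else if e = 4 then (n / 4, 2 * (n / 4)) else (0, 0)
  else if k = 3 then
    if n = 2 then (e / 6, e / 6) else if n = 3 then (e / 3, 3 * (e / 3)) else
      if e = 2 then (n / 6, n / 6) else if e = 3 then (n / 3, 3 * (n / 3)) else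
        if e = 4 then (1, 3) else if e = 5 then (2, 4) else (0, 0)
  else if k = 4 then
    if n = 2 then (e / 4, 2 * (e / 4)) else if e = 5 then (2, 4) else
      if n % 4 = 2 then (4 * (n / 4) + 1, 16 * (n / 4) + 2) else
        if n % 4 = 3 then (4 * (n / 4) + 1, 16 * (n / 4) + 3) else (4 * (n / 4), 16 * (n / 4))
  else if n = 3 then (3, 10) else if k = 5 then if e = 7 then (2, 3) else (1, 2) else (3, 8)

/-- The sum over the special points. -/
def sumS {m : ℕ} (l : List (Sg m)) (w : Sg m → ℕ) : ℤ := ((l.map w).sum : ℕ)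

/-- `c_2` of the minimal resolution of the cyclic cover of degree `n` of `F_r` branched along the
curve of degree `d = n f` over the base (`12 pg + K ^ 2` is subtracted for every point). -/
def cTwoF {m : ℕ} (n f r : ℕ) (l : List (Sg m)) : ℤ :=
  4 * n + (n - 1) * (r * (n * f) ^ 2 - r * (n * f) - 2 * (n * f)) -
    (sumS l (fun P => 12 * (gk n P.k P.e).1) - sumS l fun P => (gk n P.k P.e).2)

/-- `c_1 ^ 2` of this cover. -/
def cOneSqF {m : ℕ} (n f r : ℕ) (l : List (Sg m)) : ℤ :=
  n * (r * ((n - 1) * f - 2) ^ 2 + 2 * (r - 2) * ((n - 1) * f - 2)) -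
    sumS l fun P => (gk n P.k P.e).2

/-- `c_2` of the minimal resolution of the cyclic cover of degree `n` of the projective plane
branched along the curve of degree `d = n f`. -/
def cTwo {m : ℕ} (n f : ℕ) (l : List (Sg m)) : ℤ :=
  3 * n + (n - 1) * ((n * f) ^ 2 - 3 * (n * f)) -
    (sumS l (fun P => 12 * (gk n P.k P.e).1) - sumS l fun P => (gk n P.k P.e).2)

/-- `c_1 ^ 2` of this cover. -/
def cOneSq {m : ℕ} (n f : ℕ) (l : List (Sg m)) : ℤ :=
  n * ((n - 1) * f - 3) ^ 2 - sumS l fun P => (gk n P.k P.e).2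

end Pool.Agent.Helper46.BMY
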