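import Pool.Agent.Helper81.SBA.Hur

/-!
# Hurwitz words and the braid group: two words with the same product

This is `hurwitz` of `Helper81/SBA/Hur.lean` for two arbitrary words of letters.
-/

set_option autoImplicit false

universe u

namespace Pool.Agent.Helper46.BMY

open Pool.Agent.Helper81.SBA

section hur

variable {M : Type u} [Monoid M] {m : ℕ} (e : BraidGroup m → M)

variable (he : ∀ x y, Lt x → Lt y → e x * e y = e (x * y * x⁻¹) * e x)

include he

/-- a letter acts by a permutation -/
private theorem hurwitz_gen_act (x : BraidGroup m) (hx : Lt x) :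
    ∃ p : Equiv.Perm (Quotient (⟨lrel (im e (stdL m)), lrel_equiv _⟩ : Setoid (ℕ × M))),
      ∀ a : ℕ × M, p (Quotient.mk _ a) = Quotient.mk _ (a.1, e x * a.2) := by
  obtain ⟨r, h1, h2⟩ := e_dvd e he x hx
  set Z := im e (stdL m) with hZ
  have hc : Commute Z (e x) := std_comm e he x hx
  have hr : Commute Z r := by
    change Z * r = r * Z
    calc Z * r = r * e x * r := by rw [h2]
      _ = r * Z := by rw [mul_assoc, h1]
  refine ⟨⟨Quotient.map (fun a : ℕ × M => (a.1, e x * a.2)) ?_,
    Quotient.map (fun a : ℕ × M => (a.1 + 1, r * a.2)) ?_, ?_, ?_⟩, fun a => rfl⟩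
  · rintro a b ⟨k, hk⟩
    refine ⟨k, ?_⟩
    change Z ^ (k + b.1) * (e x * a.2) = Z ^ (k + a.1) * (e x * b.2)
    rw [← mul_assoc, (hc.pow_left _).eq, mul_assoc, hk, ← mul_assoc, ← (hc.pow_left _).eq,
      mul_assoc]
  · rintro a b ⟨k, hk⟩
    refine ⟨k, ?_⟩
    change Z ^ (k + (b.1 + 1)) * (r * a.2) = Z ^ (k + (a.1 + 1)) * (r * b.2)
    have e1 : ∀ n q, Z ^ (k + (n + 1)) * (r * q) = Z * r * (Z ^ (k + n) * q) := by
      intro n q
      rw [← mul_assoc, ← mul_assoc, mul_assoc Z r, ← (hr.pow_left _).eq, ← mul_assoc, ← pow_succ']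
      rfl
    rw [e1, e1, hk]
  · intro y
    induction y using Quotient.inductionOn with
    | h a =>
      refine Quotient.sound ⟨0, ?_⟩
      change Z ^ (0 + a.1) * (r * (e x * a.2)) = Z ^ (0 + (a.1 + 1)) * a.2
      rw [← mul_assoc r, h2, ← mul_assoc, ← pow_succ]
      rfl
  · intro y
    induction y using Quotient.inductionOn with
    | h a =>
      refine Quotient.sound ⟨0, ?_⟩
      change Z ^ (0 + a.1) * (e x * (r * a.2)) = Z ^ (0 + (a.1 + 1)) * a.2
      rw [← mul_assoc (e x), h1, ← mul_assoc, ← pow_succ]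
      rfl

/-- **The Hurwitz theorem**, for two words with the same product. -/
theorem hurwitz_gen (l l' : List (BraidGroup m)) (hl : ∀ x ∈ l, Lt x) (hl' : ∀ x ∈ l', Lt x)
    (h : l.prod = l'.prod) :
    ∃ k : ℕ, im e (stdL m) ^ k * im e l = im e (stdL m) ^ k * im e l' := by
  set S : Setoid (ℕ × M) := ⟨lrel (im e (stdL m)), lrel_equiv _⟩ with hS
  choose! act hact using hurwitz_gen_act e he
  have hmul : ∀ x y, Lt x → Lt y → act x * act y = act (x * y * x⁻¹) * act x := by
    intro x y hx hy
    refine Equiv.ext fun z => ?_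
    induction z using Quotient.inductionOn with
    | h a =>
      rw [Equiv.Perm.mul_apply, Equiv.Perm.mul_apply, hact y hy, hact x hx, hact x hx,
        hact _ (hy.conj x)]
      change Quotient.mk S (a.1, e x * (e y * a.2)) =
        Quotient.mk S (a.1, e (x * y * x⁻¹) * (e x * a.2))
      rw [← mul_assoc, ← mul_assoc, he x y hx hy]
  have h1 : ∀ i j : Fin m, i.val + 1 = j.val →
      act (sigma i) * act (sigma j) * act (sigma i) =
        act (sigma j) * act (sigma i) * act (sigma j) := by
    intro i j hij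
    have hb := artin_braid i j hij
    have hx : Lt (sigma i) := Lt.sigma i
    have hy : Lt (sigma j) := Lt.sigma j
    have h3 : sigma i * (sigma j * sigma i * (sigma j)⁻¹) * (sigma i)⁻¹ = sigma j := by
      calc sigma i * (sigma j * sigma i * (sigma j)⁻¹) * (sigma i)⁻¹
          = sigma i * sigma j * sigma i * (sigma j)⁻¹ * (sigma i)⁻¹ := by group
        _ = sigma j := by rw [hb]; group
    calc act (sigma i) * act (sigma j) * act (sigma i)
        = act (sigma i) * act (sigma j * sigma i * (sigma j)⁻¹) * act (sigma j) := by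
          rw [mul_assoc, hmul _ _ hy hx, ← mul_assoc]
      _ = act (sigma j) * act (sigma i) * act (sigma j) := by
          rw [hmul _ _ hx (hx.conj _), h3]
  have h2 : ∀ i j : Fin m, i.val + 2 ≤ j.val →
      act (sigma i) * act (sigma j) = act (sigma j) * act (sigma i) := by
    intro i j hij
    have hb := artin_comm i j hij
    rw [hmul _ _ (Lt.sigma i) (Lt.sigma j), hb, mul_inv_cancel_right]
  set φ := braidLift (fun i => act (sigma i)) h1 h2 with hφ
  have hφs : ∀ i, φ (sigma i) = act (sigma i) := fun i => braidLift_sigma _ h1 h2 i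
  have hconj : ∀ x y, Lt x → Lt y → act (x * y * x⁻¹) = act x * act y * (act x)⁻¹ := by
    intro x y hx hy
    rw [hmul x y hx hy, mul_inv_cancel_right]
  have hg : ∀ g : BraidGroup m, ∀ y, Lt y → act (g * y * g⁻¹) = φ g * act y * (φ g)⁻¹ := by
    intro g
    induction g using braid_induction with
    | h1 => intro y hy; simp
    | hm g i ih =>
      intro y hy
      rw [map_mul, hφs, show g * sigma i * y * (g * sigma i)⁻¹ =
        g * (sigma i * y * (sigma i)⁻¹) * g⁻¹ by group, ih _ (hy.conj _),
        hconj _ _ (Lt.sigma i) hy]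
      group
    | hi g i ih =>
      intro y hy
      have hy' : Lt ((sigma i)⁻¹ * y * sigma i) := by
        have := hy.conj (sigma i)⁻¹
        rwa [inv_inv] at this
      have h3 := hconj _ _ (Lt.sigma i) hy'
      rw [show sigma i * ((sigma i)⁻¹ * y * sigma i) * (sigma i)⁻¹ = y by group] at h3
      rw [map_mul, map_inv, hφs, show g * (sigma i)⁻¹ * y * (g * (sigma i)⁻¹)⁻¹ =
        g * ((sigma i)⁻¹ * y * sigma i) * g⁻¹ by group, ih _ hy', h3]
      group
  have hlet : ∀ x, Lt x → act x = φ x := by
    rintro x ⟨g, i, rfl⟩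
    rw [hg g _ (Lt.sigma i), map_mul, map_mul, map_inv, hφs]
  have hword : ∀ w : List (BraidGroup m), (∀ x ∈ w, Lt x) → ∀ a : ℕ × M,
      φ w.prod (Quotient.mk S a) = Quotient.mk S (a.1, im e w * a.2) := by
    intro w
    induction w with
    | nil =>
      intro _ a
      rw [List.prod_nil, map_one]
      change Quotient.mk S a = Quotient.mk S (a.1, 1 * a.2)
      rw [one_mul]
    | cons x w ih =>
      intro hw a
      rw [List.prod_cons, map_mul, Equiv.Perm.mul_apply,
        ih (fun y hy => hw y (List.mem_cons_of_mem _ hy)), ← hlet x (hw x List.mem_cons_self)]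
      refine (hact x (hw x List.mem_cons_self) _).trans ?_
      change Quotient.mk S (a.1, e x * (im e w * a.2)) = Quotient.mk S (a.1, im e (x :: w) * a.2)
      rw [← mul_assoc]
      rfl
  have e1 := hword l hl (0, 1)
  have e2 := hword l' hl' (0, 1)
  rw [← h, e1] at e2
  obtain ⟨k, hk⟩ := Quotient.exact e2
  refine ⟨k, ?_⟩
  have hk' : im e (stdL m) ^ (k + 0) * (im e l * 1) = im e (stdL m) ^ (k + 0) *
    (im e l' * 1) := hk
  simpa using hk'

end hur

/-- The letters of the standard word. -/
theorem std_lt {m : ℕ} {x : BraidGroup m} (h : x ∈ stdL m) : Lt x := by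
  rw [stdL, List.mem_flatten] at h
  obtain ⟨l, hl, hx⟩ := h
  rw [List.eq_of_mem_replicate hl, List.mem_map] at hx
  obtain ⟨i, -, rfl⟩ := hx
  exact Lt.sigma i

end Pool.Agent.Helper46.BMY
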