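import Pool.Agent.Helper81.SBA.Std

/-!
# Tridiagonal Toeplitz forms
-/

set_option autoImplicit false

open ComplexConjugate Finset Module

namespace Pool.Agent.Helper46.BMY

/-- The sesquilinear form `∑ conj x_i (y_i - y_{i+1})` on `ℂ ^ k`. -/
noncomputable def tS {k : ℕ} (x y : Fin k → ℂ) : ℂ :=
  ∑ i : Fin k, ∑ j : Fin k,
    conj (x i) * (if i.val = j.val then 1 else if i.val + 1 = j.val then -1 else 0) * y j

/-- The scalar product. -/
noncomputable def tD {k : ℕ} (x y : Fin k → ℂ) : ℂ := ∑ i, conj (x i) * y i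

theorem tD_conj {k : ℕ} (x y : Fin k → ℂ) : conj (tD x y) = tD y x := by
  unfold tD
  rw [map_sum]
  refine Finset.sum_congr rfl fun i _ => ?_
  rw [map_mul, Complex.conj_conj, mul_comm]

/-- The eigenvectors. -/
noncomputable def tV (k : ℕ) (φ : ℝ) (s : ℕ) : Fin k → ℂ := fun i =>
  Complex.exp (-(φ * i.val * Complex.I)) *
    (Real.sin (Real.pi * (s + 1) * (i.val + 1) / (k + 1)) : ℝ)

private theorem toep_conj_exp (t : ℝ) :
    conj (Complex.exp (-(t * Complex.I))) * Complex.exp (-(t * Complex.I)) = 1 := by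
  rw [← Complex.exp_conj, ← Complex.exp_add]
  have h : conj (-(t * Complex.I : ℂ)) + -(t * Complex.I) = 0 := by
    rw [map_neg, map_mul, Complex.conj_ofReal, Complex.conj_I]
    ring
  rw [h, Complex.exp_zero]

theorem tV_orth {k : ℕ} (φ : ℝ) (s t : ℕ) (hs : s < k) (ht : t < k) :
    tD (tV k φ s) (tV k φ t) = if s = t then (((k : ℝ) + 1) / 2 : ℝ) else 0 := by
  have h := Pool.Agent.Helper81.SBA.sin_orth (m := k) s t hs ht
  have h1 : tD (tV k φ s) (tV k φ t) =
      ((∑ i : Fin k, Real.sin (Real.pi * (s + 1) * (i.val + 1) / (k + 1)) *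
        Real.sin (Real.pi * (t + 1) * (i.val + 1) / (k + 1)) : ℝ) : ℂ) := by
    unfold tD tV
    rw [Complex.ofReal_sum]
    refine Finset.sum_congr rfl fun i _ => ?_
    have h2 := toep_conj_exp (φ * i.val)
    rw [map_mul, Complex.conj_ofReal, Complex.ofReal_mul]
    push_cast at h2 ⊢
    linear_combination (Complex.sin (Real.pi * (s + 1) * (i.val + 1) / (k + 1)) *
      Complex.sin (Real.pi * (t + 1) * (i.val + 1) / (k + 1))) * h2
  rw [h1, h]

/-- The coefficients of `tS` in the second argument. -/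
private theorem toep_right {k : ℕ} (x : Fin k → ℂ) (g : ℕ → ℂ) (hg : g k = 0) :
    tS x (fun i : Fin k => g i.val) = ∑ i : Fin k, conj (x i) * (g i.val - g (i.val + 1)) := by
  unfold tS
  refine Finset.sum_congr rfl fun i _ => ?_
  have h1 : ∀ j : Fin k, conj (x i) *
      (if i.val = j.val then 1 else if i.val + 1 = j.val then -1 else 0) * g j.val =
      (if j.val = i.val then conj (x i) * g i.val else 0) +
        (if j.val = i.val + 1 then -(conj (x i) * g (i.val + 1)) else 0) := by
    intro j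
    by_cases h : i.val = j.val
    · rw [if_pos h, if_pos h.symm, if_neg (by omega), h]
      ring
    · rw [if_neg h, if_neg (Ne.symm h)]
      by_cases h2 : i.val + 1 = j.val
      · rw [if_pos h2, if_pos h2.symm, h2]
        ring
      · rw [if_neg h2, if_neg (Ne.symm h2)]
        ring
  rw [Finset.sum_congr rfl fun j _ => h1 j, Finset.sum_add_distrib]
  have h2 : ∑ j : Fin k, (if j.val = i.val then conj (x i) * g i.val else 0) =
      conj (x i) * g i.val := by
    rw [Finset.sum_eq_single i]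
    · rw [if_pos rfl]
    · intro j _ hj
      rw [if_neg fun h => hj (Fin.ext h)]
    · intro h
      exact absurd (Finset.mem_univ i) h
  have h3 : ∑ j : Fin k, (if j.val = i.val + 1 then -(conj (x i) * g (i.val + 1)) else 0) =
      -(conj (x i) * g (i.val + 1)) := by
    by_cases h : i.val + 1 < k
    · rw [Finset.sum_eq_single (⟨i.val + 1, h⟩ : Fin k)]
      · rw [if_pos rfl]
      · intro j _ hj
        rw [if_neg fun h => hj (Fin.ext h)]
      · intro h
        exact absurd (Finset.mem_univ _) h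
    · have h4 : i.val + 1 = k := by
        have := i.isLt
        omega
      rw [h4, hg, mul_zero, neg_zero]
      refine Finset.sum_eq_zero fun j _ => ?_
      split_ifs <;> rfl
  rw [h2, h3]
  ring

/-- The coefficients of `tS` in the first argument. -/
private theorem toep_left {k : ℕ} (x : Fin k → ℂ) (g : ℕ → ℂ) (hg : g 0 = 0) :
    tS (fun i : Fin k => g (i.val + 1)) x =
      ∑ i : Fin k, (conj (g (i.val + 1)) - conj (g i.val)) * x i := by
  unfold tS
  rw [Finset.sum_comm]
  refine Finset.sum_congr rfl fun j _ => ?_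
  have h1 : ∀ i : Fin k, conj (g (i.val + 1)) *
      (if i.val = j.val then 1 else if i.val + 1 = j.val then -1 else 0) * x j =
      (if i.val = j.val then conj (g (j.val + 1)) * x j else 0) +
        (if i.val + 1 = j.val then -(conj (g j.val) * x j) else 0) := by
    intro i
    by_cases h : i.val = j.val
    · rw [if_pos h, if_pos h, if_neg (by omega), h]
      ring
    · rw [if_neg h, if_neg h]
      by_cases h2 : i.val + 1 = j.val
      · rw [if_pos h2, if_pos h2, h2]
        ring
      · rw [if_neg h2, if_neg h2]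
        ring
  rw [Finset.sum_congr rfl fun i _ => h1 i, Finset.sum_add_distrib]
  have h2 : ∑ i : Fin k, (if i.val = j.val then conj (g (j.val + 1)) * x j else 0) =
      conj (g (j.val + 1)) * x j := by
    rw [Finset.sum_eq_single j]
    · rw [if_pos rfl]
    · intro i _ hi
      rw [if_neg fun h => hi (Fin.ext h)]
    · intro h
      exact absurd (Finset.mem_univ j) h
  have h3 : ∑ i : Fin k, (if i.val + 1 = j.val then -(conj (g j.val) * x j) else 0) =
      -(conj (g j.val) * x j) := by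
    rcases Nat.eq_zero_or_pos j.val with h | h
    · rw [h, hg, map_zero, zero_mul, neg_zero]
      refine Finset.sum_eq_zero fun i _ => ?_
      split_ifs <;> rfl
    · have hj := j.isLt
      rw [Finset.sum_eq_single (⟨j.val - 1, by omega⟩ : Fin k)]
      · rw [if_pos (Nat.sub_add_cancel h)]
      · intro i _ hi
        rw [if_neg fun h => hi (Fin.ext (by change i.val = j.val - 1; omega))]
      · intro h
        exact absurd (Finset.mem_univ _) h
  rw [h2, h3]
  ring

/-- The eigenvector equation. -/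
theorem tV_eig {k : ℕ} (R φ : ℝ) (s : ℕ) (x : Fin k → ℂ) :
    R * Complex.exp (φ * Complex.I) * tS x (tV k φ s) +
      conj (R * Complex.exp (φ * Complex.I) * tS (tV k φ s) x) =
      ((2 * R * (Real.cos φ - Real.cos (Real.pi * (s + 1) / (k + 1))) : ℝ) : ℂ) *
        tD x (tV k φ s) := by
  have hk : ((k : ℝ) + 1) ≠ 0 := by positivity
  -- the function `g`, shifted by one
  obtain ⟨g, hgd⟩ : ∃ g : ℕ → ℂ, ∀ i, g i = Complex.exp (-(φ * (i - 1) * Complex.I)) *
    (Real.sin (Real.pi * (s + 1) * i / (k + 1)) : ℝ) := ⟨_, fun _ => rfl⟩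
  have hg0 : g 0 = 0 := by
    rw [hgd]
    simp
  have hgk : g (k + 1) = 0 := by
    rw [hgd]
    have h1 : Real.pi * (s + 1) * ((k + 1 : ℕ) : ℝ) / (k + 1) = ((s + 1 : ℕ) : ℝ) * Real.pi := by
      push_cast
      field_simp
    rw [h1, Real.sin_nat_mul_pi, Complex.ofReal_zero, mul_zero]
  have hV : tV k φ s = fun i : Fin k => g (i.val + 1) := by
    funext i
    rw [hgd]
    unfold tV
    congr 3
    · push_cast
      ring
    · push_cast
      ring
  have h1 : tS x (tV k φ s) = ∑ i : Fin k, conj (x i) * (g (i.val + 1) - g (i.val + 1 + 1)) := by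
    rw [hV]
    exact toep_right x (fun i => g (i + 1)) hgk
  have h2 : tS (tV k φ s) x = ∑ i : Fin k, (conj (g (i.val + 1)) - conj (g i.val)) * x i := by
    rw [hV]
    exact toep_left x g hg0
  have h3 : conj (R * Complex.exp (φ * Complex.I)) = R * Complex.exp (-(φ * Complex.I)) := by
    rw [map_mul, Complex.conj_ofReal, ← Complex.exp_conj, map_mul, Complex.conj_ofReal,
      Complex.conj_I, mul_neg]
  rw [map_mul, h3, h1, h2, map_sum, Finset.mul_sum, Finset.mul_sum, ← Finset.sum_add_distrib]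
  unfold tD
  rw [Finset.mul_sum]
  refine Finset.sum_congr rfl fun i _ => ?_
  rw [map_mul, map_sub, Complex.conj_conj, Complex.conj_conj, hV]
  change _ = _ * (conj (x i) * g (i.val + 1))
  have e1 : Complex.exp (φ * Complex.I) * g (i.val + 1 + 1) =
      Complex.exp (-(φ * i.val * Complex.I)) *
        (Real.sin (Real.pi * (s + 1) * (i.val + 1) / (k + 1) + Real.pi * (s + 1) / (k + 1)) : ℝ) := by
    rw [hgd, ← mul_assoc, ← Complex.exp_add]
    congr 2
    · push_cast
      ring
    · push_cast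
      ring_nf
  have e2 : Complex.exp (-(φ * Complex.I)) * g i.val =
      Complex.exp (-(φ * i.val * Complex.I)) *
        (Real.sin (Real.pi * (s + 1) * (i.val + 1) / (k + 1) - Real.pi * (s + 1) / (k + 1)) : ℝ) := by
    rw [hgd, ← mul_assoc, ← Complex.exp_add]
    congr 2
    · ring
    · ring_nf
  have e3 : g (i.val + 1) = Complex.exp (-(φ * i.val * Complex.I)) *
      (Real.sin (Real.pi * (s + 1) * (i.val + 1) / (k + 1)) : ℝ) := by
    rw [hgd]
    congr 3
    · push_cast
      ring
    · push_cast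
      ring
  have e4 : Complex.exp (φ * Complex.I) + Complex.exp (-(φ * Complex.I)) =
      ((2 * Real.cos φ : ℝ) : ℂ) := by
    push_cast
    rw [Complex.two_cos, neg_mul]
  have e5 : Real.sin (Real.pi * (s + 1) * (i.val + 1) / (k + 1) + Real.pi * (s + 1) / (k + 1)) +
      Real.sin (Real.pi * (s + 1) * (i.val + 1) / (k + 1) - Real.pi * (s + 1) / (k + 1)) =
      2 * Real.sin (Real.pi * (s + 1) * (i.val + 1) / (k + 1)) *
        Real.cos (Real.pi * (s + 1) / (k + 1)) := by
    rw [Real.sin_add, Real.sin_sub]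
    ring
  have e6 : Complex.exp (φ * Complex.I) * g (i.val + 1 + 1) +
      Complex.exp (-(φ * Complex.I)) * g i.val =
      ((2 * Real.cos (Real.pi * (s + 1) / (k + 1)) : ℝ) : ℂ) * g (i.val + 1) := by
    rw [e1, e2, ← mul_add, ← Complex.ofReal_add, e5, e3]
    push_cast
    ring
  have e7 : ((2 * R * (Real.cos φ - Real.cos (Real.pi * (s + 1) / (k + 1))) : ℝ) : ℂ) =
      R * (((2 * Real.cos φ : ℝ) : ℂ) -
        ((2 * Real.cos (Real.pi * (s + 1) / (k + 1)) : ℝ) : ℂ)) := by
    push_cast
    ring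
  rw [e7]
  linear_combination (R * conj (x i) * g (i.val + 1)) * e4 - (R * conj (x i)) * e6

/-- Linear combinations of the eigenvectors in a set `K` of indices. -/
noncomputable def tComb {k : ℕ} (φ : ℝ) (K : Finset (Fin k)) :
    (K → ℂ) →ₗ[ℂ] (Fin k → ℂ) :=
  Fintype.linearCombination ℂ fun s : K => tV k φ s.1.val

private theorem toep_comb {k : ℕ} (φ : ℝ) (K : Finset (Fin k)) (c : K → ℂ) :
    tComb φ K c = ∑ s : K, c s • tV k φ s.1.val := rfl

private theorem toep_tD_sum {k : ℕ} (φ : ℝ) (K : Finset (Fin k)) (c : K → ℂ) (x : Fin k → ℂ) :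
    tD x (tComb φ K c) = ∑ s : K, c s * tD x (tV k φ s.1.val) := by
  rw [toep_comb]
  unfold tD
  simp only [Finset.sum_apply, Pi.smul_apply, smul_eq_mul, Finset.mul_sum]
  rw [Finset.sum_comm]
  refine Finset.sum_congr rfl fun s _ => Finset.sum_congr rfl fun i _ => ?_
  ring

private theorem toep_tD_comb {k : ℕ} (φ : ℝ) (K : Finset (Fin k)) (c : K → ℂ) (s : K) :
    tD (tComb φ K c) (tV k φ s.1.val) = conj (c s) * (((k : ℝ) + 1) / 2 : ℝ) := by
  rw [← tD_conj, toep_tD_sum, Finset.sum_eq_single s]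
  · rw [map_mul, tD_conj, tV_orth _ _ _ s.1.isLt s.1.isLt, if_pos rfl]
  · intro t _ ht
    rw [tV_orth _ _ _ s.1.isLt t.1.isLt, if_neg, Complex.ofReal_zero, mul_zero]
    intro h
    exact ht (Subtype.ext (Fin.ext h.symm))
  · intro h
    exact absurd (Finset.mem_univ s) h

theorem tComb_inj {k : ℕ} (φ : ℝ) (K : Finset (Fin k)) : Function.Injective (tComb φ K) := by
  rw [injective_iff_map_eq_zero]
  intro c hc
  funext s
  have h := toep_tD_comb φ K c s
  rw [hc] at h
  have h0 : tD (0 : Fin k → ℂ) (tV k φ s.1.val) = 0 := by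
    unfold tD
    simp
  rw [h0] at h
  have h1 : (((((k : ℝ) + 1) / 2 : ℝ)) : ℂ) ≠ 0 := by
    rw [Complex.ofReal_ne_zero]
    positivity
  rcases mul_eq_zero.1 h.symm with h2 | h2
  · exact (map_eq_zero _).1 h2
  · exact absurd h2 h1

private theorem toep_tS_right {k : ℕ} (φ : ℝ) (K : Finset (Fin k)) (c : K → ℂ) (x : Fin k → ℂ) :
    tS x (tComb φ K c) = ∑ s : K, c s * tS x (tV k φ s.1.val) := by
  rw [toep_comb]
  unfold tS
  simp only [Finset.sum_apply, Pi.smul_apply, smul_eq_mul, Finset.mul_sum]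
  have h : ∀ i : Fin k, ∑ j : Fin k, ∑ s : K, conj (x i) *
      (if i.val = j.val then 1 else if i.val + 1 = j.val then -1 else 0) *
      (c s * tV k φ s.1.val j) = ∑ s : K, ∑ j : Fin k, conj (x i) *
      (if i.val = j.val then 1 else if i.val + 1 = j.val then -1 else 0) *
      (c s * tV k φ s.1.val j) := fun i => Finset.sum_comm
  rw [Finset.sum_congr rfl fun i _ => h i, Finset.sum_comm]
  refine Finset.sum_congr rfl fun s _ => Finset.sum_congr rfl fun i _ =>
    Finset.sum_congr rfl fun j _ => ?_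
  ring

private theorem toep_tS_left {k : ℕ} (φ : ℝ) (K : Finset (Fin k)) (c : K → ℂ) (x : Fin k → ℂ) :
    tS (tComb φ K c) x = ∑ s : K, conj (c s) * tS (tV k φ s.1.val) x := by
  rw [toep_comb]
  unfold tS
  simp only [Finset.sum_apply, Pi.smul_apply, smul_eq_mul, Finset.mul_sum, map_sum, map_mul,
    Finset.sum_mul]
  have h : ∀ i : Fin k, ∑ j : Fin k, ∑ s : K, conj (c s) * conj (tV k φ s.1.val i) *
      (if i.val = j.val then 1 else if i.val + 1 = j.val then -1 else 0) * x j =
      ∑ s : K, ∑ j : Fin k, conj (c s) * conj (tV k φ s.1.val i) *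
      (if i.val = j.val then 1 else if i.val + 1 = j.val then -1 else 0) * x j :=
    fun i => Finset.sum_comm
  rw [Finset.sum_congr rfl fun i _ => h i, Finset.sum_comm]
  refine Finset.sum_congr rfl fun s _ => Finset.sum_congr rfl fun i _ =>
    Finset.sum_congr rfl fun j _ => ?_
  ring

/-- The value of the form. -/
theorem toep_val {k : ℕ} (R φ : ℝ) (K : Finset (Fin k)) (c : K → ℂ) :
    (R * Complex.exp (φ * Complex.I) * tS (tComb φ K c) (tComb φ K c)).re =
      (((k : ℝ) + 1) / 2) * ∑ s : K, R * (Real.cos φ -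
        Real.cos (Real.pi * (s.1.val + 1) / (k + 1))) * Complex.normSq (c s) := by
  obtain ⟨μ, hμ⟩ : ∃ μ : ℂ, μ = R * Complex.exp (φ * Complex.I) := ⟨_, rfl⟩
  obtain ⟨y, hy⟩ : ∃ y, y = tComb φ K c := ⟨_, rfl⟩
  have h1 : μ * tS y y + conj (μ * tS y y) = ∑ s : K, c s *
      (μ * tS y (tV k φ s.1.val) + conj (μ * tS (tV k φ s.1.val) y)) := by
    have e1 : tS y y = ∑ s : K, c s * tS y (tV k φ s.1.val) := by
      conv_lhs => rw [hy]
      rw [toep_tS_right, ← hy]
    have e2 : tS y y = ∑ s : K, conj (c s) * tS (tV k φ s.1.val) y := by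
      conv_lhs => rw [hy]
      rw [toep_tS_left, ← hy]
    have e3 : conj (μ * tS y y) = ∑ s : K, c s * conj (μ * tS (tV k φ s.1.val) y) := by
      rw [e2, Finset.mul_sum, map_sum]
      refine Finset.sum_congr rfl fun s _ => ?_
      simp only [map_mul, Complex.conj_conj]
      ring
    have e4 : μ * tS y y = ∑ s : K, c s * (μ * tS y (tV k φ s.1.val)) := by
      conv_lhs => rw [e1]
      rw [Finset.mul_sum]
      refine Finset.sum_congr rfl fun s _ => ?_
      ring
    rw [e3, e4, ← Finset.sum_add_distrib]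
    refine Finset.sum_congr rfl fun s _ => ?_
    ring
  have h2 : ∀ s : K, c s * (μ * tS y (tV k φ s.1.val) + conj (μ * tS (tV k φ s.1.val) y)) =
      ((2 * R * (Real.cos φ - Real.cos (Real.pi * (s.1.val + 1) / (k + 1))) *
        (((k : ℝ) + 1) / 2) * Complex.normSq (c s) : ℝ) : ℂ) := by
    intro s
    rw [hμ, tV_eig, hy, toep_tD_comb]
    have h3 : c s * conj (c s) = (Complex.normSq (c s) : ℂ) := Complex.mul_conj _
    push_cast at h3 ⊢
    linear_combination (2 * R * (Complex.cos φ -
      Complex.cos (Real.pi * (s.1.val + 1) / (k + 1))) * (((k : ℂ) + 1) / 2)) * h3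
  rw [Finset.sum_congr rfl fun s _ => h2 s, ← Complex.ofReal_sum] at h1
  have h4 := congrArg Complex.re h1
  rw [Complex.add_re, Complex.conj_re, Complex.ofReal_re] at h4
  rw [← hμ, ← hy]
  have h5 : ∑ s : K, 2 * R * (Real.cos φ - Real.cos (Real.pi * (s.1.val + 1) / (k + 1))) *
        (((k : ℝ) + 1) / 2) * Complex.normSq (c s) = 2 * ((((k : ℝ) + 1) / 2) * ∑ s : K,
          R * (Real.cos φ - Real.cos (Real.pi * (s.1.val + 1) / (k + 1))) *
            Complex.normSq (c s)) := by
    rw [Finset.mul_sum, Finset.mul_sum]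
    refine Finset.sum_congr rfl fun s _ => ?_
    ring
  linarith

/-- PROOF. With `μ = R exp (i φ)`: for `y_s i = exp (- i φ i) sin (π (s + 1) (i + 1) / (k + 1))` and
all `x`: `μ tS x y + conj (μ tS y x) = 2 R (cos φ - cos (π (s + 1) / (k + 1))) ∑ conj x_i y_i`
(`sin (α + β) + sin (α - β)`), and the `y_s` are orthogonal (`Helper81.SBA.sin_orth`), so for
`x = ∑ c_s y_s` over a set of `s`: `Re (μ tS x x) = R ∑ (cos φ - cos ..) |c_s|² ‖y_s‖²`. -/
theorem toep_psd (k : ℕ) (R φ : ℝ) (hR : 0 < R) :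
    ∃ W : Submodule ℂ (Fin k → ℂ),
      (univ.filter fun j : Fin k => Real.cos (Real.pi * (j.val + 1) / (k + 1)) ≤ Real.cos φ).card ≤
        finrank ℂ W ∧
      ∀ x ∈ W, 0 ≤ (R * Complex.exp (φ * Complex.I) * tS x x).re := by
  refine ⟨LinearMap.range (tComb φ (univ.filter fun j : Fin k =>
    Real.cos (Real.pi * (j.val + 1) / (k + 1)) ≤ Real.cos φ)), ?_, ?_⟩
  · rw [LinearMap.finrank_range_of_inj (tComb_inj _ _), Module.finrank_fintype_fun_eq_card,
      Fintype.card_coe]
  · rintro _ ⟨c, rfl⟩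
    rw [toep_val]
    have hk : (0 : ℝ) ≤ ((k : ℝ) + 1) / 2 := by positivity
    refine mul_nonneg hk (Finset.sum_nonneg fun s _ => ?_)
    have hs := (Finset.mem_filter.1 s.2).2
    exact mul_nonneg (mul_nonneg hR.le (sub_nonneg.2 hs)) (Complex.normSq_nonneg _)

theorem toep_neg (k : ℕ) (R φ : ℝ) (hR : 0 < R) :
    ∃ W : Submodule ℂ (Fin k → ℂ),
      (univ.filter fun j : Fin k => Real.cos φ < Real.cos (Real.pi * (j.val + 1) / (k + 1))).card ≤
        finrank ℂ W ∧
      ∀ x ∈ W, x ≠ 0 → (R * Complex.exp (φ * Complex.I) * tS x x).re < 0 := by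
  refine ⟨LinearMap.range (tComb φ (univ.filter fun j : Fin k =>
    Real.cos φ < Real.cos (Real.pi * (j.val + 1) / (k + 1)))), ?_, ?_⟩
  · rw [LinearMap.finrank_range_of_inj (tComb_inj _ _), Module.finrank_fintype_fun_eq_card,
      Fintype.card_coe]
  · rintro _ ⟨c, rfl⟩ hne
    rw [toep_val]
    have hk : (0 : ℝ) < ((k : ℝ) + 1) / 2 := by positivity
    have hc : c ≠ 0 := by
      rintro rfl
      exact hne (map_zero _)
    obtain ⟨s0, hs0⟩ := Function.ne_iff.1 hc
    refine mul_neg_of_pos_of_neg hk ?_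
    rw [← neg_pos, ← Finset.sum_neg_distrib]
    apply Finset.sum_pos'
    · intro s _
      have hs := (Finset.mem_filter.1 s.2).2
      have h1 : R * (Real.cos φ - Real.cos (Real.pi * (s.1.val + 1) / (k + 1))) ≤ 0 :=
        mul_nonpos_of_nonneg_of_nonpos hR.le (sub_nonpos.2 hs.le)
      rw [← neg_mul]
      exact mul_nonneg (neg_nonneg.2 h1) (Complex.normSq_nonneg _)
    · refine ⟨s0, Finset.mem_univ _, ?_⟩
      have hs := (Finset.mem_filter.1 s0.2).2
      have h1 : R * (Real.cos φ - Real.cos (Real.pi * (s0.1.val + 1) / (k + 1))) < 0 :=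
        mul_neg_of_pos_of_neg hR (sub_neg.2 hs)
      rw [← neg_mul]
      exact mul_pos (neg_pos.2 h1) (Complex.normSq_pos.2 hs0)

end Pool.Agent.Helper46.BMY
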