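import Pool.Agent.Helper46.BMY.CRp
import Pool.Agent.Helper46.BMY.Toep

/-!
# The index of the standard word of the full twist

`d = m + 1` strands, `λ = exp (2 π i a / d)` with `1 ≤ a ≤ m`.
-/

set_option autoImplicit false

open ComplexConjugate Module

namespace Pool.Agent.Helper46.BMY

/-- The root of unity. -/
noncomputable def lm (m a : ℕ) : ℂ := Complex.exp (2 * Real.pi * Complex.I * (a / (m + 1 : ℕ)))

theorem lm_pow (m a : ℕ) : lm m a ^ (m + 1) = 1 := by
  unfold lm
  rw [← Complex.exp_nat_mul, Complex.exp_eq_one_iff]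
  refine ⟨a, ?_⟩
  have h : ((m + 1 : ℕ) : ℂ) ≠ 0 := Nat.cast_ne_zero.2 (Nat.succ_ne_zero m)
  field_simp
  push_cast
  ring

theorem lm_ne {m a : ℕ} (h : 1 ≤ a ∧ a ≤ m) : lm m a ≠ 1 := by
  intro h1
  unfold lm at h1
  rw [Complex.exp_eq_one_iff] at h1
  obtain ⟨n, hn⟩ := h1
  have h2 : ((m + 1 : ℕ) : ℂ) ≠ 0 := Nat.cast_ne_zero.2 (Nat.succ_ne_zero m)
  have h3 : (2 * Real.pi * Complex.I : ℂ) ≠ 0 := Complex.two_pi_I_ne_zero
  have h4 : (a : ℂ) / (m + 1 : ℕ) = n := by
    apply mul_left_cancel₀ h3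
    rw [hn]
    ring
  rw [div_eq_iff h2] at h4
  have h5 : (a : ℤ) = n * (m + 1 : ℕ) := by exact_mod_cast h4
  have h6 : (0 : ℤ) < n * (m + 1 : ℕ) := by
    rw [← h5]
    exact_mod_cast h.1
  have h7 : (0 : ℤ) < n := by
    by_contra hn0
    have : n * (m + 1 : ℕ) ≤ 0 := mul_nonpos_of_nonpos_of_nonneg (not_lt.1 hn0) (by positivity)
    omega
  have h8 : ((m + 1 : ℕ) : ℤ) ≤ n * (m + 1 : ℕ) := by nlinarith
  rw [← h5] at h8
  have h9 : m + 1 ≤ a := by exact_mod_cast h8
  omega

theorem lm_conj (m a : ℕ) : conj (lm m a) * lm m a = 1 := by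
  unfold lm
  rw [← Complex.exp_conj, ← Complex.exp_add]
  have h : conj (2 * Real.pi * Complex.I * (a / (m + 1 : ℕ)) : ℂ) +
      2 * Real.pi * Complex.I * (a / (m + 1 : ℕ)) = 0 := by
    simp only [map_mul, map_div₀, Complex.conj_I, Complex.conj_ofReal, map_natCast, map_ofNat]
    ring
  rw [h, Complex.exp_zero]

/-- The parameter. -/
noncomputable def prm (m a : ℕ) (h : 1 ≤ a ∧ a ≤ m) : Prm where
  l := 1 - lm m a
  h0 := sub_ne_zero.2 (lm_ne h).symm
  h1 := by
    have h2 := lm_conj m a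
    rw [map_sub, map_one]
    linear_combination -h2

/-- The standard word of vectors. -/
noncomputable def stdW (m : ℕ) : List (Fin m → ℂ) :=
  (List.replicate (m + 1) ((List.finRange m).map fun i : Fin m => vb m i.val)).flatten

/-- The negative index. -/
def NI (m a : ℕ) : ℕ := a.choose 2 + (m + 1 - a).choose 2

/-! ### The model -/

section model

variable {V : Type} [AddCommGroup V] [Module ℂ V] {ω : V →ₗ⋆[ℂ] V →ₗ[ℂ] ℂ} [Skh ω]

/-- Pairs of linear maps as a map to the product. -/
private def modelc_cons {A : Type} [AddCommGroup A] [Module ℂ A] (Q R : QO ω)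
    (f : A →ₗ[ℂ] Q.E) (g : A →ₗ[ℂ] R.E) : A →ₗ[ℂ] (Q.mul R).E := f.prod g

private theorem modelc_cons_L {A : Type} [AddCommGroup A] [Module ℂ A] (Q R : QO ω)
    (f : A →ₗ[ℂ] Q.E) (g : A →ₗ[ℂ] R.E) (x y : A) :
    (Q.mul R).L (modelc_cons Q R f g x) (modelc_cons Q R f g y) =
      Q.L (f x) (f y) + R.L (g x) (g y) - ω (Q.p (f x)) (R.p (g y)) := rfl

private theorem modelc_cons_p {A : Type} [AddCommGroup A] [Module ℂ A] (Q R : QO ω)
    (f : A →ₗ[ℂ] Q.E) (g : A →ₗ[ℂ] R.E) (x : A) :
    (Q.mul R).p (modelc_cons Q R f g x) = Q.p (f x) + R.p (g x) := rfl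

private theorem modelc_cons_eq {A : Type} [AddCommGroup A] [Module ℂ A] (Q R : QO ω)
    (f : A →ₗ[ℂ] Q.E) (g : A →ₗ[ℂ] R.E) (x y : A)
    (h : modelc_cons Q R f g x = modelc_cons Q R f g y) : f x = f y ∧ g x = g y :=
  ⟨congrArg Prod.fst h, congrArg Prod.snd h⟩

/-- Coordinates for a word given as a function. -/
theorem modelc_word (c : {c : ℝ // 0 < c}) (n : ℕ) (w : Fin n → V) :
    ∃ f : (Fin n → ℂ) →ₗ[ℂ] (obj (ω := ω) c (List.ofFn w)).E,
      Function.Injective f ∧
      (∀ x y, (obj c (List.ofFn w)).L (f x) (f y) =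
        ∑ i, conj (x i) * y i * lv ω c (w i) -
          ∑ i, ∑ j, if i < j then ω (w i) (w j) * conj (x i) * y j else 0) ∧
      ∀ x, (obj c (List.ofFn w)).p (f x) = ∑ i, x i • w i := by
  induction n with
  | zero =>
    refine ⟨0, fun x y _ => Subsingleton.elim x y, fun x y => ?_, fun x => ?_⟩
    · simp
    · simp
  | succ n ih =>
    obtain ⟨f, h0, h1, h2⟩ := ih fun i => w i.succ
    rw [List.ofFn_succ]
    let g : (Fin (n + 1) → ℂ) →ₗ[ℂ] (ltr (ω := ω) c (w 0)).E := LinearMap.proj (0 : Fin (n + 1))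
    have hg : ∀ x y, (ltr (ω := ω) c (w 0)).L (g x) (g y) =
      conj (x 0) * y 0 * lv ω c (w 0) := fun _ _ => rfl
    have hg2 : ∀ x, (ltr (ω := ω) c (w 0)).p (g x) = x 0 • w 0 := fun _ => rfl
    have hg3 : ∀ x, g x = x 0 := fun _ => rfl
    refine ⟨modelc_cons (ltr c (w 0)) (obj c (List.ofFn fun i => w i.succ)) g
      (f ∘ₗ LinearMap.funLeft ℂ ℂ Fin.succ), fun x y hxy => ?_, fun x y => ?_, fun x => ?_⟩
    · obtain ⟨e1, e2⟩ := modelc_cons_eq _ _ _ _ x y hxy
      have e3 : x 0 = y 0 := e1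
      have e4 : LinearMap.funLeft ℂ ℂ Fin.succ x = LinearMap.funLeft ℂ ℂ Fin.succ y := h0 e2
      funext i
      refine Fin.cases e3 (fun j => ?_) i
      exact congrFun e4 j
    · refine (modelc_cons_L _ _ _ _ x y).trans ?_
      rw [hg, hg2, LinearMap.comp_apply, LinearMap.comp_apply, h1, h2,
        Fin.sum_univ_succ (fun i => conj (x i) * y i * lv ω c (w i)),
        Fin.sum_univ_succ (fun i => ∑ j, _)]
      simp only [Fin.sum_univ_succ (f := fun j => if _ < j then _ else (0 : ℂ)), lt_irrefl,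
        Fin.succ_lt_succ_iff, Fin.succ_pos, Fin.not_lt_zero, if_true, if_false, zero_add,
        map_sum, LinearMap.map_smulₛₗ, map_smul, LinearMap.smul_apply, smul_eq_mul,
        LinearMap.funLeft_apply]
      have e2 : ∑ j : Fin n, y j.succ * (conj (x 0) * ω (w 0) (w j.succ)) =
          ∑ j : Fin n, ω (w 0) (w j.succ) * conj (x 0) * y j.succ :=
        Finset.sum_congr rfl fun j _ => by ring
      rw [e2]
      ring
    · refine (modelc_cons_p _ _ _ _ x).trans ?_
      rw [hg2, LinearMap.comp_apply, h2, Fin.sum_univ_succ]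
      rfl

/-- Coordinates for a power of an object. -/
theorem modelc_pow (Q : QO ω) (n : ℕ) :
    ∃ f : (Fin n → Q.E) →ₗ[ℂ] (Q.pow n).E,
      Function.Injective f ∧
      (∀ x y, (Q.pow n).L (f x) (f y) =
        ∑ i, Q.L (x i) (y i) - ∑ i, ∑ j, if i < j then ω (Q.p (x i)) (Q.p (y j)) else 0) ∧
      ∀ x, (Q.pow n).p (f x) = ∑ i, Q.p (x i) := by
  induction n with
  | zero =>
    refine ⟨0, fun x y _ => Subsingleton.elim x y, fun x y => ?_, fun x => ?_⟩
    · simp
    · simp
  | succ n ih =>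
    obtain ⟨f, h0, h1, h2⟩ := ih
    refine ⟨modelc_cons Q (Q.pow n) (LinearMap.proj (0 : Fin (n + 1)))
      (f ∘ₗ LinearMap.funLeft ℂ Q.E Fin.succ), fun x y hxy => ?_, fun x y => ?_, fun x => ?_⟩
    · obtain ⟨e1, e2⟩ := modelc_cons_eq _ _ _ _ x y hxy
      have e3 : x 0 = y 0 := e1
      have e4 : LinearMap.funLeft ℂ Q.E Fin.succ x = LinearMap.funLeft ℂ Q.E Fin.succ y := h0 e2
      funext i
      refine Fin.cases e3 (fun j => ?_) i
      exact congrFun e4 j
    · refine (modelc_cons_L _ _ _ _ x y).trans ?_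
      rw [LinearMap.comp_apply, LinearMap.comp_apply, h1, h2,
        Fin.sum_univ_succ (fun i => Q.L (x i) (y i)), Fin.sum_univ_succ (fun i => ∑ j, _)]
      simp only [Fin.sum_univ_succ (f := fun j => if _ < j then _ else (0 : ℂ)), lt_irrefl,
        Fin.succ_lt_succ_iff, Fin.succ_pos, Fin.not_lt_zero, if_true, if_false, zero_add, map_sum,
        LinearMap.funLeft_apply, LinearMap.proj_apply]
      ring
    · refine (modelc_cons_p _ _ _ _ x).trans ?_
      rw [LinearMap.comp_apply, h2, Fin.sum_univ_succ]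
      rfl

/-- A power of a word. -/
theorem objc_replicate (c : {c : ℝ // 0 < c}) (w : List V) (n : ℕ) :
    Iso (obj (ω := ω) c (List.replicate n w).flatten) ((obj c w).pow n) := by
  induction n with
  | zero => exact Iso.refl _
  | succ n ih =>
    rw [List.replicate_succ, List.flatten_cons]
    exact (obj_append c w _).trans (Iso.mul (Iso.refl _) ih)

private theorem finrank_std_word (c : {c : ℝ // 0 < c}) (w : List V) :
    finrank ℂ (obj (ω := ω) c w).E = w.length := by
  induction w with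
  | nil =>
    change finrank ℂ PUnit = 0
    exact finrank_zero_of_subsingleton
  | cons v w ih =>
    have h := finrank_mul (ltr (ω := ω) c v) (obj c w)
    have h1 : finrank ℂ (ltr (ω := ω) c v).E = 1 := Module.finrank_self ℂ
    rw [h1, ih] at h
    rw [List.length_cons, add_comm]
    exact h

end model

theorem finrank_std {m a : ℕ} (h : 1 ≤ a ∧ a ≤ m) :
    finrank ℂ (obj (ω := om (prm m a h) m) (prm m a h).c (stdW m)).E = (m + 1) * m := by
  rw [finrank_std_word]
  simp [stdW]

private theorem modelc_std_sum (m : ℕ) (a : Fin m → ℂ) :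
    ∑ i : Fin m, a i • vb m i.val = a := by
  funext k
  rw [Finset.sum_apply, Finset.sum_eq_single k]
  · simp [vb]
  · intro i _ hik
    have : ¬ k.val = i.val := fun h => hik (Fin.ext h.symm)
    simp [vb, this]
  · intro h
    exact absurd (Finset.mem_univ k) h

/-- The sign `1` for `j ≤ j'`, `-1` for `j > j'`. -/
noncomputable def epc {n : ℕ} (j j' : Fin n) : ℂ := if j ≤ j' then 1 else -1

private theorem om_tS {p : Prm} {m : ℕ} (x y : Fin m → ℂ) :
    om p m x y = conj (p.l * tS y x) - p.l * tS x y := by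
  have h1 : conj (tS y x) = ∑ i : Fin m, ∑ j : Fin m,
      conj (x i) * (if i.val = j.val then 1 else if j.val + 1 = i.val then -1 else 0) * y j := by
    unfold tS
    simp only [map_sum]
    rw [Finset.sum_comm]
    refine Finset.sum_congr rfl fun i _ => Finset.sum_congr rfl fun j _ => ?_
    rw [map_mul, map_mul, Complex.conj_conj]
    by_cases h : i.val = j.val
    · rw [if_pos h, if_pos h.symm, map_one]
      ring
    · rw [if_neg h, if_neg (Ne.symm h)]
      split_ifs
      · rw [map_neg, map_one]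
        ring
      · rw [map_zero]
        ring
  rw [map_mul, h1, om_apply]
  unfold tS
  simp only [Finset.mul_sum, ← Finset.sum_sub_distrib]
  refine Finset.sum_congr rfl fun i _ => Finset.sum_congr rfl fun j _ => ?_
  unfold J
  by_cases h : i.val = j.val
  · rw [if_pos h, if_pos h, if_pos h]
    ring
  · rw [if_neg h, if_neg h, if_neg h]
    by_cases h2 : i.val + 1 = j.val
    · rw [if_pos h2, if_pos h2, if_neg (by omega)]
      ring
    · rw [if_neg h2, if_neg h2]
      split_ifs
      · ring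
      · ring

/-- The quadratic form of the standard word. -/
theorem modelc_std (p : Prm) (m : ℕ) :
    ∃ f : (Fin (m + 1) → Fin m → ℂ) →ₗ[ℂ] (obj (ω := om p m) p.c (stdW m)).E,
      Function.Injective f ∧
      ∀ x, ((obj (ω := om p m) p.c (stdW m)).L (f x) (f x)).re =
        (∑ j, ∑ j', epc j j' * (p.l * tS (x j) (x j'))).re := by
  obtain ⟨f1, h1i, h1L, h1p⟩ := modelc_word (ω := om p m) p.c m (fun i : Fin m => vb m i.val)
  obtain ⟨f2, h2i, h2L, -⟩ := modelc_pow
    (obj (ω := om p m) p.c (List.ofFn fun i : Fin m => vb m i.val)) (m + 1)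
  obtain ⟨e, he, -, -⟩ := (objc_replicate (ω := om p m) p.c
    (List.ofFn fun i : Fin m => vb m i.val) (m + 1)).symm
  have hstd : stdW m = (List.replicate (m + 1) (List.ofFn fun i : Fin m => vb m i.val)).flatten := by
    unfold stdW
    rw [List.ofFn_eq_map]
  rw [hstd]
  refine ⟨e.toLinearMap ∘ₗ f2 ∘ₗ (f1.compLeft (Fin (m + 1))), ?_, fun x => ?_⟩
  · intro x y hxy
    have e1 : e (f2 (fun j => f1 (x j))) = e (f2 (fun j => f1 (y j))) := hxy
    have e2 := h2i (e.injective e1)
    funext j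
    exact h1i (congrFun e2 j)
  have h0 : (e.toLinearMap ∘ₗ f2 ∘ₗ (f1.compLeft (Fin (m + 1)))) x =
      e (f2 (fun j => f1 (x j))) := rfl
  rw [h0, he, h2L]
  simp only [h1L, h1p, modelc_std_sum]
  obtain ⟨G, hG⟩ : ∃ G : Fin (m + 1) → Fin (m + 1) → ℂ,
    ∀ j j', G j j' = p.l * tS (x j) (x j') := ⟨_, fun _ _ => rfl⟩
  have hA : ∀ j, (∑ i : Fin m, conj (x j i) * x j i * lv (om p m) p.c (vb m i.val) -
      ∑ i : Fin m, ∑ i' : Fin m,
      if i < i' then om p m (vb m i.val) (vb m i'.val) * conj (x j i) * x j i' else 0) =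
      G j j := by
    intro j
    rw [hG]
    unfold tS
    rw [Finset.mul_sum, ← Finset.sum_sub_distrib]
    refine Finset.sum_congr rfl fun i _ => ?_
    have e1 : conj (x j i) * x j i * lv (om p m) p.c (vb m i.val) =
        ∑ i' : Fin m, if i' = i then p.l * conj (x j i) * x j i' else 0 := by
      rw [Finset.sum_ite_eq' Finset.univ i, if_pos (Finset.mem_univ i), (isV_vb i.2).lv]
      ring
    rw [e1, ← Finset.sum_sub_distrib, Finset.mul_sum]
    refine Finset.sum_congr rfl fun i' _ => ?_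
    rw [om_vb i.2 i'.2]
    unfold J
    by_cases h : i = i'
    · subst h
      rw [if_pos rfl, if_neg (lt_irrefl _), if_pos rfl]
      ring
    · have h' : ¬ i.val = i'.val := fun e => h (Fin.ext e)
      rw [if_neg (Ne.symm h), if_neg h', if_neg h']
      by_cases h2 : i.val + 1 = i'.val
      · have h3 : i < i' := Fin.lt_def.2 (by omega)
        rw [if_pos h3, if_pos h2, if_pos h2]
        ring
      · rw [if_neg h2, if_neg h2]
        by_cases h3 : i < i'
        · have h4 : ¬ i'.val + 1 = i.val := by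
            have := Fin.lt_def.1 h3
            omega
          rw [if_pos h3, if_neg h4]
          ring
        · rw [if_neg h3]
          ring
  have hB : ∀ j j' : Fin (m + 1), om p m (x j) (x j') = conj (G j' j) - G j j' := by
    intro j j'
    rw [om_tS, hG, hG]
  have hC : ∀ j j' : Fin (m + 1), epc j j' * (p.l * tS (x j) (x j')) = epc j j' * G j j' := by
    intro j j'
    rw [hG]
  simp only [hA, hB, hC]
  rw [Complex.sub_re, Complex.re_sum, Complex.re_sum, Complex.re_sum]
  simp only [Complex.re_sum]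
  have h1 : ∀ j j' : Fin (m + 1), (epc j j' * G j j').re = (if j = j' then (G j j').re else 0) +
      ((if j < j' then (G j j').re else 0) - (if j' < j then (G j j').re else 0)) := by
    intro j j'
    unfold epc
    rcases lt_trichotomy j j' with h | h | h
    · rw [if_pos h.le, if_neg h.ne, if_pos h, if_neg (lt_asymm h), one_mul]
      ring
    · subst h
      rw [if_pos le_rfl, if_pos rfl, if_neg (lt_irrefl _), one_mul]
      ring
    · rw [if_neg (not_le.2 h), if_neg h.ne', if_neg (lt_asymm h), if_pos h, neg_mul, one_mul,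
        Complex.neg_re]
      ring
  have h2 : ∑ j, ∑ j', (if j' < j then (G j j').re else 0) =
      ∑ j, ∑ j', if j < j' then (G j' j).re else 0 := Finset.sum_comm
  simp only [h1, Finset.sum_add_distrib, Finset.sum_sub_distrib]
  rw [h2]
  have h3 : ∀ j : Fin (m + 1), ∑ j', (if j = j' then (G j j').re else 0) = (G j j).re := by
    intro j
    rw [Finset.sum_ite_eq]
    simp
  simp only [h3]
  have h4 : ∑ j : Fin (m + 1), ∑ j' : Fin (m + 1),
      (if j < j' then conj (G j' j) - G j j' else 0).re =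
      ∑ j, ∑ j', (if j < j' then (G j' j).re else 0) -
        ∑ j, ∑ j', (if j < j' then (G j j').re else 0) := by
    rw [← Finset.sum_sub_distrib]
    refine Finset.sum_congr rfl fun j _ => ?_
    rw [← Finset.sum_sub_distrib]
    refine Finset.sum_congr rfl fun j' _ => ?_
    split_ifs
    · rw [Complex.sub_re, Complex.conj_re]
    · simp
  rw [h4]
  ring

/-! ### The Fourier transform -/

/-- The root of unity `exp (π i (2 b + 1) / (m + 1))`. -/
noncomputable def ze (m b : ℕ) : ℂ :=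
  Complex.exp ((Real.pi * (2 * b + 1) / (m + 1) : ℝ) * Complex.I)

theorem ze_pow (m b : ℕ) : ze m b ^ (m + 1) = -1 := by
  unfold ze
  rw [← Complex.exp_nat_mul]
  have hm : (m : ℂ) + 1 ≠ 0 := by exact_mod_cast Nat.succ_ne_zero m
  have h : ((m + 1 : ℕ) : ℂ) * ((Real.pi * (2 * b + 1) / (m + 1) : ℝ) * Complex.I) =
      Real.pi * Complex.I + (b : ℤ) * (2 * Real.pi * Complex.I) := by
    push_cast
    field_simp
    ring
  rw [h, Complex.exp_add, Complex.exp_int_mul_two_pi_mul_I, mul_one, Complex.exp_pi_mul_I]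

theorem ze_conj (m b : ℕ) : conj (ze m b) * ze m b = 1 := by
  unfold ze
  rw [← Complex.exp_conj, ← Complex.exp_add]
  have h : conj ((Real.pi * (2 * b + 1) / (m + 1) : ℝ) * Complex.I : ℂ) +
      (Real.pi * (2 * b + 1) / (m + 1) : ℝ) * Complex.I = 0 := by
    rw [map_mul, Complex.conj_ofReal, Complex.conj_I]
    ring
  rw [h, Complex.exp_zero]

theorem ze_ne (m b : ℕ) : ze m b ≠ 1 := by
  intro h
  have h1 := ze_pow m b
  rw [h, one_pow] at h1
  norm_num at h1

/-- The angle `π (2 b + 1) / (m + 1)` in `(0, 2 π)`. -/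
private theorem ze_orth_ne {m b b' : ℕ} (hb : b < m + 1) (hb' : b' < m + 1) (h : b ≠ b') :
    conj (ze m b) * ze m b' ≠ 1 := by
  intro h1
  unfold ze at h1
  rw [← Complex.exp_conj, ← Complex.exp_add, Complex.exp_eq_one_iff] at h1
  obtain ⟨n, hn⟩ := h1
  have hm : (m : ℂ) + 1 ≠ 0 := by exact_mod_cast Nat.succ_ne_zero m
  have hpi : (2 * Real.pi * Complex.I : ℂ) ≠ 0 := Complex.two_pi_I_ne_zero
  rw [map_mul, Complex.conj_ofReal, Complex.conj_I] at hn
  have h2 : ((b' : ℂ) - b) / (m + 1) = n := by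
    apply mul_left_cancel₀ hpi
    rw [mul_comm _ (n : ℂ), ← hn]
    push_cast
    field_simp
    ring
  rw [div_eq_iff hm] at h2
  have h3 : (b' : ℤ) - b = n * (m + 1) := by exact_mod_cast h2
  have h4 : n = 0 := by
    by_contra hn0
    rcases lt_or_gt_of_ne hn0 with h5 | h5
    · have : n * ((m : ℤ) + 1) ≤ -1 * ((m : ℤ) + 1) :=
        mul_le_mul_of_nonneg_right (by omega) (by positivity)
      omega
    · have : 1 * ((m : ℤ) + 1) ≤ n * ((m : ℤ) + 1) :=
        mul_le_mul_of_nonneg_right (by omega) (by positivity)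
      omega
  rw [h4, zero_mul] at h3
  omega

theorem ze_orth {m : ℕ} (b b' : Fin (m + 1)) :
    ∑ j : Fin (m + 1), conj (ze m b ^ j.val) * ze m b' ^ j.val =
      if b = b' then ((m : ℂ) + 1) else 0 := by
  have h1 : ∀ j : ℕ, conj (ze m b ^ j) * ze m b' ^ j = (conj (ze m b) * ze m b') ^ j := by
    intro j
    rw [map_pow, mul_pow]
  rw [Finset.sum_congr rfl fun j _ => h1 j.val]
  by_cases h : b = b'
  · subst h
    rw [if_pos rfl, ze_conj]
    simp
  · rw [if_neg h]
    have h2 := ze_orth_ne b.isLt b'.isLt (fun e => h (Fin.ext e))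
    rw [Fin.sum_univ_eq_sum_range (fun j => (conj (ze m b) * ze m b') ^ j) (m + 1),
      geom_sum_eq h2, mul_pow, ← map_pow, ze_pow, ze_pow]
    simp

private theorem ep_sum (g : ℕ → ℂ) (j n : ℕ) :
    ∑ k ∈ Finset.range n, (if j ≤ k then (1 : ℂ) else -1) * (g k - g (k + 1)) =
      if n ≤ j then g n - g 0 else 2 * g j - g 0 - g n := by
  induction n with
  | zero => simp
  | succ n ih =>
    rw [Finset.sum_range_succ, ih]
    rcases lt_trichotomy n j with h | h | h
    · rw [if_pos h.le, if_neg (not_le.2 h), if_pos (Nat.succ_le_of_lt h)]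
      ring
    · subst h
      rw [if_pos le_rfl, if_pos le_rfl, if_neg (by omega)]
      ring
    · rw [if_neg (not_le.2 h), if_pos h.le, if_neg (by omega)]
      ring

/-- The sum of the signs. -/
theorem epc_sum {m : ℕ} (b : ℕ) (j : Fin (m + 1)) :
    ∑ j' : Fin (m + 1), epc j j' * ze m b ^ j'.val = ze m b ^ j.val * (2 / (1 - ze m b)) := by
  have h0 : 1 - ze m b ≠ 0 := sub_ne_zero.2 (ze_ne m b).symm
  have h1 := ep_sum (fun k => ze m b ^ k) j.val (m + 1)
  rw [if_neg (not_le.2 j.isLt)] at h1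
  have h2 : ∑ k ∈ Finset.range (m + 1), (if j.val ≤ k then (1 : ℂ) else -1) *
      (ze m b ^ k - ze m b ^ (k + 1)) =
      (1 - ze m b) * ∑ j' : Fin (m + 1), epc j j' * ze m b ^ j'.val := by
    have h3 : ∑ j' : Fin (m + 1), epc j j' * ze m b ^ j'.val =
        ∑ k ∈ Finset.range (m + 1), (if j.val ≤ k then (1 : ℂ) else -1) * ze m b ^ k := by
      rw [← Fin.sum_univ_eq_sum_range
        (fun k => (if j.val ≤ k then (1 : ℂ) else -1) * ze m b ^ k) (m + 1)]
      rfl
    rw [h3, Finset.mul_sum]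
    refine Finset.sum_congr rfl fun k _ => ?_
    rw [pow_succ]
    ring
  rw [h2, ze_pow, pow_zero] at h1
  have h4 : (1 - ze m b) * ∑ j' : Fin (m + 1), epc j j' * ze m b ^ j'.val =
      2 * ze m b ^ j.val := by
    rw [h1]
    ring
  rw [mul_div_assoc', eq_div_iff h0]
  linear_combination h4

/-- The transform. -/
noncomputable def dft (m : ℕ) :
    (Fin (m + 1) → Fin m → ℂ) →ₗ[ℂ] (Fin (m + 1) → Fin m → ℂ) where
  toFun z := fun j => ∑ b : Fin (m + 1), ze m b ^ j.val • z b
  map_add' z z' := by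
    funext j
    rw [Pi.add_apply, ← Finset.sum_add_distrib]
    refine Finset.sum_congr rfl fun b _ => ?_
    rw [Pi.add_apply, smul_add]
  map_smul' c z := by
    funext j
    rw [Pi.smul_apply, RingHom.id_apply, Finset.smul_sum]
    refine Finset.sum_congr rfl fun b _ => ?_
    rw [Pi.smul_apply, smul_comm]

theorem dft_apply (m : ℕ) (z : Fin (m + 1) → Fin m → ℂ) (j : Fin (m + 1)) :
    dft m z j = ∑ b : Fin (m + 1), ze m b ^ j.val • z b := rfl

theorem dft_inj (m : ℕ) : Function.Injective (dft m) := by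
  rw [injective_iff_map_eq_zero]
  intro z hz
  have hm : (m : ℂ) + 1 ≠ 0 := by exact_mod_cast Nat.succ_ne_zero m
  funext b
  have h1 : ∑ j : Fin (m + 1), conj (ze m b ^ j.val) • dft m z j = ((m : ℂ) + 1) • z b := by
    simp only [dft_apply, Finset.smul_sum, smul_smul]
    rw [Finset.sum_comm]
    simp only [← Finset.sum_smul, ze_orth]
    rw [Finset.sum_eq_single b]
    · rw [if_pos rfl]
    · intro b' _ hb'
      rw [if_neg (Ne.symm hb'), zero_smul]
    · intro h
      exact absurd (Finset.mem_univ b) h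
  rw [hz] at h1
  have h2 : ((m : ℂ) + 1) • z b = 0 := by
    rw [← h1]
    simp
  rcases smul_eq_zero.1 h2 with h3 | h3
  · exact absurd h3 hm
  · exact h3

private theorem tS_smul {k : ℕ} (c d : ℂ) (x y : Fin k → ℂ) :
    tS (c • x) (d • y) = conj c * d * tS x y := by
  unfold tS
  rw [Finset.mul_sum]
  refine Finset.sum_congr rfl fun i _ => ?_
  rw [Finset.mul_sum]
  refine Finset.sum_congr rfl fun j _ => ?_
  rw [Pi.smul_apply, Pi.smul_apply, smul_eq_mul, smul_eq_mul, map_mul]
  ring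

private theorem tS_sum_left {k n : ℕ} (x : Fin n → Fin k → ℂ) (y : Fin k → ℂ) :
    tS (∑ b, x b) y = ∑ b, tS (x b) y := by
  unfold tS
  simp only [Finset.sum_apply, map_sum, Finset.sum_mul]
  have h : ∀ i : Fin k, ∑ j : Fin k, ∑ b : Fin n, conj (x b i) *
      (if i.val = j.val then 1 else if i.val + 1 = j.val then -1 else 0) * y j =
      ∑ b : Fin n, ∑ j : Fin k, conj (x b i) *
      (if i.val = j.val then 1 else if i.val + 1 = j.val then -1 else 0) * y j :=
    fun i => Finset.sum_comm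
  rw [Finset.sum_congr rfl fun i _ => h i, Finset.sum_comm]

private theorem tS_sum_right {k n : ℕ} (x : Fin k → ℂ) (y : Fin n → Fin k → ℂ) :
    tS x (∑ b, y b) = ∑ b, tS x (y b) := by
  unfold tS
  simp only [Finset.sum_apply, Finset.mul_sum]
  have h : ∀ i : Fin k, ∑ j : Fin k, ∑ b : Fin n, conj (x i) *
      (if i.val = j.val then 1 else if i.val + 1 = j.val then -1 else 0) * y b j =
      ∑ b : Fin n, ∑ j : Fin k, conj (x i) *
      (if i.val = j.val then 1 else if i.val + 1 = j.val then -1 else 0) * y b j :=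
    fun i => Finset.sum_comm
  rw [Finset.sum_congr rfl fun i _ => h i, Finset.sum_comm]

/-- The form in the new coordinates. -/
theorem dft_form (m : ℕ) (l : ℂ) (z : Fin (m + 1) → Fin m → ℂ) :
    ∑ j, ∑ j', epc j j' * (l * tS (dft m z j) (dft m z j')) =
      ((m : ℂ) + 1) * ∑ b : Fin (m + 1), 2 / (1 - ze m b) * l * tS (z b) (z b) := by
  have h1 : ∀ j j' : Fin (m + 1), tS (dft m z j) (dft m z j') =
      ∑ b : Fin (m + 1), ∑ b' : Fin (m + 1),
        conj (ze m b ^ j.val) * ze m b' ^ j'.val * tS (z b) (z b') := by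
    intro j j'
    rw [dft_apply, dft_apply, tS_sum_left]
    refine Finset.sum_congr rfl fun b _ => ?_
    rw [tS_sum_right]
    refine Finset.sum_congr rfl fun b' _ => ?_
    rw [tS_smul]
  have h2 : ∀ j : Fin (m + 1), ∑ j', epc j j' * (l * tS (dft m z j) (dft m z j')) =
      ∑ b : Fin (m + 1), ∑ b' : Fin (m + 1), conj (ze m b ^ j.val) * ze m b' ^ j.val *
        (2 / (1 - ze m b') * l * tS (z b) (z b')) := by
    intro j
    have h3 : ∀ j' : Fin (m + 1), epc j j' * (l * tS (dft m z j) (dft m z j')) =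
        ∑ b : Fin (m + 1), ∑ b' : Fin (m + 1), (epc j j' * ze m b' ^ j'.val) *
          (conj (ze m b ^ j.val) * l * tS (z b) (z b')) := by
      intro j'
      rw [h1, Finset.mul_sum, Finset.mul_sum]
      refine Finset.sum_congr rfl fun b _ => ?_
      rw [Finset.mul_sum, Finset.mul_sum]
      refine Finset.sum_congr rfl fun b' _ => ?_
      ring
    rw [Finset.sum_congr rfl fun j' _ => h3 j', Finset.sum_comm]
    refine Finset.sum_congr rfl fun b _ => ?_
    rw [Finset.sum_comm]
    refine Finset.sum_congr rfl fun b' _ => ?_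
    rw [← Finset.sum_mul, epc_sum]
    ring
  rw [Finset.sum_congr rfl fun j _ => h2 j, Finset.sum_comm, Finset.mul_sum]
  refine Finset.sum_congr rfl fun b _ => ?_
  rw [Finset.sum_comm]
  simp only [← Finset.sum_mul, ze_orth]
  rw [Finset.sum_eq_single b]
  · rw [if_pos rfl]
  · intro b' _ hb'
    rw [if_neg (Ne.symm hb'), zero_mul]
  · intro h
    exact absurd (Finset.mem_univ b) h

/-! ### The numbers -/

/-- The argument of the number `b`. -/
noncomputable def fi (m a b : ℕ) : ℝ := Real.pi * (a - b - 1 / 2) / (m + 1)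

/-- The absolute value of the number `b`. -/
noncomputable def rr (m a b : ℕ) : ℝ :=
  2 * Real.sin (Real.pi * a / (m + 1)) / Real.sin (Real.pi * (2 * b + 1) / (2 * (m + 1)))

private theorem sin_b_pos {m b : ℕ} (hb : b < m + 1) :
    0 < Real.sin (Real.pi * (2 * b + 1) / (2 * (m + 1))) := by
  have hpi := Real.pi_pos
  have hm : (0 : ℝ) < 2 * ((m : ℝ) + 1) := by positivity
  have hb' : (b : ℝ) + 1 ≤ m + 1 := by exact_mod_cast hb
  refine Real.sin_pos_of_pos_of_lt_pi (by positivity) ?_
  rw [div_lt_iff₀ hm]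
  nlinarith

theorem rr_pos {m a b : ℕ} (h : 1 ≤ a ∧ a ≤ m) (hb : b < m + 1) : 0 < rr m a b := by
  have hpi := Real.pi_pos
  have hm : (0 : ℝ) < (m : ℝ) + 1 := by positivity
  have ha : (0 : ℝ) < a := by exact_mod_cast h.1
  have ha' : (a : ℝ) ≤ m := by exact_mod_cast h.2
  have h1 : 0 < Real.sin (Real.pi * a / (m + 1)) := by
    refine Real.sin_pos_of_pos_of_lt_pi (by positivity) ?_
    rw [div_lt_iff₀ hm]
    nlinarith
  unfold rr
  exact div_pos (mul_pos two_pos h1) (sin_b_pos hb)

private theorem one_sub_exp (t : ℝ) :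
    1 - Complex.exp ((2 * t : ℝ) * Complex.I) =
      -2 * Complex.I * (Real.sin t : ℝ) * Complex.exp (t * Complex.I) := by
  have h1 : Complex.exp ((2 * t : ℝ) * Complex.I) =
      Complex.exp (t * Complex.I) * Complex.exp (t * Complex.I) := by
    rw [← Complex.exp_add]
    congr 1
    push_cast
    ring
  have h2 : Complex.exp (-(t * Complex.I)) * Complex.exp (t * Complex.I) = 1 := by
    rw [← Complex.exp_add, neg_add_cancel, Complex.exp_zero]
  have h3 := Complex.two_sin (t : ℂ)
  rw [h1, Complex.ofReal_sin]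
  rw [neg_mul] at h3
  linear_combination (Complex.I * Complex.exp (t * Complex.I)) * h3 +
    (Complex.exp (-(t * Complex.I)) * Complex.exp (t * Complex.I) -
      Complex.exp (t * Complex.I) * Complex.exp (t * Complex.I)) * Complex.I_mul_I - h2

theorem ka_eq {m a b : ℕ} (hb : b < m + 1) :
    2 / (1 - ze m b) * (1 - lm m a) = rr m a b * Complex.exp (fi m a b * Complex.I) := by
  have h0 : 1 - ze m b ≠ 0 := sub_ne_zero.2 (ze_ne m b).symm
  have hm : (m : ℝ) + 1 ≠ 0 := by positivity
  have hmc : (m : ℂ) + 1 ≠ 0 := by exact_mod_cast Nat.succ_ne_zero m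
  have h1 : lm m a = Complex.exp ((2 * (Real.pi * a / (m + 1)) : ℝ) * Complex.I) := by
    unfold lm
    congr 1
    push_cast
    ring
  have h2 : ze m b = Complex.exp ((2 * (Real.pi * (2 * b + 1) / (2 * (m + 1))) : ℝ) *
      Complex.I) := by
    unfold ze
    congr 2
    push_cast
    field_simp
  have h3 := one_sub_exp (Real.pi * a / (m + 1))
  have h4 := one_sub_exp (Real.pi * (2 * b + 1) / (2 * (m + 1)))
  rw [← h1] at h3
  rw [← h2] at h4
  have h5 : Complex.exp ((Real.pi * a / (m + 1) : ℝ) * Complex.I) =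
      Complex.exp (fi m a b * Complex.I) *
        Complex.exp ((Real.pi * (2 * b + 1) / (2 * (m + 1)) : ℝ) * Complex.I) := by
    rw [← Complex.exp_add]
    congr 1
    unfold fi
    push_cast
    field_simp
    ring
  have h6 : ((Real.sin (Real.pi * (2 * b + 1) / (2 * (m + 1))) : ℝ) : ℂ) ≠ 0 :=
    Complex.ofReal_ne_zero.2 (sin_b_pos hb).ne'
  have h7 : ((rr m a b : ℝ) : ℂ) * (Real.sin (Real.pi * (2 * b + 1) / (2 * (m + 1))) : ℝ) =
      2 * (Real.sin (Real.pi * a / (m + 1)) : ℝ) := by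
    rw [← Complex.ofReal_mul]
    unfold rr
    rw [div_mul_cancel₀ _ (sin_b_pos hb).ne']
    push_cast
    ring
  rw [div_mul_eq_mul_div, div_eq_iff h0, h3, h4, h5]
  linear_combination (Complex.I * 2 * Complex.exp (fi m a b * Complex.I) *
    Complex.exp ((Real.pi * (2 * b + 1) / (2 * (m + 1)) : ℝ) * Complex.I)) * h7

/-- The number of negative directions for `b`. -/
def nb (a b : ℕ) : ℕ := (a - b - 1) + (b - a)

theorem cos_fi_lt {m a b j : ℕ} (h : 1 ≤ a ∧ a ≤ m) (hb : b < m + 1) (hj : j < m) :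
    Real.cos (fi m a b) < Real.cos (Real.pi * (j + 1) / (m + 1)) ↔ j < nb a b := by
  have hpi := Real.pi_pos
  have hm : (0 : ℝ) < (m : ℝ) + 1 := by positivity
  have ha : (1 : ℝ) ≤ a := by exact_mod_cast h.1
  have ha' : (a : ℝ) ≤ m := by exact_mod_cast h.2
  have hb' : (b : ℝ) ≤ m := by exact_mod_cast Nat.lt_succ_iff.1 hb
  have hj' : (j : ℝ) + 1 ≤ m := by exact_mod_cast hj
  have hb0 : (0 : ℝ) ≤ b := Nat.cast_nonneg b
  have hj0 : (0 : ℝ) ≤ j := Nat.cast_nonneg j
  have h1 : Real.cos (fi m a b) = Real.cos |fi m a b| := (Real.cos_abs _).symm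
  have h2 : |fi m a b| = Real.pi * |(a : ℝ) - b - 1 / 2| / (m + 1) := by
    unfold fi
    rw [abs_div, abs_mul, abs_of_pos hpi, abs_of_pos hm]
  have h3 : |(a : ℝ) - b - 1 / 2| ≤ m + 1 := by
    rw [abs_le]
    constructor <;> linarith
  have h4 : |fi m a b| ≤ Real.pi := by
    rw [h2, div_le_iff₀ hm]
    exact mul_le_mul_of_nonneg_left h3 hpi.le
  have h5 : Real.pi * ((j : ℝ) + 1) / (m + 1) ≤ Real.pi := by
    rw [div_le_iff₀ hm]
    exact mul_le_mul_of_nonneg_left (by linarith) hpi.le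
  have h6 : 0 ≤ Real.pi * ((j : ℝ) + 1) / (m + 1) := by positivity
  have h7 : Real.cos (fi m a b) < Real.cos (Real.pi * (j + 1) / (m + 1)) ↔
      Real.pi * ((j : ℝ) + 1) / (m + 1) < |fi m a b| := by
    rw [h1]
    constructor
    · intro hlt
      by_contra hn
      exact absurd (Real.cos_le_cos_of_nonneg_of_le_pi (abs_nonneg _) h5 (not_lt.1 hn))
        (not_le.2 hlt)
    · intro hlt
      exact Real.cos_lt_cos_of_nonneg_of_le_pi h6 h4 hlt
  rw [h7, h2, div_lt_div_iff_of_pos_right hm, mul_lt_mul_iff_right₀ hpi, lt_abs]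
  unfold nb
  constructor
  · rintro (h8 | h8)
    · have h9 : ((2 * j + 2 * b + 3 : ℕ) : ℝ) < ((2 * a : ℕ) : ℝ) := by
        push_cast
        linarith
      have h10 := Nat.cast_lt.1 h9
      omega
    · have h9 : ((2 * j + 2 * a + 1 : ℕ) : ℝ) < ((2 * b : ℕ) : ℝ) := by
        push_cast
        linarith
      have h10 := Nat.cast_lt.1 h9
      omega
  · intro h8
    by_cases h9 : b < a
    · left
      have h10 : j + b + 2 ≤ a := by omega
      have h11 : (j : ℝ) + b + 2 ≤ a := by exact_mod_cast h10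
      linarith
    · right
      have h10 : j + a + 1 ≤ b := by omega
      have h11 : (j : ℝ) + a + 1 ≤ b := by exact_mod_cast h10
      linarith

theorem card_neg {m a b : ℕ} (h : 1 ≤ a ∧ a ≤ m) (hb : b < m + 1) :
    (Finset.univ.filter fun j : Fin m =>
      Real.cos (fi m a b) < Real.cos (Real.pi * (j.val + 1) / (m + 1))).card = nb a b := by
  have h1 : (Finset.univ.filter fun j : Fin m =>
      Real.cos (fi m a b) < Real.cos (Real.pi * (j.val + 1) / (m + 1))) =
      Finset.univ.filter fun j : Fin m => j.val < nb a b :=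
    Finset.filter_congr fun j _ => cos_fi_lt h hb j.isLt
  have h2 : nb a b ≤ m := by
    unfold nb
    omega
  have h3 := Fin.sum_univ_eq_sum_range (fun j => if j < nb a b then 1 else 0) m
  rw [h1, Finset.card_filter, h3, ← Finset.card_filter]
  have h4 : (Finset.range m).filter (fun j => j < nb a b) = Finset.range (nb a b) := by
    ext j
    simp only [Finset.mem_filter, Finset.mem_range]
    omega
  rw [h4, Finset.card_range]

theorem card_psd {m a b : ℕ} (h : 1 ≤ a ∧ a ≤ m) (hb : b < m + 1) :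
    (Finset.univ.filter fun j : Fin m =>
      Real.cos (Real.pi * (j.val + 1) / (m + 1)) ≤ Real.cos (fi m a b)).card = m - nb a b := by
  have h1 := Finset.card_filter_add_card_filter_not (s := (Finset.univ : Finset (Fin m)))
    (fun j : Fin m => Real.cos (fi m a b) < Real.cos (Real.pi * (j.val + 1) / (m + 1)))
  rw [card_neg h hb, Finset.card_univ, Fintype.card_fin] at h1
  simp only [not_lt] at h1
  omega

private theorem sum_pred (n : ℕ) : ∑ b ∈ Finset.range n, (n - 1 - b) = n.choose 2 := by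
  rw [Finset.sum_range_reflect (fun b => b) n, Finset.sum_range_id, Nat.choose_two_right]

private theorem sum_id' (n : ℕ) : ∑ b ∈ Finset.range n, b = n.choose 2 := by
  rw [Finset.sum_range_id, Nat.choose_two_right]

theorem sum_nb {m a : ℕ} (h : 1 ≤ a ∧ a ≤ m) : ∑ b : Fin (m + 1), nb a b.val = NI m a := by
  rw [Fin.sum_univ_eq_sum_range (fun b => nb a b) (m + 1)]
  have h1 : m + 1 = a + (m + 1 - a) := by omega
  conv_lhs => rw [h1]
  rw [Finset.sum_range_add]
  unfold NI
  rw [← sum_pred a, ← sum_id' (m + 1 - a)]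
  congr 1
  · refine Finset.sum_congr rfl fun b hb => ?_
    have := Finset.mem_range.1 hb
    unfold nb
    omega
  · refine Finset.sum_congr rfl fun b _ => ?_
    unfold nb
    omega

theorem NI_le {m a : ℕ} (h : 1 ≤ a ∧ a ≤ m) : NI m a ≤ (m + 1) * m := by
  rw [← sum_nb h]
  have h1 : ∀ b ∈ (Finset.univ : Finset (Fin (m + 1))), nb a b.val ≤ m := by
    intro b _
    have := b.isLt
    unfold nb
    omega
  have h2 := Finset.sum_le_card_nsmul _ _ _ h1
  rw [Finset.card_univ, Fintype.card_fin, smul_eq_mul] at h2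
  exact h2

/-- The dimension of a product of subspaces. -/
private theorem finrank_pi_sub {n k : ℕ} (W : Fin n → Submodule ℂ (Fin k → ℂ)) :
    finrank ℂ (Submodule.pi Set.univ W) = ∑ b, finrank ℂ (W b) := by
  rw [← Module.finrank_pi_fintype ℂ]
  exact LinearEquiv.finrank_eq
    { toFun := fun z => fun b => ⟨z.1 b, z.2 b (Set.mem_univ b)⟩
      invFun := fun z => ⟨fun b => (z b).1, fun b _ => (z b).2⟩
      map_add' := fun _ _ => rfl
      map_smul' := fun _ _ => rfl
      left_inv := fun _ => rfl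
      right_inv := fun _ => rfl }

/-- The value of the form in the new coordinates. -/
theorem std_val {m a : ℕ} (h : 1 ≤ a ∧ a ≤ m) :
    ∃ f : (Fin (m + 1) → Fin m → ℂ) →ₗ[ℂ]
      (obj (ω := om (prm m a h) m) (prm m a h).c (stdW m)).E,
      Function.Injective f ∧
      ∀ z, ((obj (ω := om (prm m a h) m) (prm m a h).c (stdW m)).L (f z) (f z)).re =
        ((m : ℝ) + 1) * ∑ b : Fin (m + 1),
          (rr m a b * Complex.exp (fi m a b * Complex.I) * tS (z b) (z b)).re := by
  obtain ⟨f, hi, hf⟩ := modelc_std (prm m a h) m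
  refine ⟨f ∘ₗ dft m, hi.comp (dft_inj m), fun z => ?_⟩
  rw [LinearMap.comp_apply, hf, dft_form]
  have h1 : ((m : ℂ) + 1) = (((m : ℝ) + 1 : ℝ) : ℂ) := by push_cast; rfl
  rw [h1, Complex.re_ofReal_mul, Complex.re_sum]
  congr 1
  refine Finset.sum_congr rfl fun b _ => ?_
  have h2 : (prm m a h).l = 1 - lm m a := rfl
  rw [h2, ka_eq b.isLt]

/-- PROOF (both). As in `Helper81/SBA/Std.lean`: coordinates `x : Fin (m + 1) → Fin m → ℂ`
(`model_word`, `model_pow`, `model_std` there; the numbers `lv` of all letters are `l = 1 - λ`,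
`(isV_vb _).lv`); one block has the form `S (x, y) = l tS x y` (`om_vb`, `J`) and
`ω (x, y) = conj S (y, x) - S (x, y)`. So `Re L (x, x) = Re ∑_{j, j'} eps (j, j') S (x_j, x_j')`.
Put `x_j = ∑_b ζ_b ^ j z_b`, `ζ_b = exp (π i (2 b + 1) / (m + 1))`, `b < m + 1` (injective: discrete
Fourier transform). `∑_j' eps (j, j') ζ ^ j' = ζ ^ j κ`, `κ_b = ∑_{s < m + 1} ζ_b ^ s =
2 / (1 - ζ_b)` because `ζ ^ (m + 1) = -1`; so `Re L (x, x) = (m + 1) ∑_b Re (κ_b l tS z_b z_b)`.
`κ_b l = R exp (i φ)` with `R = 2 sin (π a / (m+1)) / sin (π (2 b + 1) / (2 (m+1))) > 0` and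
`φ = π (a - b - 1/2) / (m + 1) ∈ (-π, π)`; `cos φ < cos (π (j + 1) / (m + 1))` iff
`j + 1 < |a - b - 1/2|`. The number of these `(b, j)` is `∑_{b < a} (a - b - 1) +
∑_{a ≤ b ≤ m} (b - a) = choose a 2 + choose (m + 1 - a) 2`. `toep_psd`, `toep_neg` for each `b`. -/
theorem std_psd {m a : ℕ} (h : 1 ≤ a ∧ a ≤ m) :
    (obj (ω := om (prm m a h) m) (prm m a h).c (stdW m)).Psd ((m + 1) * m - NI m a) := by
  obtain ⟨f, hi, hf⟩ := std_val h
  choose W h1 h2 using fun b : Fin (m + 1) => toep_psd m (rr m a b) (fi m a b) (rr_pos h b.isLt)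
  refine ⟨(Submodule.pi Set.univ W).map f, ?_, ?_⟩
  · rw [← (Submodule.equivMapOfInjective f hi _).finrank_eq, finrank_pi_sub]
    have h3 : ∀ b : Fin (m + 1), m - nb a b.val ≤ finrank ℂ (W b) := by
      intro b
      rw [← card_psd h b.isLt]
      exact h1 b
    refine le_trans ?_ (Finset.sum_le_sum fun b _ => h3 b)
    have h4 : ∑ b : Fin (m + 1), (m - nb a b.val) + ∑ b : Fin (m + 1), nb a b.val =
        (m + 1) * m := by
      rw [← Finset.sum_add_distrib]
      have h5 : ∀ b : Fin (m + 1), m - nb a b.val + nb a b.val = m := by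
        intro b
        have := b.isLt
        refine Nat.sub_add_cancel ?_
        unfold nb
        omega
      rw [Finset.sum_congr rfl fun b _ => h5 b, Finset.sum_const, Finset.card_univ,
        Fintype.card_fin, smul_eq_mul]
    rw [sum_nb h] at h4
    omega
  · rintro _ ⟨z, hz, rfl⟩
    rw [hf]
    refine mul_nonneg (by positivity) (Finset.sum_nonneg fun b _ => ?_)
    exact h2 b (z b) (hz b (Set.mem_univ b))

theorem std_neg {m a : ℕ} (h : 1 ≤ a ∧ a ≤ m) :
    (obj (ω := om (prm m a h) m) (prm m a h).c (stdW m)).Neg (NI m a) := by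
  obtain ⟨f, hi, hf⟩ := std_val h
  choose W h1 h2 using fun b : Fin (m + 1) => toep_neg m (rr m a b) (fi m a b) (rr_pos h b.isLt)
  refine ⟨(Submodule.pi Set.univ W).map f, ?_, ?_⟩
  · rw [← (Submodule.equivMapOfInjective f hi _).finrank_eq, finrank_pi_sub, ← sum_nb h]
    refine Finset.sum_le_sum fun b _ => ?_
    rw [← card_neg h b.isLt]
    exact h1 b
  · rintro _ ⟨z, hz, rfl⟩ hne
    rw [hf]
    have hz0 : z ≠ 0 := by
      rintro rfl
      exact hne (map_zero f)
    obtain ⟨b0, hb0⟩ := Function.ne_iff.1 hz0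
    have hm : (0 : ℝ) < (m : ℝ) + 1 := by positivity
    refine mul_neg_of_pos_of_neg hm ?_
    have h3 : ∀ b : Fin (m + 1),
        (rr m a b * Complex.exp (fi m a b * Complex.I) * tS (z b) (z b)).re ≤ 0 := by
      intro b
      by_cases hb : z b = 0
      · rw [hb]
        have : tS (0 : Fin m → ℂ) 0 = 0 := by
          unfold tS
          simp
        rw [this, mul_zero, Complex.zero_re]
      · exact (h2 b (z b) (hz b (Set.mem_univ b)) hb).le
    exact Finset.sum_neg' (fun b _ => h3 b)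
      ⟨b0, Finset.mem_univ _, h2 b0 (z b0) (hz b0 (Set.mem_univ b0)) hb0⟩

end Pool.Agent.Helper46.BMY
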