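import Pool.Agent.Helper46.BMY.CHur
import Pool.Agent.Helper46.BMY.CStd

/-!
# The index of every word with product a power of the full twist
-/

set_option autoImplicit false

open ComplexConjugate Module

namespace Pool.Agent.Helper46.BMY

open Pool.Agent.Helper81.SBA (BraidGroup sigma braidLift braidLift_sigma braid_induction sg run twist
  Lt stdL im stdL_prod)

section ind

variable {m : ℕ} (p : Prm)

/-- The letter of a pair: the braid `g σ_i g⁻¹`. -/
def bl (q : BraidGroup m × Fin m) : BraidGroup m := q.1 * sigma q.2 * q.1⁻¹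

/-- The vector of a pair. -/
noncomputable def vl (q : BraidGroup m × Fin m) : Fin m → ℂ := rep p m q.1 (vb m q.2)

open Classical in
/-- The class of a letter. -/
noncomputable def eL (x : BraidGroup m) : QM (om p m) :=
  if h : ∃ q, x = bl q then cl (ltr p.c (vl p h.choose)) else 1

theorem eL_bl (hm : 2 ≤ m) (q : BraidGroup m × Fin m) : eL p (bl q) = cl (ltr p.c (vl p q)) := by
  classical
  have h : ∃ q', bl q = bl q' := ⟨q, rfl⟩
  have h1 : eL p (bl q) = cl (ltr p.c (vl p h.choose)) := by
    unfold eL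
    rw [dif_pos h]
  rw [h1]
  obtain ⟨k, hk, h2⟩ := vec_unique (p := p) hm h.choose_spec.symm
  have h3 : vl p h.choose = k • vl p q := h2
  rw [h3, cl_smul p.c _ hk]

theorem eL_swap (hm : 2 ≤ m) (x y : BraidGroup m) (hx : Lt x) (hy : Lt y) :
    eL p x * eL p y = eL p (x * y * x⁻¹) * eL p x := by
  obtain ⟨g, i, hx'⟩ := hx
  obtain ⟨h, j, hy'⟩ := hy
  have h1 : x = bl (g, i) := hx'
  have h2 : y = bl (h, j) := hy'
  have h3 : x * y * x⁻¹ = bl (x * h, j) := by
    rw [h2]
    unfold bl
    group
  have h4 : vl p (x * h, j) = (ltr (ω := om p m) p.c (vl p (g, i))).A (vl p (h, j)) := by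
    have h5 : vl p (x * h, j) = rep p m x (vl p (h, j)) := by
      unfold vl
      rw [map_mul]
      rfl
    rw [h5, hx', rep_conj]
    rfl
  rw [h3, h2, h1, eL_bl p hm, eL_bl p hm, ← h1, eL_bl p hm, h4]
  exact cl_swap p.c (vl p (g, i)) (vl p (h, j))

theorem im_eL (hm : 2 ≤ m) (w : List (BraidGroup m × Fin m)) :
    im (eL p) (w.map bl) = cl (obj (ω := om p m) p.c (w.map (vl p))) := by
  unfold im
  rw [cl_obj, List.map_map, List.map_map]
  congr 1
  refine List.map_congr_left fun q _ => ?_
  exact eL_bl p hm q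

/-- The standard word as a list of pairs. -/
def stdP (m : ℕ) : List (BraidGroup m × Fin m) :=
  (List.replicate (m + 1) ((List.finRange m).map fun i => ((1 : BraidGroup m), i))).flatten

theorem stdP_bl : (stdP m).map bl = stdL m := by
  unfold stdP stdL
  rw [List.map_flatten, List.map_replicate, List.map_map]
  have h1 : (bl ∘ fun i => ((1 : BraidGroup m), i)) = (sigma : Fin m → BraidGroup m) := by
    funext i
    change 1 * sigma i * 1⁻¹ = sigma i
    rw [one_mul, inv_one, mul_one]
  rw [h1]

theorem stdP_vl : (stdP m).map (vl p) = stdW m := by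
  unfold stdP stdW
  rw [List.map_flatten, List.map_replicate, List.map_map]
  have h2 : (vl p ∘ fun i => ((1 : BraidGroup m), i)) = fun i : Fin m => vb m i.val := by
    funext i
    change rep p m 1 (vb m i) = vb m i
    rw [map_one]
    rfl
  rw [h2]

theorem im_std (hm : 2 ≤ m) :
    im (eL p) (stdL m) = cl (obj (ω := om p m) p.c (stdW m)) := by
  rw [← stdP_bl, im_eL p hm, stdP_vl]

/-- The monodromy of a word is the product of the reflections. -/
theorem obj_A (w : List (BraidGroup m × Fin m)) (b : Fin m → ℂ) :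
    (obj (ω := om p m) p.c (w.map (vl p))).A b = rep p m (w.map bl).prod b := by
  induction w with
  | nil =>
    rw [List.map_nil, List.map_nil, List.prod_nil, map_one]
    exact QO.one_A b
  | cons q w ih =>
    rw [List.map_cons, List.map_cons, List.prod_cons, map_mul]
    have h1 : (obj (ω := om p m) p.c (vl p q :: w.map (vl p))).A b =
        (ltr (ω := om p m) p.c (vl p q)).A ((obj (ω := om p m) p.c (w.map (vl p))).A b) :=
      QO.mul_A _ _ b
    have h2 : rep p m (bl q) = trv (ω := om p m) p.c (vl p q) := rep_conj q.1 q.2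
    rw [h1, ih, h2]
    rfl

theorem std_pX (hm : 1 ≤ m) (hp : (1 - p.l) ^ (m + 1) = 1) (b : Fin m → ℂ) :
    (obj (ω := om p m) p.c (stdW m)).p ((obj (ω := om p m) p.c (stdW m)).X b) = 0 := by
  have h1 := obj_A p (stdP m) b
  rw [stdP_bl, stdL_prod, rep_twist hm hp, QO.A_apply, stdP_vl] at h1
  have h2 : b + (obj (ω := om p m) p.c (stdW m)).p ((obj (ω := om p m) p.c (stdW m)).X b) = b := h1
  exact left_eq_add.1 h2.symm

end ind

/-- `r` copies of the standard word. -/
theorem stdR_prod (m r : ℕ) : (List.replicate r (stdL m)).flatten.prod = twist m 0 (m + 1) ^ r := by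
  rw [List.prod_flatten, List.map_replicate, List.prod_replicate, stdL_prod]

theorem im_stdR (m r : ℕ) {M : Type 1} [Monoid M] (e : BraidGroup m → M) :
    im e (List.replicate r (stdL m)).flatten = im e (stdL m) ^ r := by
  unfold im
  rw [List.map_flatten, List.prod_flatten, List.map_replicate, List.map_replicate,
    List.prod_replicate]

/-- **The index.** -/
theorem index_word {m a r : ℕ} (hm : 2 ≤ m) (h : 1 ≤ a ∧ a ≤ m)
    (w : List (BraidGroup m × Fin m)) (hw : (w.map bl).prod = twist m 0 (m + 1) ^ r) {n : ℕ}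
    (hn : (obj (ω := om (prm m a h) m) (prm m a h).c (w.map (vl (prm m a h)))).Psd n) :
    n ≤ r * ((m + 1) * m - NI m a) := by
  obtain ⟨p, hp⟩ : ∃ p, p = prm m a h := ⟨_, rfl⟩
  have hl : ∀ x ∈ w.map bl, Lt x := by
    intro x hx
    obtain ⟨q, -, rfl⟩ := List.mem_map.1 hx
    exact ⟨q.1, q.2, rfl⟩
  have hl' : ∀ x ∈ (List.replicate r (stdL m)).flatten, Lt x := by
    intro x hx
    rw [List.mem_flatten] at hx
    obtain ⟨l, hl1, hx1⟩ := hx
    rw [List.eq_of_mem_replicate hl1] at hx1
    exact std_lt hx1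
  obtain ⟨k, hk⟩ := hurwitz_gen (eL (m := m) (prm m a h))
    (fun x y hx hy => eL_swap _ hm x y hx hy) (w.map bl) _ hl hl' (hw.trans (stdR_prod m r).symm)
  rw [im_stdR, im_eL _ hm, im_std _ hm, ← cl_pow, ← cl_pow, ← cl_mul, ← cl_mul, cl_eq] at hk
  have hpow : (1 - (prm m a h).l) ^ (m + 1) = 1 := by
    change (1 - (1 - lm m a)) ^ (m + 1) = 1
    rw [sub_sub_cancel]
    exact lm_pow m a
  have hd : finrank ℂ (obj (ω := om (prm m a h) m) (prm m a h).c (stdW m)).E =
      ((m + 1) * m - NI m a) + NI m a := by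
    rw [finrank_std, Nat.sub_add_cancel (NI_le h)]
  exact index_le (std_pX _ (by omega) hpow) hd (std_psd h) (std_neg h) hk hn

end Pool.Agent.Helper46.BMY
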