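import Pool.Agent.Helper46.BMY.CSig

/-!
# Coordinates for words and powers
-/

set_option autoImplicit false

open ComplexConjugate Module

namespace Pool.Agent.Helper46.BMY

section model

variable {V : Type} [AddCommGroup V] [Module ℂ V] {ω : V →ₗ⋆[ℂ] V →ₗ[ℂ] ℂ} [Skh ω]

/-- pairs of linear maps as a map to the product -/
def modelCons {A : Type} [AddCommGroup A] [Module ℂ A] (Q R : QO ω)
    (f : A →ₗ[ℂ] Q.E) (g : A →ₗ[ℂ] R.E) : A →ₗ[ℂ] (Q.mul R).E := f.prod g

theorem modelCons_L {A : Type} [AddCommGroup A] [Module ℂ A] (Q R : QO ω)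
    (f : A →ₗ[ℂ] Q.E) (g : A →ₗ[ℂ] R.E) (x y : A) :
    (Q.mul R).L (modelCons Q R f g x) (modelCons Q R f g y) =
      Q.L (f x) (f y) + R.L (g x) (g y) - ω (Q.p (f x)) (R.p (g y)) := rfl

theorem modelCons_p {A : Type} [AddCommGroup A] [Module ℂ A] (Q R : QO ω)
    (f : A →ₗ[ℂ] Q.E) (g : A →ₗ[ℂ] R.E) (x : A) :
    (Q.mul R).p (modelCons Q R f g x) = Q.p (f x) + R.p (g x) := rfl

theorem modelCons_zero {A : Type} [AddCommGroup A] [Module ℂ A] (Q R : QO ω)
    (f : A →ₗ[ℂ] Q.E) (g : A →ₗ[ℂ] R.E) (x : A) (h : modelCons Q R f g x = 0) :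
    f x = 0 ∧ g x = 0 := by
  have h' : ((f x, g x) : Q.E × R.E) = 0 := h
  exact Prod.mk_eq_zero.1 h'

/-- Coordinates for a word given as a function. -/
theorem model_word (c : {c : ℝ // 0 < c}) (n : ℕ) (w : Fin n → V) :
    ∃ f : (Fin n → ℂ) →ₗ[ℂ] (obj (ω := ω) c (List.ofFn w)).E,
      (∀ x y, (obj c (List.ofFn w)).L (f x) (f y) =
        ∑ i, conj (x i) * y i * lv ω c (w i) -
          ∑ i, ∑ j, if i < j then ω (w i) (w j) * conj (x i) * y j else 0) ∧
      (∀ x, (obj c (List.ofFn w)).p (f x) = ∑ i, x i • w i) ∧ ∀ x, f x = 0 → x = 0 := by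
  induction n with
  | zero =>
    refine ⟨0, fun x y => ?_, fun x => ?_, fun x _ => Subsingleton.elim _ _⟩
    · simp
    · simp
  | succ n ih =>
    obtain ⟨f, h1, h2, h3⟩ := ih fun i => w i.succ
    rw [List.ofFn_succ]
    let g : (Fin (n + 1) → ℂ) →ₗ[ℂ] (ltr (ω := ω) c (w 0)).E :=
      LinearMap.proj (0 : Fin (n + 1))
    have hg : ∀ x y, (ltr (ω := ω) c (w 0)).L (g x) (g y) = conj (x 0) * y 0 * lv ω c (w 0) :=
      fun _ _ => rfl
    have hg2 : ∀ x, (ltr (ω := ω) c (w 0)).p (g x) = x 0 • w 0 := fun _ => rfl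
    refine ⟨modelCons (ltr c (w 0)) (obj c (List.ofFn fun i => w i.succ)) g
      (f ∘ₗ LinearMap.funLeft ℂ ℂ Fin.succ), fun x y => ?_, fun x => ?_, fun x hx => ?_⟩
    · refine (modelCons_L _ _ _ _ x y).trans ?_
      rw [hg, hg2, LinearMap.comp_apply, LinearMap.comp_apply, h1, h2,
        Fin.sum_univ_succ (fun i => conj (x i) * y i * lv ω c (w i)),
        Fin.sum_univ_succ (fun i => ∑ j, _)]
      simp only [Fin.sum_univ_succ (f := fun j => if _ < j then _ else (0 : ℂ)), lt_irrefl,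
        Fin.succ_lt_succ_iff, Fin.succ_pos, Fin.not_lt_zero, if_true, if_false, zero_add,
        map_sum, map_smul, LinearMap.map_smulₛₗ, LinearMap.smul_apply, smul_eq_mul,
        LinearMap.funLeft_apply]
      have e2 : ∑ j : Fin n, y j.succ * (conj (x 0) * ω (w 0) (w j.succ)) =
          ∑ j : Fin n, ω (w 0) (w j.succ) * conj (x 0) * y j.succ :=
        Finset.sum_congr rfl fun j _ => by ring
      rw [e2]
      ring
    · refine (modelCons_p _ _ _ _ x).trans ?_
      rw [hg2, LinearMap.comp_apply, h2, Fin.sum_univ_succ]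
      rfl
    · obtain ⟨h4, h5⟩ := modelCons_zero _ _ _ _ _ hx
      have h6 := h3 _ h5
      funext i
      refine Fin.cases ?_ (fun j => ?_) i
      · exact h4
      · exact congrFun h6 j

/-- Coordinates for a power of an object. -/
theorem model_pow (Q : QO ω) (n : ℕ) :
    ∃ f : (Fin n → Q.E) →ₗ[ℂ] (Q.pow n).E,
      (∀ x y, (Q.pow n).L (f x) (f y) =
        ∑ i, Q.L (x i) (y i) - ∑ i, ∑ j, if i < j then ω (Q.p (x i)) (Q.p (y j)) else 0) ∧
      (∀ x, (Q.pow n).p (f x) = ∑ i, Q.p (x i)) ∧ ∀ x, f x = 0 → x = 0 := by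
  induction n with
  | zero =>
    refine ⟨0, fun x y => ?_, fun x => ?_, fun x _ => Subsingleton.elim _ _⟩
    · simp
    · simp
  | succ n ih =>
    obtain ⟨f, h1, h2, h3⟩ := ih
    refine ⟨modelCons Q (Q.pow n) (LinearMap.proj (0 : Fin (n + 1)))
      (f ∘ₗ LinearMap.funLeft ℂ Q.E Fin.succ), fun x y => ?_, fun x => ?_, fun x hx => ?_⟩
    · refine (modelCons_L _ _ _ _ x y).trans ?_
      rw [LinearMap.comp_apply, LinearMap.comp_apply, h1, h2,
        Fin.sum_univ_succ (fun i => Q.L (x i) (y i)), Fin.sum_univ_succ (fun i => ∑ j, _)]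
      simp only [Fin.sum_univ_succ (f := fun j => if _ < j then _ else (0 : ℂ)), lt_irrefl,
        Fin.succ_lt_succ_iff, Fin.succ_pos, Fin.not_lt_zero, if_true, if_false, zero_add, map_sum,
        LinearMap.funLeft_apply, LinearMap.proj_apply]
      ring
    · refine (modelCons_p _ _ _ _ x).trans ?_
      rw [LinearMap.comp_apply, h2, Fin.sum_univ_succ]
      rfl
    · obtain ⟨h4, h5⟩ := modelCons_zero _ _ _ _ _ hx
      have h6 := h3 _ h5
      funext i
      refine Fin.cases ?_ (fun j => ?_) i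
      · exact h4
      · exact congrFun h6 j

theorem obj_replicate (c : {c : ℝ // 0 < c}) (w : List V) (n : ℕ) :
    Iso (obj (ω := ω) c (List.replicate n w).flatten) ((obj c w).pow n) := by
  induction n with
  | zero => exact Iso.refl _
  | succ n ih =>
    rw [List.replicate_succ, List.flatten_cons]
    exact (obj_append c w _).trans (Iso.mul (Iso.refl _) ih)

theorem finrank_word (c : {c : ℝ // 0 < c}) (w : List V) :
    finrank ℂ (obj (ω := ω) c w).E = w.length := by
  induction w with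
  | nil =>
    change finrank ℂ PUnit = 0
    exact finrank_zero_of_subsingleton
  | cons v w ih =>
    have h := finrank_mul (ltr (ω := ω) c v) (obj c w)
    have h1 : finrank ℂ (ltr (ω := ω) c v).E = 1 := Module.finrank_self ℂ
    rw [h1, ih] at h
    rw [List.length_cons, add_comm]
    exact h

end model

end Pool.Agent.Helper46.BMY
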