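import Pool.Agent.Helper46.BMY.CInd
import Pool.Agent.Helper46.BMY.CMod

/-!
# The local words: powers of one letter
-/

set_option autoImplicit false

open ComplexConjugate Module Finset

namespace Pool.Agent.Helper46.BMY

/-! ### Sums -/

private theorem pair_sum (y : ℕ → ℂ) (n : ℕ) :
    ∑ i ∈ range n, ∑ j ∈ range n, (if i < j then
      conj (y (i + 1) - y i) * (y (j + 1) - y j) else 0) =
      ∑ j ∈ range n, conj (y j - y 0) * (y (j + 1) - y j) := by
  induction n with
  | zero => simp
  | succ n ih =>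
    rw [sum_range_succ, sum_range_succ (fun j => conj (y j - y 0) * (y (j + 1) - y j)), ← ih]
    have h1 : ∑ i ∈ range n, ∑ j ∈ range (n + 1), (if i < j then
        conj (y (i + 1) - y i) * (y (j + 1) - y j) else 0) =
        ∑ i ∈ range n, ∑ j ∈ range n, (if i < j then
          conj (y (i + 1) - y i) * (y (j + 1) - y j) else 0) +
        ∑ i ∈ range n, conj (y (i + 1) - y i) * (y (n + 1) - y n) := by
      rw [← sum_add_distrib]
      refine sum_congr rfl fun i hi => ?_
      rw [sum_range_succ, if_pos (mem_range.1 hi)]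
    have h2 : ∑ j ∈ range (n + 1), (if n < j then
        conj (y (n + 1) - y n) * (y (j + 1) - y j) else 0) = 0 := by
      refine sum_eq_zero fun j hj => ?_
      have := mem_range.1 hj
      rw [if_neg (by omega)]
    rw [h1, h2, add_zero, ← sum_mul, ← map_sum, sum_range_sub]

/-- The extension of `z` by zero, shifted by one. -/
noncomputable def ext1 {k : ℕ} (z : Fin k → ℂ) (i : ℕ) : ℂ :=
  if h : 1 ≤ i ∧ i ≤ k then z ⟨i - 1, by omega⟩ else 0

theorem ext1_succ {k : ℕ} (z : Fin k → ℂ) (i : Fin k) : ext1 z (i.val + 1) = z i := by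
  unfold ext1
  have := i.2
  rw [dif_pos ⟨by omega, by omega⟩]
  rfl

theorem ext1_zero {k : ℕ} (z : Fin k → ℂ) : ext1 z 0 = 0 := by
  unfold ext1
  rw [dif_neg (by omega)]

theorem ext1_last {k : ℕ} (z : Fin k → ℂ) : ext1 z (k + 1) = 0 := by
  unfold ext1
  rw [dif_neg (by omega)]

private theorem ext1_add {k : ℕ} (z z' : Fin k → ℂ) (i : ℕ) :
    ext1 (z + z') i = ext1 z i + ext1 z' i := by
  unfold ext1
  split_ifs
  · rfl
  · rw [add_zero]

private theorem ext1_smul {k : ℕ} (c : ℂ) (z : Fin k → ℂ) (i : ℕ) :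
    ext1 (c • z) i = c * ext1 z i := by
  unfold ext1
  split_ifs
  · rfl
  · rw [mul_zero]

/-- The differences. -/
noncomputable def dif (k : ℕ) : (Fin k → ℂ) →ₗ[ℂ] (Fin (k + 1) → ℂ) where
  toFun z j := ext1 z (j.val + 1) - ext1 z j.val
  map_add' z z' := by
    funext j
    simp only [Pi.add_apply, ext1_add]
    ring
  map_smul' c z := by
    funext j
    simp only [Pi.smul_apply, smul_eq_mul, RingHom.id_apply, ext1_smul]
    ring

theorem dif_apply {k : ℕ} (z : Fin k → ℂ) (j : Fin (k + 1)) :
    dif k z j = ext1 z (j.val + 1) - ext1 z j.val := rfl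

theorem dif_inj {k : ℕ} (z : Fin k → ℂ) (h : dif k z = 0) : z = 0 := by
  have h1 : ∀ j, j ≤ k → ext1 z j = 0 := by
    intro j
    induction j with
    | zero => intro _; exact ext1_zero z
    | succ j ih =>
      intro hj
      have h2 := congrFun h ⟨j, by omega⟩
      rw [dif_apply] at h2
      have h3 : ext1 z (j + 1) - ext1 z j = 0 := h2
      rw [ih (by omega), sub_zero] at h3
      exact h3
  funext i
  have := i.2
  rw [← ext1_succ z i]
  exact h1 _ (by omega)

theorem dif_sum {k : ℕ} (z : Fin k → ℂ) : ∑ j, dif k z j = 0 := by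
  have h1 : ∑ j, dif k z j = ∑ j ∈ range (k + 1), (ext1 z (j + 1) - ext1 z j) :=
    (sum_range fun j => ext1 z (j + 1) - ext1 z j).symm
  rw [h1, sum_range_sub, ext1_last, ext1_zero, sub_zero]

private theorem tS_ext {k : ℕ} (z : Fin k → ℂ) :
    tS z z = ∑ j ∈ range (k + 1), conj (ext1 z j) * ext1 z j -
      ∑ j ∈ range (k + 1), conj (ext1 z j) * ext1 z (j + 1) := by
  have h1 : ∀ i : Fin k, ∑ j : Fin k,
      conj (z i) * (if i.val = j.val then 1 else if i.val + 1 = j.val then -1 else 0) * z j =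
      conj (ext1 z (i.val + 1)) * ext1 z (i.val + 1) -
        conj (ext1 z (i.val + 1)) * ext1 z (i.val + 1 + 1) := by
    intro i
    rw [ext1_succ]
    have h2 : ∀ j : Fin k, conj (z i) * (if i.val = j.val then 1 else
        if i.val + 1 = j.val then -1 else 0) * z j =
        (if j = i then conj (z i) * z i else 0) -
          (if i.val + 1 = j.val then conj (z i) * z j else 0) := by
      intro j
      by_cases hij : j = i
      · subst hij
        rw [if_pos rfl, if_pos rfl, if_neg (by omega)]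
        ring
      · have hij' : ¬ i.val = j.val := fun h => hij (Fin.ext h.symm)
        rw [if_neg hij', if_neg hij]
        split_ifs
        · ring
        · ring
    simp only [h2, sum_sub_distrib]
    rw [sum_ite_eq', if_pos (mem_univ _)]
    congr 1
    by_cases hi : i.val + 1 < k
    · rw [sum_eq_single (⟨i.val + 1, hi⟩ : Fin k)]
      · rw [if_pos rfl]
        have h3 := ext1_succ z ⟨i.val + 1, hi⟩
        rw [← h3]
      · intro j _ hj
        have hj' : ¬ i.val + 1 = j.val := fun h => hj (Fin.ext h.symm)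
        rw [if_neg hj']
      · intro h
        exact absurd (mem_univ _) h
    · have h4 : ext1 z (i.val + 1 + 1) = 0 := by
        unfold ext1
        rw [dif_neg (by omega)]
      rw [h4, mul_zero]
      refine sum_eq_zero fun j _ => ?_
      have := j.2
      rw [if_neg (by omega)]
  unfold tS
  rw [sum_congr rfl fun i _ => h1 i, sum_sub_distrib]
  rw [sum_range_succ' (fun j => conj (ext1 z j) * ext1 z j),
    sum_range_succ' (fun j => conj (ext1 z j) * ext1 z (j + 1)), ext1_zero, map_zero, zero_mul,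
    zero_mul, add_zero, add_zero]
  rw [sum_range fun j => conj (ext1 z (j + 1)) * ext1 z (j + 1),
    sum_range fun j => conj (ext1 z (j + 1)) * ext1 z (j + 1 + 1)]

/-- The form on the differences. -/
theorem dif_form {k : ℕ} (l : ℂ) (z : Fin k → ℂ) :
    ∑ i, conj (dif k z i) * dif k z i * l -
      ∑ i, ∑ j, (if i < j then (conj l - l) * conj (dif k z i) * dif k z j else 0) =
      conj l * tS z z + conj (conj l * tS z z) := by
  have e1 : ∑ i, conj (dif k z i) * dif k z i * l =
      (∑ j ∈ range (k + 1), conj (ext1 z (j + 1) - ext1 z j) * (ext1 z (j + 1) - ext1 z j)) * l := by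
    rw [← sum_mul, sum_range fun j => conj (ext1 z (j + 1) - ext1 z j) *
      (ext1 z (j + 1) - ext1 z j)]
    rfl
  have e2 : ∑ i, ∑ j, (if i < j then (conj l - l) * conj (dif k z i) * dif k z j else 0) =
      (conj l - l) * ∑ j ∈ range (k + 1), conj (ext1 z j - ext1 z 0) *
        (ext1 z (j + 1) - ext1 z j) := by
    rw [← pair_sum (ext1 z) (k + 1), mul_sum, sum_range]
    refine sum_congr rfl fun i _ => ?_
    rw [mul_sum, sum_range]
    refine sum_congr rfl fun j _ => ?_
    by_cases hij : i < j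
    · have hij' : i.val < j.val := hij
      rw [if_pos hij, if_pos hij', dif_apply, dif_apply]
      ring
    · have hij' : ¬ i.val < j.val := hij
      rw [if_neg hij, if_neg hij', mul_zero]
  have hS : ∑ j ∈ range (k + 1), conj (ext1 z (j + 1)) * ext1 z (j + 1) =
      ∑ j ∈ range (k + 1), conj (ext1 z j) * ext1 z j := by
    have h1 := sum_range_succ (fun j => conj (ext1 z j) * ext1 z j) (k + 1)
    have h2 := sum_range_succ' (fun j => conj (ext1 z j) * ext1 z j) (k + 1)
    rw [ext1_zero, mul_zero, add_zero] at h2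
    rw [ext1_last, mul_zero, add_zero] at h1
    rw [← h2, h1]
  obtain ⟨S, hSd⟩ : ∃ S, S = ∑ j ∈ range (k + 1), conj (ext1 z j) * ext1 z j := ⟨_, rfl⟩
  obtain ⟨T, hTd⟩ : ∃ T, T = ∑ j ∈ range (k + 1), conj (ext1 z j) * ext1 z (j + 1) := ⟨_, rfl⟩
  have hSc : conj S = S := by
    rw [hSd, map_sum]
    refine sum_congr rfl fun j _ => ?_
    rw [map_mul, Complex.conj_conj, mul_comm]
  have hTc : ∑ j ∈ range (k + 1), conj (ext1 z (j + 1)) * ext1 z j = conj T := by
    rw [hTd, map_sum]
    refine sum_congr rfl fun j _ => ?_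
    rw [map_mul, Complex.conj_conj, mul_comm]
  have e3 : ∑ j ∈ range (k + 1), conj (ext1 z (j + 1) - ext1 z j) * (ext1 z (j + 1) - ext1 z j) =
      2 * S - conj T - T := by
    have h1 : ∀ j, conj (ext1 z (j + 1) - ext1 z j) * (ext1 z (j + 1) - ext1 z j) =
        conj (ext1 z (j + 1)) * ext1 z (j + 1) + conj (ext1 z j) * ext1 z j -
          conj (ext1 z (j + 1)) * ext1 z j - conj (ext1 z j) * ext1 z (j + 1) := by
      intro j
      rw [map_sub]
      ring
    simp only [h1, sum_sub_distrib, sum_add_distrib]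
    rw [hS, hTc, ← hTd, ← hSd]
    ring
  have e4 : ∑ j ∈ range (k + 1), conj (ext1 z j - ext1 z 0) * (ext1 z (j + 1) - ext1 z j) =
      T - S := by
    have h1 : ∀ j, conj (ext1 z j - ext1 z 0) * (ext1 z (j + 1) - ext1 z j) =
        conj (ext1 z j) * ext1 z (j + 1) - conj (ext1 z j) * ext1 z j := by
      intro j
      rw [ext1_zero, sub_zero]
      ring
    simp only [h1, sum_sub_distrib]
    rw [← hTd, ← hSd]
  have e5 : tS z z = S - T := by rw [tS_ext, ← hSd, ← hTd]
  rw [e1, e2, e3, e4, e5, map_mul, Complex.conj_conj, map_sub, hSc]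
  ring

/-! ### The local index -/

/-- The number of `j ∈ {1, …, e - 1}` with `j / e ≥ 1 / 2 - a / (m + 1)`. -/
def nl (m a e : ℕ) : ℕ :=
  ((range (e - 1)).filter fun j => (m + 1 - 2 * a) * e ≤ 2 * (m + 1) * (j + 1)).card

theorem conj_l {m a : ℕ} (h : 1 ≤ a ∧ a ≤ m) :
    conj (prm m a h).l = ((2 * Real.sin (Real.pi * a / (m + 1)) : ℝ) : ℂ) *
      Complex.exp (((Real.pi / 2 - Real.pi * a / (m + 1) : ℝ) : ℂ) * Complex.I) := by
  obtain ⟨t, ht⟩ : ∃ t : ℝ, t = Real.pi * a / (m + 1) := ⟨_, rfl⟩
  have h1 : lm m a = Complex.exp ((2 * t : ℝ) * Complex.I) := by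
    unfold lm
    rw [ht]
    congr 1
    push_cast
    ring
  have h2 : (prm m a h).l = 1 - lm m a := rfl
  rw [h2, map_sub, map_one, h1, ← ht, Complex.exp_mul_I, Complex.exp_mul_I,
    ← Complex.ofReal_cos, ← Complex.ofReal_sin, ← Complex.ofReal_cos, ← Complex.ofReal_sin,
    Real.cos_pi_div_two_sub, Real.sin_pi_div_two_sub, Real.cos_two_mul, Real.sin_two_mul]
  have h3 := Real.sin_sq_add_cos_sq t
  generalize Real.sin t = x at h3 ⊢
  generalize Real.cos t = y at h3 ⊢
  apply Complex.ext
  · simp [← Complex.ofReal_pow]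
    linear_combination -2 * h3
  · simp [← Complex.ofReal_pow]

theorem loc_rep {m a : ℕ} (h : 1 ≤ a ∧ a ≤ m) (h2 : 2 * a ≤ m + 1) (v : Fin m → ℂ)
    (hv : IsV (prm m a h) v) (e : ℕ) :
    (obj (ω := om (prm m a h) m) (prm m a h).c (List.replicate e v)).Loc (nl m a e) := by
  rcases Nat.eq_zero_or_pos e with he | he
  · subst he
    exact loc_zero _
  obtain ⟨k, rfl⟩ : ∃ k, e = k + 1 := ⟨e - 1, by omega⟩
  obtain ⟨p, hp⟩ : ∃ p, p = prm m a h := ⟨_, rfl⟩
  have hlv := hv.lv
  have hcl := conj_l h
  rw [← hp] at hv hlv hcl ⊢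
  have hrep : List.replicate (k + 1) v = List.ofFn (fun _ : Fin (k + 1) => v) :=
    (List.ofFn_const _ _).symm
  rw [hrep]
  obtain ⟨f, f1, f2, f3⟩ := model_word (ω := om p m) p.c (k + 1) (fun _ => v)
  have hR : 0 < 2 * Real.sin (Real.pi * a / (m + 1)) := by
    have h3 : 0 < Real.pi * a / (m + 1) := by
      have h4 : (0 : ℝ) < a := by exact_mod_cast h.1
      have := Real.pi_pos
      positivity
    have h5 : Real.pi * a / (m + 1) < Real.pi := by
      rw [div_lt_iff₀ (by positivity)]
      have h4 : (a : ℝ) < m + 1 := by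
        have : a < m + 1 := by omega
        exact_mod_cast this
      exact mul_lt_mul_of_pos_left h4 Real.pi_pos
    have := Real.sin_pos_of_pos_of_lt_pi h3 h5
    linarith
  obtain ⟨W, hW1, hW2⟩ := toep_psd k _ (Real.pi / 2 - Real.pi * a / (m + 1)) hR
  have hform : ∀ z : Fin k → ℂ, (obj (ω := om p m) p.c (List.ofFn (fun _ : Fin (k + 1) => v))).L
      (f (dif k z)) (f (dif k z)) = conj p.l * tS z z + conj (conj p.l * tS z z) := by
    intro z
    rw [f1, hlv, hv]
    exact dif_form p.l z
  refine ⟨LinearMap.range ((f ∘ₗ dif k) ∘ₗ W.subtype), ?_, ?_⟩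
  · rw [LinearMap.finrank_range_of_inj]
    · refine le_trans ?_ hW1
      unfold nl
      rw [Nat.add_sub_cancel]
      rw [card_filter, sum_range, card_filter]
      refine sum_le_sum fun j _ => ?_
      by_cases hj : (m + 1 - 2 * a) * (k + 1) ≤ 2 * (m + 1) * (j.val + 1)
      · rw [if_pos hj, if_pos]
        have h3 : (((m + 1 - 2 * a : ℕ) : ℝ)) * (k + 1) ≤ 2 * (m + 1) * (j.val + 1) := by
          exact_mod_cast hj
        rw [Nat.cast_sub h2] at h3
        push_cast at h3
        have hm0 : (0 : ℝ) < m + 1 := by positivity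
        have hk0 : (0 : ℝ) < k + 1 := by positivity
        have h2' : 2 * (a : ℝ) ≤ m + 1 := by exact_mod_cast h2
        have hpi := Real.pi_pos
        refine Real.cos_le_cos_of_nonneg_of_le_pi ?_ ?_ ?_
        · rw [sub_nonneg, div_le_div_iff₀ hm0 two_pos]
          nlinarith
        · rw [div_le_iff₀ hk0]
          have h4 : (j.val : ℝ) + 1 ≤ k + 1 := by
            have : j.val + 1 ≤ k + 1 := by omega
            exact_mod_cast this
          exact mul_le_mul_of_nonneg_left h4 hpi.le
        · rw [sub_le_iff_le_add, div_add_div _ _ hk0.ne' hm0.ne', div_le_div_iff₀ two_pos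
            (mul_pos hk0 hm0)]
          nlinarith
      · rw [if_neg hj]
        exact Nat.zero_le _
    · rw [← LinearMap.ker_eq_bot, LinearMap.ker_eq_bot']
      rintro ⟨z, hz⟩ h0
      have h1 : f (dif k z) = 0 := h0
      exact Subtype.ext (dif_inj z (f3 _ h1))
  · rintro _ ⟨⟨z, hz⟩, rfl⟩
    constructor
    · change (obj (ω := om p m) p.c (List.ofFn (fun _ : Fin (k + 1) => v))).p (f (dif k z)) = 0
      rw [f2, ← sum_smul, dif_sum, zero_smul]
    · change 0 ≤ ((obj (ω := om p m) p.c (List.ofFn (fun _ : Fin (k + 1) => v))).L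
        (f (dif k z)) (f (dif k z))).re
      rw [hform, Complex.add_re, Complex.conj_re]
      have h3 := hW2 z hz
      rw [← hcl] at h3
      linarith

end Pool.Agent.Helper46.BMY
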