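import Pool.Agent.Helper46.BMY.CTor
import Pool.Agent.Helper46.BMY.CDef

/-!
# The inequalities for the special points of a curve
-/

set_option autoImplicit false

open ComplexConjugate Module

namespace Pool.Agent.Helper46.BMY

open Pool.Agent.Helper81.SBA (BraidGroup sigma sg run twist artin_braid braidLift braidLift_sigma)

/-- A valid special point. -/
def Sg.Ok {m : ℕ} (P : Sg m) : Prop := 2 ≤ P.k ∧ P.a + P.k ≤ m + 1 ∧ 1 ≤ P.e

theorem prod_run {m : ℕ} (g : BraidGroup m) (a K : ℕ) (h : a + K ≤ m) :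
    ((List.finRange K).map fun i : Fin K =>
      bl (g, (⟨a + i.val, by have := i.2; omega⟩ : Fin m))).prod = g * run m a K * g⁻¹ := by
  induction K with
  | zero =>
    change (1 : BraidGroup m) = g * 1 * g⁻¹
    rw [mul_one, mul_inv_cancel]
  | succ K ih =>
    have h1 := ih (by omega)
    have h2 : (List.finRange (K + 1)).map (fun i : Fin (K + 1) =>
        bl (g, (⟨a + i.val, by have := i.2; omega⟩ : Fin m))) =
        ((List.finRange K).map fun i : Fin K =>
          bl (g, (⟨a + i.val, by have := i.2; omega⟩ : Fin m))) ++ [bl (g, ⟨a + K, by omega⟩)] := by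
      rw [List.finRange_succ_last, List.map_append, List.map_map]
      rfl
    rw [h2, List.prod_append, h1, List.prod_singleton]
    change g * run m a K * g⁻¹ * (g * sigma ⟨a + K, by omega⟩ * g⁻¹) =
      g * (run m a K * sg m (a + K)) * g⁻¹
    have h3 : sg m (a + K) = sigma ⟨a + K, by omega⟩ := by
      unfold sg
      rw [dif_pos]
    rw [h3]
    group

/-- The word of a special point. -/
theorem word_one {m : ℕ} (P : Sg m) (hP : P.Ok) :
    ∃ w : List (BraidGroup m × Fin m), (w.map bl).prod = P.braid ∧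
      ∀ (a : ℕ) (h : 1 ≤ a ∧ a ≤ m),
        (obj (ω := om (prm m a h) m) (prm m a h).c (w.map (vl (prm m a h)))).Loc
          (nt m a P.k P.e) := by
  obtain ⟨h1, h2, -⟩ := hP
  obtain ⟨K, hK⟩ : ∃ K, P.k = K + 1 := ⟨P.k - 1, by omega⟩
  have hK2 : P.a + K ≤ m := by omega
  refine ⟨(List.replicate P.e ((List.finRange K).map fun i : Fin K =>
    (P.g, (⟨P.a + i.val, by have := i.2; omega⟩ : Fin m)))).flatten, ?_, fun a h => ?_⟩
  · rw [List.map_flatten, List.map_replicate, List.map_map, List.prod_flatten, List.map_replicate,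
      List.prod_replicate]
    have h3 := prod_run P.g P.a K hK2
    have h4 : ((List.finRange K).map (bl ∘ fun i : Fin K =>
      (P.g, (⟨P.a + i.val, by have := i.2; omega⟩ : Fin m)))).prod = P.g * run m P.a K * P.g⁻¹ := h3
    rw [h4, conj_pow]
    unfold Sg.braid
    rw [hK, Nat.add_sub_cancel]
  · rw [List.map_flatten, List.map_replicate, List.map_map, ← List.ofFn_eq_map, hK]
    refine loc_ch h ?_
    intro i j
    have hi := i.2
    have hj := j.2
    change om (prm m a h) m (rep (prm m a h) m P.g (vb m (P.a + i.val)))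
      (rep (prm m a h) m P.g (vb m (P.a + j.val))) = _
    rw [rep_om, om_vb (by omega) (by omega)]
    unfold J
    simp only [Nat.add_left_cancel_iff, Nat.add_assoc]

/-- The word of a list of special points. -/
theorem word_list {m : ℕ} (l : List (Sg m)) (hl : ∀ P ∈ l, P.Ok) :
    ∃ w : List (BraidGroup m × Fin m), (w.map bl).prod = (l.map Sg.braid).prod ∧
      ∀ (a : ℕ) (h : 1 ≤ a ∧ a ≤ m),
        (obj (ω := om (prm m a h) m) (prm m a h).c (w.map (vl (prm m a h)))).Loc
          (l.map fun P => nt m a P.k P.e).sum := by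
  induction l with
  | nil => exact ⟨[], rfl, fun a h => loc_zero _⟩
  | cons P l ih =>
    obtain ⟨w, h1, h2⟩ := ih fun Q hQ => hl Q (List.mem_cons_of_mem _ hQ)
    obtain ⟨v, h3, h4⟩ := word_one P (hl P List.mem_cons_self)
    refine ⟨v ++ w, ?_, fun a h => ?_⟩
    · rw [List.map_append, List.prod_append, h1, h3, List.map_cons, List.prod_cons]
    · rw [List.map_append, List.map_cons, List.sum_cons]
      exact loc_iso (obj_append _ _ _).symm (loc_mul (h4 a h) (h2 a h))

/-- **The inequality of the eigenvalue `exp (2 π i a / d)`.** -/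
theorem sum_nt {m a r : ℕ} (hm : 2 ≤ m) (h : 1 ≤ a ∧ a ≤ m) {l : List (Sg m)}
    (hl : IsCurve m r l) :
    (l.map fun P => nt m a P.k P.e).sum ≤ r * ((m + 1) * m - NI m a) := by
  obtain ⟨w, h3, h4⟩ := word_list l hl.1
  exact index_word hm h w (h3.trans hl.2) (loc_psd (h4 a h))

/-! ### The degree -/

/-- The degree homomorphism. -/
def dh (m : ℕ) : BraidGroup m →* Multiplicative ℤ :=
  braidLift (fun _ => Multiplicative.ofAdd 1) (fun _ _ _ => rfl) (fun _ _ _ => rfl)

theorem dh_sg {m i : ℕ} (h : i < m) : dh m (sg m i) = Multiplicative.ofAdd 1 := by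
  unfold sg
  rw [dif_pos h]
  exact braidLift_sigma _ _ _ _

theorem dh_run {m a : ℕ} (n : ℕ) (h : a + n ≤ m) :
    dh m (run m a n) = Multiplicative.ofAdd (n : ℤ) := by
  induction n with
  | zero =>
    change dh m 1 = _
    rw [map_one]
    rfl
  | succ n ih =>
    change dh m (run m a n * sg m (a + n)) = _
    rw [map_mul, ih (by omega), dh_sg (by omega), ← ofAdd_add]
    push_cast
    rfl

theorem dh_braid {m : ℕ} (P : Sg m) (hP : P.Ok) :
    dh m P.braid = Multiplicative.ofAdd (((P.k - 1) * P.e : ℕ) : ℤ) := by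
  obtain ⟨h1, h2, -⟩ := hP
  unfold Sg.braid
  rw [map_mul, map_mul, map_inv, map_pow, mul_comm (dh m P.g), mul_assoc, mul_inv_cancel, mul_one,
    dh_run _ (by omega), ← ofAdd_nsmul]
  congr 1
  push_cast
  rw [nsmul_eq_mul, mul_comm]

/-- **The degree identity.** -/
theorem sum_deg {m r : ℕ} {l : List (Sg m)} (hl : IsCurve m r l) :
    (l.map fun P => (P.k - 1) * P.e).sum = r * ((m + 1) * m) := by
  have h1 : ∀ l : List (Sg m), (∀ P ∈ l, P.Ok) →
      dh m (l.map Sg.braid).prod =
        Multiplicative.ofAdd (((l.map fun P => (P.k - 1) * P.e).sum : ℕ) : ℤ) := by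
    intro l hl
    induction l with
    | nil => exact map_one _
    | cons P l ih =>
      rw [List.map_cons, List.prod_cons, map_mul, ih fun Q hQ => hl Q (List.mem_cons_of_mem _ hQ),
        dh_braid P (hl P List.mem_cons_self), ← ofAdd_add, List.map_cons, List.sum_cons,
        ← Nat.cast_add]
  have h2 := h1 l hl.1
  rw [hl.2] at h2
  unfold twist at h2
  rw [map_pow, map_pow, Nat.add_sub_cancel, dh_run m (by omega), ← ofAdd_nsmul, ← ofAdd_nsmul] at h2
  have h3 : (r • (m + 1) • (m : ℤ) : ℤ) = (((l.map fun P => (P.k - 1) * P.e).sum : ℕ) : ℤ) :=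
    Multiplicative.ofAdd.injective h2
  simp only [nsmul_eq_mul] at h3
  exact_mod_cast h3.symm

end Pool.Agent.Helper46.BMY
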