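import Mathlib

/-!
# Quadratic objects over a complex space with a skew-hermitian form

The complex version of `Helper81/SBA/QO.lean` and `Iso.lean`. An object is a finite dimensional
complex space `E` with a sesquilinear form `L`, a map `p : E → V` and a map `X : V → E` with
`L x y - conj (L y x) = - ω (p x) (p y)` and `L y (X b) = ω (p y) b`.
-/

set_option autoImplicit false

open ComplexConjugate

namespace Pool.Agent.Helper46.BMY

/-- `ω` is skew-hermitian. -/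
class Skh {V : Type} [AddCommGroup V] [Module ℂ V] (ω : V →ₗ⋆[ℂ] V →ₗ[ℂ] ℂ) : Prop where
  sk : ∀ x y, ω x y = - conj (ω y x)

section qo

variable {V : Type} [AddCommGroup V] [Module ℂ V] {ω : V →ₗ⋆[ℂ] V →ₗ[ℂ] ℂ}

structure QO (ω : V →ₗ⋆[ℂ] V →ₗ[ℂ] ℂ) where
  E : Type
  [ac : AddCommGroup E]
  [md : Module ℂ E]
  [fd : Module.Finite ℂ E]
  L : E →ₗ⋆[ℂ] E →ₗ[ℂ] ℂ
  p : E →ₗ[ℂ] V
  X : V →ₗ[ℂ] E
  rel : ∀ x y, L x y - conj (L y x) = - ω (p x) (p y)
  hX : ∀ y b, L y (X b) = ω (p y) b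

attribute [instance] QO.ac QO.md QO.fd

/-- The monodromy `A = 1 + p X`. -/
def QO.A (Q : QO ω) : V →ₗ[ℂ] V := LinearMap.id + Q.p ∘ₗ Q.X

theorem QO.A_apply (Q : QO ω) (b : V) : Q.A b = b + Q.p (Q.X b) := rfl

/-- Isomorphism of objects. -/
def Iso (Q R : QO ω) : Prop :=
  ∃ f : Q.E ≃ₗ[ℂ] R.E, (∀ x y, R.L (f x) (f y) = Q.L x y) ∧ (∀ x, R.p (f x) = Q.p x) ∧
    ∀ b, f (Q.X b) = R.X b

theorem Iso.refl (Q : QO ω) : Iso Q Q :=
  ⟨LinearEquiv.refl ℂ Q.E, fun _ _ => rfl, fun _ => rfl, fun _ => rfl⟩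

theorem Iso.symm {Q R : QO ω} (h : Iso Q R) : Iso R Q := by
  obtain ⟨f, h1, h2, h3⟩ := h
  refine ⟨f.symm, fun x y => ?_, fun x => ?_, fun b => ?_⟩
  · rw [← h1, f.apply_symm_apply, f.apply_symm_apply]
  · rw [← h2, f.apply_symm_apply]
  · rw [← h3, f.symm_apply_apply]

theorem Iso.trans {Q R S : QO ω} (h : Iso Q R) (h' : Iso R S) : Iso Q S := by
  obtain ⟨f, h1, h2, h3⟩ := h
  obtain ⟨g, k1, k2, k3⟩ := h'
  refine ⟨f.trans g, fun x y => ?_, fun x => ?_, fun b => ?_⟩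
  · rw [LinearEquiv.trans_apply, LinearEquiv.trans_apply, k1, h1]
  · rw [LinearEquiv.trans_apply, k2, h2]
  · rw [LinearEquiv.trans_apply, h3, k3]

theorem Iso.A_eq {Q R : QO ω} (h : Iso Q R) : Q.A = R.A := by
  obtain ⟨f, -, h2, h3⟩ := h
  ext b
  rw [QO.A_apply, QO.A_apply, ← h3, h2]

/-- The empty word. -/
def QO.one (ω : V →ₗ⋆[ℂ] V →ₗ[ℂ] ℂ) : QO ω where
  E := PUnit
  L := 0
  p := 0
  X := 0
  rel := fun x y => by simp
  hX := fun y b => by simp

/-- The product. -/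
def QO.mul [Skh ω] (Q R : QO ω) : QO ω where
  E := Q.E × R.E
  L := LinearMap.mk₂'ₛₗ (starRingEnd ℂ) (RingHom.id ℂ)
    (fun a b => Q.L a.1 b.1 + R.L a.2 b.2 - ω (Q.p a.1) (R.p b.2))
    (fun a a' b => by
      simp only [Prod.fst_add, Prod.snd_add, map_add, LinearMap.add_apply]
      ring)
    (fun c a b => by
      simp only [Prod.smul_fst, Prod.smul_snd, map_smul, LinearMap.map_smulₛₗ,
        LinearMap.smul_apply, smul_eq_mul]
      ring)
    (fun a b b' => by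
      simp only [Prod.fst_add, Prod.snd_add, map_add]
      ring)
    (fun c a b => by
      simp only [Prod.smul_fst, Prod.smul_snd, map_smul, smul_eq_mul, RingHom.id_apply]
      ring)
  p := Q.p.coprod R.p
  X := (Q.X ∘ₗ R.A).prod R.X
  rel := by
    intro x y
    simp only [LinearMap.mk₂'ₛₗ_apply, LinearMap.coprod_apply, map_add, LinearMap.add_apply,
      map_sub]
    have h1 := Q.rel x.1 y.1
    have h2 := R.rel x.2 y.2
    have h3 := Skh.sk (ω := ω) (R.p x.2) (Q.p y.1)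
    linear_combination h1 + h2 + h3
  hX := by
    intro y b
    change Q.L y.1 (Q.X (R.A b)) + R.L y.2 (R.X b) - ω (Q.p y.1) (R.p (R.X b)) =
      ω (Q.p y.1 + R.p y.2) b
    rw [Q.hX, R.hX, QO.A_apply, map_add, map_add, LinearMap.add_apply]
    ring

theorem QO.mul_L [Skh ω] (Q R : QO ω) (a b : Q.E × R.E) :
    (Q.mul R).L a b = Q.L a.1 b.1 + R.L a.2 b.2 - ω (Q.p a.1) (R.p b.2) := rfl

theorem QO.mul_p [Skh ω] (Q R : QO ω) (a : Q.E × R.E) :
    (Q.mul R).p a = Q.p a.1 + R.p a.2 := rfl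

theorem QO.mul_X [Skh ω] (Q R : QO ω) (b : V) : (Q.mul R).X b = (Q.X (R.A b), R.X b) := rfl

theorem QO.mul_A [Skh ω] (Q R : QO ω) (b : V) : (Q.mul R).A b = Q.A (R.A b) := by
  rw [QO.A_apply, QO.mul_X, QO.mul_p, QO.A_apply Q, QO.A_apply R]
  abel

theorem QO.one_A (b : V) : (QO.one ω).A b = b := by
  exact add_zero b

/-- The number of a letter. -/
noncomputable def lv (ω : V →ₗ⋆[ℂ] V →ₗ[ℂ] ℂ) (c : ℝ) (v : V) : ℂ := c - ω v v / 2

theorem lv_sub [Skh ω] (c : ℝ) (v : V) : conj (lv ω c v) - lv ω c v = ω v v := by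
  unfold lv
  have h := Skh.sk (ω := ω) v v
  simp only [map_sub, map_div₀, Complex.conj_ofReal, map_ofNat]
  linear_combination -(1 / 2 : ℂ) * h

theorem lv_re [Skh ω] (c : ℝ) (v : V) : (lv ω c v).re = c := by
  have h := congrArg Complex.re (Skh.sk (ω := ω) v v)
  rw [Complex.neg_re, Complex.conj_re] at h
  unfold lv
  rw [Complex.sub_re, Complex.ofReal_re, Complex.div_ofNat_re]
  linarith

theorem lv_ne [Skh ω] {c : ℝ} (hc : 0 < c) (v : V) : lv ω c v ≠ 0 := by
  intro h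
  have h1 := lv_re (ω := ω) c v
  rw [h, Complex.zero_re] at h1
  exact hc.ne h1

/-- The letter `[v]`. -/
noncomputable def ltr [Skh ω] (c : {c : ℝ // 0 < c}) (v : V) : QO ω where
  E := ℂ
  L := LinearMap.mk₂'ₛₗ (starRingEnd ℂ) (RingHom.id ℂ) (fun s t => conj s * t * lv ω c v)
    (fun s s' t => by
      simp only [map_add]
      ring)
    (fun k s t => by
      simp only [smul_eq_mul, map_mul]
      ring)
    (fun s t t' => by ring)
    (fun k s t => by
      simp only [smul_eq_mul, RingHom.id_apply]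
      ring)
  p := LinearMap.toSpanSingleton ℂ V v
  X := (lv ω c v)⁻¹ • ω v
  rel := by
    intro x y
    have h := lv_sub (ω := ω) c v
    simp only [LinearMap.mk₂'ₛₗ_apply, LinearMap.toSpanSingleton_apply, LinearMap.map_smulₛₗ,
      map_smul, LinearMap.smul_apply, smul_eq_mul, map_mul, Complex.conj_conj, ← h]
    ring
  hX := by
    intro y b
    have h := lv_ne (ω := ω) c.2 v
    simp only [LinearMap.mk₂'ₛₗ_apply, LinearMap.toSpanSingleton_apply, LinearMap.map_smulₛₗ,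
      LinearMap.smul_apply, smul_eq_mul]
    field_simp

theorem ltr_L [Skh ω] (c : {c : ℝ // 0 < c}) (v : V) (s t : ℂ) :
    (ltr (ω := ω) c v).L s t = conj s * t * lv ω c v := rfl

theorem ltr_p [Skh ω] (c : {c : ℝ // 0 < c}) (v : V) (t : ℂ) :
    (ltr (ω := ω) c v).p t = t • v := rfl

theorem ltr_X [Skh ω] (c : {c : ℝ // 0 < c}) (v b : V) :
    (ltr (ω := ω) c v).X b = (lv ω c v)⁻¹ * ω v b := rfl

theorem ltr_A [Skh ω] (c : {c : ℝ // 0 < c}) (v b : V) :
    (ltr (ω := ω) c v).A b = b + ((lv ω c v)⁻¹ * ω v b) • v := rfl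

/-- The object of a word. -/
noncomputable def obj [Skh ω] (c : {c : ℝ // 0 < c}) : List V → QO ω
  | [] => QO.one ω
  | v :: w => (ltr c v).mul (obj c w)

/-! ### Isomorphisms -/

variable [Skh ω]

theorem Iso.mul {Q Q' R R' : QO ω} (h : Iso Q Q') (h' : Iso R R') :
    Iso (Q.mul R) (Q'.mul R') := by
  obtain ⟨f, h1, h2, h3⟩ := h
  have hA := Iso.A_eq h'
  obtain ⟨g, k1, k2, k3⟩ := h'
  refine ⟨LinearEquiv.prodCongr f g, fun x y => ?_, fun x => ?_, fun b => ?_⟩
  · change Q'.L (f x.1) (f y.1) + R'.L (g x.2) (g y.2) - ω (Q'.p (f x.1)) (R'.p (g y.2)) =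
      Q.L x.1 y.1 + R.L x.2 y.2 - ω (Q.p x.1) (R.p y.2)
    rw [h1, k1, h2, k2]
  · change Q'.p (f x.1) + R'.p (g x.2) = Q.p x.1 + R.p x.2
    rw [h2, k2]
  · change (f (Q.X (R.A b)), g (R.X b)) = (Q'.X (R'.A b), R'.X b)
    rw [h3, k3, hA]

theorem mul_assoc_iso (Q R S : QO ω) : Iso ((Q.mul R).mul S) (Q.mul (R.mul S)) := by
  refine ⟨LinearEquiv.prodAssoc ℂ Q.E R.E S.E, fun x y => ?_, fun x => ?_, fun b => ?_⟩
  · obtain ⟨⟨x1, x2⟩, x3⟩ := x
    obtain ⟨⟨y1, y2⟩, y3⟩ := y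
    change Q.L x1 y1 + (R.L x2 y2 + S.L x3 y3 - ω (R.p x2) (S.p y3))
      - ω (Q.p x1) (R.p y2 + S.p y3) =
      (Q.L x1 y1 + R.L x2 y2 - ω (Q.p x1) (R.p y2)) + S.L x3 y3 - ω (Q.p x1 + R.p x2) (S.p y3)
    rw [map_add, map_add, LinearMap.add_apply]
    ring
  · obtain ⟨⟨x1, x2⟩, x3⟩ := x
    change Q.p x1 + (R.p x2 + S.p x3) = (Q.p x1 + R.p x2) + S.p x3
    abel
  · change (Q.X (R.A (S.A b)), (R.X (S.A b), S.X b)) = (Q.X ((R.mul S).A b), (R.X (S.A b), S.X b))
    rw [QO.mul_A]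

theorem one_mul_iso (Q : QO ω) : Iso ((QO.one ω).mul Q) Q := by
  refine ⟨{ toFun := fun x => x.2
            invFun := fun x => (PUnit.unit, x)
            map_add' := fun _ _ => rfl
            map_smul' := fun _ _ => rfl
            left_inv := fun _ => rfl
            right_inv := fun _ => rfl }, fun x y => ?_, fun x => ?_, fun b => ?_⟩
  · change Q.L x.2 y.2 = 0 + Q.L x.2 y.2 - ω 0 (Q.p y.2)
    rw [map_zero, LinearMap.zero_apply]
    ring
  · change Q.p x.2 = 0 + Q.p x.2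
    rw [zero_add]
  · rfl

theorem mul_one_iso (Q : QO ω) : Iso (Q.mul (QO.one ω)) Q := by
  refine ⟨{ toFun := fun x => x.1
            invFun := fun x => (x, PUnit.unit)
            map_add' := fun _ _ => rfl
            map_smul' := fun _ _ => rfl
            left_inv := fun _ => rfl
            right_inv := fun _ => rfl }, fun x y => ?_, fun x => ?_, fun b => ?_⟩
  · change Q.L x.1 y.1 = Q.L x.1 y.1 + 0 - ω (Q.p x.1) 0
    rw [map_zero]
    ring
  · change Q.p x.1 = Q.p x.1 + 0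
    rw [add_zero]
  · change Q.X ((QO.one ω).A b) = Q.X b
    rw [QO.one_A]

/-- The linear bijection of the Hurwitz move. -/
def isoSwapEquiv (a : ℂ) : (ℂ × ℂ) ≃ₗ[ℂ] (ℂ × ℂ) where
  toFun := fun x => (x.2, x.1 - x.2 * a)
  invFun := fun x => (x.2 + x.1 * a, x.1)
  map_add' := fun x y => by
    refine Prod.ext rfl ?_
    change x.1 + y.1 - (x.2 + y.2) * a = (x.1 - x.2 * a) + (y.1 - y.2 * a)
    ring
  map_smul' := fun c x => by
    refine Prod.ext rfl ?_
    change c * x.1 - (c * x.2) * a = c * (x.1 - x.2 * a)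
    ring
  left_inv := fun x => by
    refine Prod.ext ?_ rfl
    change x.1 - x.2 * a + x.2 * a = x.1
    ring
  right_inv := fun x => by
    refine Prod.ext rfl ?_
    change x.2 + x.1 * a - x.1 * a = x.2
    ring

/-- The letters act by unitary maps. -/
theorem ltr_A_om (c : {c : ℝ // 0 < c}) (v x y : V) :
    ω ((ltr (ω := ω) c v).A x) ((ltr (ω := ω) c v).A y) = ω x y := by
  have h0 := lv_ne (ω := ω) c.2 v
  have h0' : conj (lv ω c v) ≠ 0 := (map_ne_zero _).2 h0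
  have h1 := lv_sub (ω := ω) c v
  have h2 := Skh.sk (ω := ω) x v
  rw [ltr_A, ltr_A]
  simp only [map_add, LinearMap.map_smulₛₗ, map_smul, LinearMap.add_apply, LinearMap.smul_apply,
    smul_eq_mul, map_mul, map_inv₀]
  rw [h2, ← h1]
  field_simp
  ring

theorem lv_A (c : {c : ℝ // 0 < c}) (v u : V) :
    lv ω c ((ltr (ω := ω) c v).A u) = lv ω c u := by
  unfold lv
  rw [ltr_A_om]

/-- The Hurwitz move for two letters. -/
theorem letter_swap (c : {c : ℝ // 0 < c}) (v u : V) :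
    Iso ((ltr (ω := ω) c v).mul (ltr c u))
      ((ltr c ((ltr (ω := ω) c v).A u)).mul (ltr c v)) := by
  have h0 := lv_ne (ω := ω) c.2 v
  have h1 := lv_sub (ω := ω) c v
  have hl := lv_A (ω := ω) c v u
  have h3 := Skh.sk (ω := ω) u v
  obtain ⟨a, ha⟩ : ∃ a, a = (lv ω c v)⁻¹ * ω v u := ⟨_, rfl⟩
  have ha' : ω v u = a * lv ω c v := by
    rw [ha]
    field_simp
  refine ⟨isoSwapEquiv a, fun (x y : ℂ × ℂ) => ?_, fun (x : ℂ × ℂ) => ?_, fun b => ?_⟩
  · obtain ⟨x, t⟩ := x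
    obtain ⟨x', t'⟩ := y
    change conj t * t' * lv ω c ((ltr (ω := ω) c v).A u) +
        conj (x - t * a) * (x' - t' * a) * lv ω c v
      - ω (t • ((ltr (ω := ω) c v).A u)) ((x' - t' * a) • v) =
        conj x * x' * lv ω c v + conj t * t' * lv ω c u - ω (x • v) (t' • u)
    rw [hl, ltr_A, ← ha]
    simp only [map_add, LinearMap.map_smulₛₗ, map_smul, LinearMap.add_apply,
      LinearMap.smul_apply, smul_eq_mul, map_mul, map_sub, h3, ha', ← h1]
    ring
  · obtain ⟨x, t⟩ := x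
    change t • ((ltr (ω := ω) c v).A u) + (x - t * a) • v = x • v + t • u
    rw [ltr_A, ← ha, smul_add, smul_smul, sub_smul]
    abel
  · refine Prod.ext ?_ ?_
    · change (lv ω c u)⁻¹ * ω u b =
        (lv ω c ((ltr (ω := ω) c v).A u))⁻¹ * ω ((ltr (ω := ω) c v).A u)
          ((ltr (ω := ω) c v).A b)
      rw [hl, ltr_A_om]
    · change (lv ω c v)⁻¹ * ω v (b + ((lv ω c u)⁻¹ * ω u b) • u) -
        (lv ω c u)⁻¹ * ω u b * a = (lv ω c v)⁻¹ * ω v b
      rw [map_add, map_smul, smul_eq_mul, ha']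
      field_simp
      ring

omit [Skh ω] in
theorem lv_smul (c : {c : ℝ // 0 < c}) (v : V) {k : ℂ} (hk : conj k * k = 1) :
    lv ω c (k • v) = lv ω c v := by
  unfold lv
  have h1 : ω (k • v) (k • v) = conj k * (k * ω v v) := by
    simp only [LinearMap.map_smulₛₗ, LinearMap.smul_apply, smul_eq_mul, RingHom.id_apply]
    ring
  rw [h1]
  linear_combination -(ω v v / 2) * hk

theorem ltr_smul (c : {c : ℝ // 0 < c}) (v : V) {k : ℂ} (hk : conj k * k = 1) :
    Iso (ltr (ω := ω) c (k • v)) (ltr c v) := by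
  have hk0 : k ≠ 0 := by
    rintro rfl
    simp at hk
  have hl := lv_smul (ω := ω) c v hk
  refine ⟨LinearEquiv.smulOfNeZero ℂ ℂ k hk0, fun (x y : ℂ) => ?_, fun (x : ℂ) => ?_,
    fun b => ?_⟩
  · change conj (k * x) * (k * y) * lv ω c v = conj x * y * lv ω c (k • v)
    rw [hl, map_mul]
    linear_combination (conj x * y * lv ω c v) * hk
  · change (k * x) • v = x • (k • v)
    rw [smul_smul, mul_comm]
  · change k * ((lv ω c (k • v))⁻¹ * ω (k • v) b) = (lv ω c v)⁻¹ * ω v b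
    rw [hl, LinearMap.map_smulₛₗ, LinearMap.smul_apply, smul_eq_mul]
    linear_combination ((lv ω c v)⁻¹ * ω v b) * hk

theorem obj_append (c : {c : ℝ // 0 < c}) (w w' : List V) :
    Iso (obj (ω := ω) c (w ++ w')) ((obj c w).mul (obj c w')) := by
  induction w with
  | nil => exact (one_mul_iso _).symm
  | cons v w ih =>
    exact (Iso.mul (Iso.refl (ltr c v)) ih).trans (mul_assoc_iso (ltr c v) (obj c w) (obj c w')).symm

/-- The product of a list of objects. -/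
def prodQ : List (QO ω) → QO ω
  | [] => QO.one ω
  | Q :: l => Q.mul (prodQ l)

theorem obj_flatten (c : {c : ℝ // 0 < c}) (l : List (List V)) :
    Iso (obj (ω := ω) c l.flatten) (prodQ (l.map (obj c))) := by
  induction l with
  | nil => exact Iso.refl _
  | cons w l ih => exact (obj_append c w l.flatten).trans (Iso.mul (Iso.refl (obj c w)) ih)

/-- Powers. -/
def QO.pow (Q : QO ω) : ℕ → QO ω
  | 0 => QO.one ω
  | n + 1 => Q.mul (Q.pow n)

end qo

end Pool.Agent.Helper46.BMY
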