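import Pool.Agent.Helper81.SBA.Def
import Pool.Agent.Helper46.BMY.CQM

/-!
# The reduced Burau representation at a complex number of absolute value one

`p.l = 1 - λ` with `|λ| = 1`, `λ ≠ 1`.
-/

set_option autoImplicit false

open ComplexConjugate

namespace Pool.Agent.Helper46.BMY

open Pool.Agent.Helper81.SBA (BraidGroup sigma braidLift braidLift_sigma braid_induction sg run twist)

/-! ### Reflections -/

section refl

variable {V : Type} [AddCommGroup V] [Module ℂ V] {ω : V →ₗ⋆[ℂ] V →ₗ[ℂ] ℂ} [Skh ω]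

/-- The complex reflection of a letter. -/
noncomputable def trv (c : {c : ℝ // 0 < c}) (v : V) : V ≃ₗ[ℂ] V where
  toFun x := x + ((lv ω c v)⁻¹ * ω v x) • v
  invFun x := x - ((conj (lv ω c v))⁻¹ * ω v x) • v
  map_add' x y := by
    rw [map_add, mul_add, add_smul]
    abel
  map_smul' k x := by
    rw [map_smul, smul_eq_mul, RingHom.id_apply, smul_add, smul_smul]
    congr 2
    ring
  left_inv x := by
    have h0 := lv_ne (ω := ω) c.2 v
    have h0' : conj (lv ω c v) ≠ 0 := (map_ne_zero _).2 h0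
    have h1 := lv_sub (ω := ω) c v
    change x + ((lv ω c v)⁻¹ * ω v x) • v - ((conj (lv ω c v))⁻¹ *
      ω v (x + ((lv ω c v)⁻¹ * ω v x) • v)) • v = x
    rw [map_add, map_smul, smul_eq_mul, ← h1, add_sub_assoc, ← sub_smul]
    have h2 : (lv ω c v)⁻¹ * ω v x - (conj (lv ω c v))⁻¹ * (ω v x +
        (lv ω c v)⁻¹ * ω v x * (conj (lv ω c v) - lv ω c v)) = 0 := by
      field_simp
      ring
    rw [h2, zero_smul, add_zero]
  right_inv x := by
    have h0 := lv_ne (ω := ω) c.2 v
    have h0' : conj (lv ω c v) ≠ 0 := (map_ne_zero _).2 h0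
    have h1 := lv_sub (ω := ω) c v
    change x - ((conj (lv ω c v))⁻¹ * ω v x) • v + ((lv ω c v)⁻¹ *
      ω v (x - ((conj (lv ω c v))⁻¹ * ω v x) • v)) • v = x
    rw [map_sub, map_smul, smul_eq_mul, ← h1, sub_add, ← sub_smul]
    have h2 : (conj (lv ω c v))⁻¹ * ω v x - (lv ω c v)⁻¹ * (ω v x -
        (conj (lv ω c v))⁻¹ * ω v x * (conj (lv ω c v) - lv ω c v)) = 0 := by
      field_simp
      ring
    rw [h2, zero_smul, sub_zero]

theorem trv_apply (c : {c : ℝ // 0 < c}) (v x : V) :
    trv (ω := ω) c v x = x + ((lv ω c v)⁻¹ * ω v x) • v := rfl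

theorem trv_eq (c : {c : ℝ // 0 < c}) (v x : V) :
    trv (ω := ω) c v x = (ltr (ω := ω) c v).A x := rfl

theorem trv_om (c : {c : ℝ // 0 < c}) (v x y : V) :
    ω (trv (ω := ω) c v x) (trv (ω := ω) c v y) = ω x y := ltr_A_om c v x y

theorem trv_conj (c : {c : ℝ // 0 < c}) (s : V ≃ₗ[ℂ] V)
    (hs : ∀ x y, ω (s x) (s y) = ω x y) (v : V) :
    s * trv (ω := ω) c v * s⁻¹ = trv (ω := ω) c (s v) := by
  refine LinearEquiv.ext fun x => ?_
  have h1 : s (s⁻¹ x) = x := s.apply_symm_apply x
  have h2 : lv ω c (s v) = lv ω c v := by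
    unfold lv
    rw [hs]
  change s (trv (ω := ω) c v (s⁻¹ x)) = trv (ω := ω) c (s v) x
  rw [trv_apply, trv_apply, map_add, map_smul, h1, ← hs v, h1, h2]

theorem trv_smul (c : {c : ℝ // 0 < c}) (v : V) {k : ℂ} (hk : conj k * k = 1) :
    trv (ω := ω) c (k • v) = trv (ω := ω) c v := by
  refine LinearEquiv.ext fun x => ?_
  rw [trv_apply, trv_apply, lv_smul c v hk, LinearMap.map_smulₛₗ, LinearMap.smul_apply,
    smul_eq_mul, smul_smul]
  congr 2
  linear_combination ((lv ω c v)⁻¹ * ω v x) * hk

theorem trv_braid (c : {c : ℝ // 0 < c}) {v u : V} {k : ℂ} (hk : conj k * k = 1)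
    (h : trv (ω := ω) c v (trv (ω := ω) c u v) = k • u) :
    trv (ω := ω) c v * trv (ω := ω) c u * trv (ω := ω) c v =
      trv (ω := ω) c u * trv (ω := ω) c v * trv (ω := ω) c u := by
  have h1 := trv_conj c (trv (ω := ω) c v * trv (ω := ω) c u) (fun x y => by
    change ω (trv (ω := ω) c v (trv (ω := ω) c u x)) (trv (ω := ω) c v (trv (ω := ω) c u y)) = _
    rw [trv_om, trv_om]) v
  have h2 : (trv (ω := ω) c v * trv (ω := ω) c u) v = k • u := h
  rw [h2, trv_smul c u hk] at h1
  rw [mul_inv_eq_iff_eq_mul] at h1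
  rw [h1, mul_assoc]

theorem trv_comm (c : {c : ℝ // 0 < c}) {v u : V} (h : ω v u = 0) :
    trv (ω := ω) c v * trv (ω := ω) c u = trv (ω := ω) c u * trv (ω := ω) c v := by
  have h1 := trv_conj c (trv (ω := ω) c v) (trv_om c v) u
  have h2 : trv (ω := ω) c v u = u := by
    rw [trv_apply, h, mul_zero, zero_smul, add_zero]
  rw [h2, mul_inv_eq_iff_eq_mul] at h1
  exact h1

/-- The vector of a reflection is unique up to a factor of absolute value one. -/
theorem trv_inj (c : {c : ℝ // 0 < c}) {v u : V} (h : trv (ω := ω) c v = trv (ω := ω) c u)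
    (hl : lv ω c v = lv ω c u) (hv : ∃ y, ω v y ≠ 0) :
    ∃ k : ℂ, conj k * k = 1 ∧ v = k • u := by
  obtain ⟨y, hy⟩ := hv
  have h0 := lv_ne (ω := ω) c.2 u
  have h1 : trv (ω := ω) c v y = trv (ω := ω) c u y := by rw [h]
  rw [trv_apply, trv_apply, hl] at h1
  have h2 : ((lv ω c u)⁻¹ * ω v y) • v = ((lv ω c u)⁻¹ * ω u y) • u := add_left_cancel h1
  have h3 : v = (ω u y / ω v y) • u := by
    have h4 : ((lv ω c u) * (ω v y)⁻¹) • (((lv ω c u)⁻¹ * ω v y) • v) =
        ((lv ω c u) * (ω v y)⁻¹) • (((lv ω c u)⁻¹ * ω u y) • u) := by rw [h2]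
    rw [smul_smul, smul_smul] at h4
    have h5 : lv ω c u * (ω v y)⁻¹ * ((lv ω c u)⁻¹ * ω v y) = 1 := by
      field_simp
    have h6 : lv ω c u * (ω v y)⁻¹ * ((lv ω c u)⁻¹ * ω u y) = ω u y / ω v y := by
      field_simp
    rw [h5, h6, one_smul] at h4
    exact h4
  refine ⟨ω u y / ω v y, ?_, h3⟩
  have h7 : ω v y = conj (ω u y / ω v y) * ω u y := by
    have h8 : ω v y = ω ((ω u y / ω v y) • u) y := congrArg (fun z => ω z y) h3
    rw [LinearMap.map_smulₛₗ, LinearMap.smul_apply, smul_eq_mul] at h8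
    exact h8
  have h9 : conj (ω u y / ω v y) * (ω u y / ω v y) = (conj (ω u y / ω v y) * ω u y) / ω v y := by
    ring
  rw [h9, ← h7, div_self hy]

end refl

/-! ### The Burau form -/

/-- The parameter `l = 1 - λ`. -/
structure Prm where
  l : ℂ
  h0 : l ≠ 0
  h1 : l + conj l = l * conj l

theorem Prm.re_pos (p : Prm) : 0 < p.l.re := by
  have h := congrArg Complex.re p.h1
  rw [Complex.add_re, Complex.conj_re, Complex.mul_conj, Complex.ofReal_re] at h
  have h2 := Complex.normSq_pos.2 p.h0
  linarith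

/-- The real part of `l`. -/
noncomputable def Prm.c (p : Prm) : {c : ℝ // 0 < c} := ⟨p.l.re, p.re_pos⟩

/-- `-conj l / l = 1 - conj l`. -/
theorem Prm.div (p : Prm) : -conj p.l = (1 - conj p.l) * p.l := by
  linear_combination -p.h1

theorem Prm.unit (p : Prm) : conj (1 - conj p.l) * (1 - conj p.l) = 1 := by
  rw [map_sub, map_one, Complex.conj_conj]
  linear_combination -p.h1

/-- The matrix of the form. -/
noncomputable def J (p : Prm) (i j : ℕ) : ℂ :=
  if i = j then conj p.l - p.l else if i + 1 = j then p.l else if j + 1 = i then -conj p.l else 0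

theorem J_skew (p : Prm) (i j : ℕ) : J p i j = - conj (J p j i) := by
  unfold J
  by_cases h1 : i = j
  · rw [if_pos h1, if_pos h1.symm, map_sub, Complex.conj_conj]
    ring
  · rw [if_neg h1, if_neg (Ne.symm h1)]
    by_cases h2 : i + 1 = j
    · rw [if_pos h2, if_neg (by omega), if_pos h2, map_neg, Complex.conj_conj, neg_neg]
    · rw [if_neg h2]
      by_cases h3 : j + 1 = i
      · rw [if_pos h3, if_pos h3]
      · rw [if_neg h3, if_neg h3, if_neg h2, map_zero, neg_zero]

/-- The skew-hermitian form on `ℂ ^ m`. -/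
noncomputable def om (p : Prm) (m : ℕ) : (Fin m → ℂ) →ₗ⋆[ℂ] (Fin m → ℂ) →ₗ[ℂ] ℂ :=
  LinearMap.mk₂'ₛₗ (starRingEnd ℂ) (RingHom.id ℂ)
    (fun x y => ∑ i, ∑ j, conj (x i) * J p i.val j.val * y j)
    (fun x x' y => by
      simp only [← Finset.sum_add_distrib, Pi.add_apply, map_add]
      refine Finset.sum_congr rfl fun i _ => Finset.sum_congr rfl fun j _ => ?_
      ring)
    (fun c x y => by
      simp only [smul_eq_mul, Finset.mul_sum, Pi.smul_apply, map_mul]
      refine Finset.sum_congr rfl fun i _ => Finset.sum_congr rfl fun j _ => ?_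
      ring)
    (fun x y y' => by
      simp only [← Finset.sum_add_distrib, Pi.add_apply]
      refine Finset.sum_congr rfl fun i _ => Finset.sum_congr rfl fun j _ => ?_
      ring)
    (fun c x y => by
      simp only [smul_eq_mul, Finset.mul_sum, Pi.smul_apply, RingHom.id_apply]
      refine Finset.sum_congr rfl fun i _ => Finset.sum_congr rfl fun j _ => ?_
      ring)

/-- The basis vector number `i` (zero if `m ≤ i`). -/
noncomputable def vb (m i : ℕ) : Fin m → ℂ := fun j => if j.val = i then 1 else 0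

variable {p : Prm} {m : ℕ}

theorem om_apply (x y : Fin m → ℂ) :
    om p m x y = ∑ i, ∑ j, conj (x i) * J p i.val j.val * y j := rfl

instance : Skh (om p m) where
  sk x y := by
    rw [om_apply, om_apply, Finset.sum_comm, map_sum, ← Finset.sum_neg_distrib]
    refine Finset.sum_congr rfl fun i _ => ?_
    rw [map_sum, ← Finset.sum_neg_distrib]
    refine Finset.sum_congr rfl fun j _ => ?_
    rw [J_skew, map_mul, map_mul, Complex.conj_conj]
    ring

theorem om_vb {i j : ℕ} (hi : i < m) (hj : j < m) : om p m (vb m i) (vb m j) = J p i j := by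
  rw [om_apply, Finset.sum_eq_single (⟨i, hi⟩ : Fin m), Finset.sum_eq_single (⟨j, hj⟩ : Fin m)]
  · simp [vb]
  · intro y _ hy
    have hy' : y.val ≠ j := fun h => hy (Fin.ext h)
    simp [vb, hy']
  · intro h
    exact absurd (Finset.mem_univ _) h
  · intro x _ hx
    have hx' : x.val ≠ i := fun h => hx (Fin.ext h)
    refine Finset.sum_eq_zero fun y _ => ?_
    simp [vb, hx']
  · intro h
    exact absurd (Finset.mem_univ _) h

/-- The vectors of the letters. -/
def IsV (p : Prm) (v : Fin m → ℂ) : Prop := om p m v v = conj p.l - p.l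

theorem IsV.lv {v : Fin m → ℂ} (h : IsV p v) : lv (om p m) p.c v = p.l := by
  unfold BMY.lv
  rw [h]
  apply Complex.ext
  · simp [Prm.c]
  · simp [Prm.c]
    ring

theorem isV_vb {i : ℕ} (hi : i < m) : IsV p (vb m i) := by
  unfold IsV
  rw [om_vb hi hi, J, if_pos rfl]

theorem trv_vb {i j : ℕ} (hi : i < m) (hj : j < m) :
    trv (ω := om p m) p.c (vb m i) (vb m j) = vb m j + (p.l⁻¹ * J p i j) • vb m i := by
  rw [trv_apply, (isV_vb hi).lv, om_vb hi hj]

theorem trv_vb_self {i : ℕ} (hi : i < m) :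
    trv (ω := om p m) p.c (vb m i) (vb m i) = (-(1 - conj p.l)) • vb m i := by
  rw [trv_vb hi hi, J, if_pos rfl]
  have h : 1 + p.l⁻¹ * (conj p.l - p.l) = -(1 - conj p.l) := by
    have h0 := p.h0
    have h1 := p.div
    field_simp
    linear_combination -h1
  rw [← h, add_smul, one_smul]

theorem trv_vb_succ {i : ℕ} (hi : i + 1 < m) :
    trv (ω := om p m) p.c (vb m i) (vb m (i + 1)) = vb m (i + 1) + vb m i := by
  rw [trv_vb (by omega) hi, J, if_neg (by omega), if_pos rfl, inv_mul_cancel₀ p.h0, one_smul]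

theorem trv_vb_pred {i : ℕ} (hi : i + 1 < m) :
    trv (ω := om p m) p.c (vb m (i + 1)) (vb m i) =
      vb m i + (1 - conj p.l) • vb m (i + 1) := by
  rw [trv_vb hi (by omega), J, if_neg (by omega), if_neg (by omega), if_pos rfl]
  have h : p.l⁻¹ * -conj p.l = 1 - conj p.l := by
    have h0 := p.h0
    have h1 := p.div
    field_simp
    linear_combination h1
  rw [h]

theorem trv_vb_far {i j : ℕ} (hi : i < m) (hj : j < m) (h : i + 1 < j ∨ j + 1 < i) :
    trv (ω := om p m) p.c (vb m i) (vb m j) = vb m j := by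
  rw [trv_vb hi hj, J, if_neg (by omega), if_neg (by omega), if_neg (by omega), mul_zero,
    zero_smul, add_zero]

variable (p m)

/-- The representation of the braid group. -/
noncomputable def rep : BraidGroup m →* ((Fin m → ℂ) ≃ₗ[ℂ] (Fin m → ℂ)) :=
  braidLift (fun i => trv (ω := om p m) p.c (vb m i))
    (fun i j h => by
      obtain ⟨j, hj⟩ := j
      obtain rfl : i.val + 1 = j := h
      refine trv_braid p.c p.unit ?_
      rw [trv_vb_pred hj, map_add, map_smul, trv_vb_self i.2, trv_vb_succ hj, smul_add]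
      module)
    (fun i j h => trv_comm p.c (by
      rw [om_vb i.2 j.2, J, if_neg (by omega), if_neg (by omega), if_neg (by omega)]))

variable {p m}

theorem rep_sigma (i : Fin m) : rep p m (sigma i) = trv (ω := om p m) p.c (vb m i) :=
  braidLift_sigma _ _ _ i

theorem rep_om (g : BraidGroup m) (x y : Fin m → ℂ) :
    om p m (rep p m g x) (rep p m g y) = om p m x y := by
  induction g using braid_induction generalizing x y with
  | h1 =>
    rw [map_one]
    rfl
  | hm g i ih =>
    rw [map_mul, rep_sigma]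
    change om p m (rep p m g (trv _ _ x)) (rep p m g (trv _ _ y)) = _
    rw [ih, trv_om]
  | hi g i ih =>
    rw [map_mul, map_inv, rep_sigma]
    change om p m (rep p m g ((trv _ _)⁻¹ x)) (rep p m g ((trv _ _)⁻¹ y)) = _
    rw [ih, ← trv_om p.c (vb m i)]
    have h1 : ∀ z, trv (ω := om p m) p.c (vb m i) ((trv (ω := om p m) p.c (vb m i))⁻¹ z) = z :=
      fun z => (trv (ω := om p m) p.c (vb m i)).apply_symm_apply z
    rw [h1, h1]

theorem rep_conj (g : BraidGroup m) (i : Fin m) :
    rep p m (g * sigma i * g⁻¹) = trv (ω := om p m) p.c (rep p m g (vb m i)) := by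
  rw [map_mul, map_mul, map_inv, rep_sigma]
  exact trv_conj p.c _ (rep_om g) _

theorem isV_rep (g : BraidGroup m) (i : Fin m) : IsV p (rep p m g (vb m i)) := by
  unfold IsV
  rw [rep_om]
  exact isV_vb i.2

theorem vb_ne (hm : 2 ≤ m) (g : BraidGroup m) (i : Fin m) :
    ∃ y, om p m (rep p m g (vb m i)) y ≠ 0 := by
  have hi := i.2
  by_cases h : i.val + 1 < m
  · refine ⟨rep p m g (vb m (i.val + 1)), ?_⟩
    rw [rep_om, om_vb hi h, J, if_neg (by omega), if_pos rfl]
    exact p.h0
  · refine ⟨rep p m g (vb m (i.val - 1)), ?_⟩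
    rw [rep_om, om_vb hi (by omega), J, if_neg (by omega), if_neg (by omega), if_pos (by omega)]
    exact neg_ne_zero.2 ((map_ne_zero _).2 p.h0)

/-- Letters give vectors up to a factor of absolute value one. -/
theorem vec_unique (hm : 2 ≤ m) {g h : BraidGroup m} {i j : Fin m}
    (e : g * sigma i * g⁻¹ = h * sigma j * h⁻¹) :
    ∃ k : ℂ, conj k * k = 1 ∧ rep p m g (vb m i) = k • rep p m h (vb m j) := by
  have h1 : trv (ω := om p m) p.c (rep p m g (vb m i)) =
      trv (ω := om p m) p.c (rep p m h (vb m j)) := by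
    rw [← rep_conj, ← rep_conj, e]
  exact trv_inj p.c h1 (by rw [(isV_rep g i).lv, (isV_rep h j).lv]) (vb_ne hm g i)

/-! ### The full twist acts trivially if `λ ^ (m + 1) = 1` -/

private theorem cox_sg (j : ℕ) (hj : j < m) :
    rep p m (sg m j) = trv (ω := om p m) p.c (vb m j) := by
  unfold sg
  rw [dif_pos hj, rep_sigma]

private theorem cox_run_succ (n : ℕ) (hn : n < m) (x : Fin m → ℂ) :
    rep p m (run m 0 (n + 1)) x = rep p m (run m 0 n) (trv (ω := om p m) p.c (vb m n) x) := by
  change rep p m (run m 0 n * sg m (0 + n)) x = _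
  rw [map_mul, LinearEquiv.mul_apply, zero_add, cox_sg n hn]

private theorem cox_fix {n i : ℕ} (hi : n < i) (him : i < m) :
    rep p m (run m 0 n) (vb m i) = vb m i := by
  induction n with
  | zero =>
    change rep p m 1 (vb m i) = vb m i
    rw [map_one]
    rfl
  | succ n ih =>
    rw [cox_run_succ _ (by omega), trv_vb_far (by omega) him (by omega)]
    exact ih (by omega)

/-- `c = T_0 T_1 ⋯ T_{n-1}` sends `v_i` to `conj λ v_{i+1}` for `i + 1 < n`. -/
theorem cox_shift {n i : ℕ} (hi : i + 1 < n) (hn : n ≤ m) :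
    rep p m (run m 0 n) (vb m i) = (1 - conj p.l) • vb m (i + 1) := by
  induction n with
  | zero => omega
  | succ n ih =>
    rw [cox_run_succ _ (by omega)]
    by_cases h : i + 1 < n
    · rw [trv_vb_far (by omega) (by omega) (by omega)]
      exact ih h (by omega)
    · obtain rfl : n = i + 1 := by omega
      rw [trv_vb_pred (by omega), cox_run_succ _ (by omega)]
      have h1 : trv (ω := om p m) p.c (vb m i) (vb m i + (1 - conj p.l) • vb m (i + 1)) =
          (1 - conj p.l) • vb m (i + 1) := by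
        rw [map_add, map_smul, trv_vb_self (by omega), trv_vb_succ (by omega)]
        module
      rw [h1, map_smul, cox_fix (by omega) (by omega)]

theorem cox_last {n : ℕ} (hn : n + 1 ≤ m) :
    rep p m (run m 0 (n + 1)) (vb m n) =
      (-(1 - conj p.l)) • ∑ i ∈ Finset.range (n + 1), vb m i := by
  induction n with
  | zero =>
    rw [cox_run_succ _ (by omega), trv_vb_self (by omega), Finset.sum_range_one]
    change rep p m 1 _ = _
    rw [map_one]
    rfl
  | succ n ih =>
    have h1 := ih (by omega)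
    rw [cox_run_succ _ (by omega), trv_vb_self (by omega), map_smul] at h1
    rw [cox_run_succ _ (by omega), trv_vb_self (by omega), map_smul, cox_run_succ _ (by omega),
      trv_vb_succ (by omega), map_add, smul_add, h1, cox_fix (by omega) (by omega),
      Finset.sum_range_succ (n := n + 1), smul_add, add_comm]

/-- The full twist acts trivially. -/
theorem rep_twist (hm1 : 1 ≤ m) (hp : (1 - p.l) ^ (m + 1) = 1) :
    rep p m (twist m 0 (m + 1)) = 1 := by
  obtain ⟨c, hc⟩ : ∃ c, c = rep p m (run m 0 m) := ⟨_, rfl⟩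
  obtain ⟨t, ht⟩ : ∃ t, t = 1 - conj p.l := ⟨_, rfl⟩
  have htm : t ^ (m + 1) = 1 := by
    have h1 := congrArg conj hp
    rw [map_pow, map_sub, map_one, ← ht] at h1
    exact h1
  have ht0 : t ≠ 0 := by
    rintro rfl
    rw [zero_pow (by omega)] at htm
    exact zero_ne_one htm
  have e0 : rep p m (twist m 0 (m + 1)) = c ^ (m + 1) := by
    unfold twist
    rw [map_pow, hc, Nat.add_sub_cancel]
  rw [e0]
  have hshift : ∀ i, i + 1 < m → c (vb m i) = t • vb m (i + 1) := by
    intro i hi
    rw [hc, ht]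
    exact cox_shift hi le_rfl
  have hlast : c (vb m (m - 1)) = (-t) • ∑ i ∈ Finset.range m, vb m i := by
    have h1 := cox_last (p := p) (m := m) (n := m - 1) (by omega)
    rw [Nat.sub_add_cancel hm1] at h1
    rw [hc, ht]
    exact h1
  have hsum : c (∑ i ∈ Finset.range m, vb m i) = (-t) • vb m 0 := by
    have h1 : ∑ i ∈ Finset.range m, vb m i =
        (∑ i ∈ Finset.range (m - 1), vb m i) + vb m (m - 1) := by
      rw [← Finset.sum_range_succ, Nat.sub_add_cancel hm1]
    have h2 : ∑ i ∈ Finset.range m, vb m i =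
        (∑ i ∈ Finset.range (m - 1), vb m (i + 1)) + vb m 0 := by
      rw [← Finset.sum_range_succ', Nat.sub_add_cancel hm1]
    have h3 : c (∑ i ∈ Finset.range (m - 1), vb m i) =
        t • ∑ i ∈ Finset.range (m - 1), vb m (i + 1) := by
      rw [map_sum, Finset.smul_sum]
      refine Finset.sum_congr rfl fun i hi => hshift i ?_
      have := Finset.mem_range.1 hi
      omega
    rw [h1, map_add, h3, hlast, h2]
    module
  have hpow : ∀ k, k < m → (c ^ k) (vb m 0) = t ^ k • vb m k := by
    intro k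
    induction k with
    | zero =>
      intro _
      rw [pow_zero, pow_zero, one_smul]
      rfl
    | succ k ih =>
      intro hk
      rw [pow_succ', LinearEquiv.mul_apply, ih (by omega), map_smul, hshift k hk, pow_succ,
        smul_smul]
  have hm0 : (c ^ (m + 1)) (vb m 0) = vb m 0 := by
    have h1 : c ^ (m + 1) = c * (c * c ^ (m - 1)) := by
      rw [← pow_succ', ← pow_succ']
      congr 1
      omega
    have h2 : t ^ (m - 1) * (-t) * (-t) = 1 := by
      have h3 : t ^ (m - 1) * (-t) * (-t) = t ^ (m - 1 + 2) := by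
        rw [pow_add]
        ring
      rw [h3, show m - 1 + 2 = m + 1 by omega, htm]
    rw [h1, LinearEquiv.mul_apply, LinearEquiv.mul_apply, hpow (m - 1) (by omega), map_smul,
      map_smul, hlast, map_smul, hsum, smul_smul, smul_smul, h2, one_smul]
  have hall : ∀ k, k < m → (c ^ (m + 1)) (vb m k) = vb m k := by
    intro k hk
    have h1 : (c ^ (m + 1)) ((c ^ k) (vb m 0)) = (c ^ k) (vb m 0) := by
      rw [← LinearEquiv.mul_apply, ← pow_add, add_comm, pow_add, LinearEquiv.mul_apply, hm0]
    rw [hpow k hk, map_smul] at h1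
    exact smul_right_injective _ (pow_ne_zero k ht0) h1
  apply LinearEquiv.ext
  intro x
  have hx : x = ∑ i : Fin m, x i • vb m i := by
    funext j
    rw [Finset.sum_apply, Finset.sum_eq_single j]
    · simp [vb]
    · intro i _ hij
      have : ¬ j.val = i.val := fun h => hij (Fin.ext h.symm)
      simp [vb, this]
    · intro h
      exact absurd (Finset.mem_univ j) h
  change (c ^ (m + 1)) x = x
  conv_lhs => rw [hx]
  rw [map_sum]
  conv_rhs => rw [hx]
  refine Finset.sum_congr rfl fun i _ => ?_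
  rw [map_smul, hall i i.2]

end Pool.Agent.Helper46.BMY
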