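import Pool.Agent.Helper46.BMY.CQ

/-!
# The index of a quadratic object
-/

set_option autoImplicit false

open ComplexConjugate

namespace Pool.Agent.Helper46.BMY

open Module

section sig

variable {V : Type} [AddCommGroup V] [Module ℂ V] {ω : V →ₗ⋆[ℂ] V →ₗ[ℂ] ℂ} [Skh ω]

/-- There is a subspace of dimension at least `n` on which `Re L x x ≥ 0`. -/
def QO.Psd (Q : QO ω) (n : ℕ) : Prop :=
  ∃ W : Submodule ℂ Q.E, n ≤ finrank ℂ W ∧ ∀ x ∈ W, 0 ≤ (Q.L x x).re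

/-- There is a subspace of dimension at least `n` on which `Re L x x < 0` for `x ≠ 0`. -/
def QO.Neg (Q : QO ω) (n : ℕ) : Prop :=
  ∃ W : Submodule ℂ Q.E, n ≤ finrank ℂ W ∧ ∀ x ∈ W, x ≠ 0 → (Q.L x x).re < 0

theorem finrank_prodW {E F : Type} [AddCommGroup E] [Module ℂ E] [Module.Finite ℂ E]
    [AddCommGroup F] [Module ℂ F] [Module.Finite ℂ F] (W : Submodule ℂ E) (W' : Submodule ℂ F) :
    finrank ℂ (W.prod W') = finrank ℂ W + finrank ℂ W' := by
  rw [← Module.finrank_prod]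
  exact LinearEquiv.finrank_eq
    { toFun := fun z => (⟨z.1.1, z.2.1⟩, ⟨z.1.2, z.2.2⟩)
      invFun := fun z => ⟨(z.1.1, z.2.1), ⟨z.1.2, z.2.2⟩⟩
      map_add' := fun _ _ => rfl
      map_smul' := fun _ _ => rfl
      left_inv := fun _ => rfl
      right_inv := fun _ => rfl }

omit [Skh ω] in
theorem psd_iso {Q R : QO ω} (h : Iso Q R) {n : ℕ} (hQ : Q.Psd n) : R.Psd n := by
  obtain ⟨f, h1, -, -⟩ := h
  obtain ⟨W, hW, h2⟩ := hQ
  refine ⟨W.map f.toLinearMap, ?_, ?_⟩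
  · rw [LinearEquiv.finrank_map_eq]
    exact hW
  · rintro _ ⟨x, hx, rfl⟩
    rw [LinearEquiv.coe_coe, h1]
    exact h2 x hx

omit [Skh ω] in
theorem neg_iso {Q R : QO ω} (h : Iso Q R) {n : ℕ} (hQ : Q.Neg n) : R.Neg n := by
  obtain ⟨f, h1, -, -⟩ := h
  obtain ⟨W, hW, h2⟩ := hQ
  refine ⟨W.map f.toLinearMap, ?_, ?_⟩
  · rw [LinearEquiv.finrank_map_eq]
    exact hW
  · rintro _ ⟨x, hx, rfl⟩ hne
    rw [LinearEquiv.coe_coe, h1]
    refine h2 x hx fun h0 => hne ?_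
    rw [h0, map_zero]

omit [Skh ω] in
theorem psd_neg {Q : QO ω} {a b : ℕ} (h : Q.Psd a) (h' : Q.Neg b) : a + b ≤ finrank ℂ Q.E := by
  obtain ⟨W, hW, h1⟩ := h
  obtain ⟨W', hW', h2⟩ := h'
  have h3 : W ⊓ W' = ⊥ := by
    rw [eq_bot_iff]
    rintro x ⟨hx, hx'⟩
    rw [Submodule.mem_bot]
    by_contra hne
    have h4 := h1 x hx
    have h5 := h2 x hx' hne
    linarith
  have h4 := Submodule.finrank_sup_add_finrank_inf_eq W W'
  rw [h3, finrank_bot, add_zero] at h4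
  have h5 := Submodule.finrank_le (W ⊔ W')
  omega

theorem finrank_mul (Q R : QO ω) :
    finrank ℂ (Q.mul R).E = finrank ℂ Q.E + finrank ℂ R.E :=
  Module.finrank_prod (R := ℂ) (M := Q.E) (M' := R.E)

/-- The isometry. -/
theorem split (Q R : QO ω) (hQ : ∀ b, Q.p (Q.X b) = 0) :
    ∃ f : (Q.E × R.E) ≃ₗ[ℂ] (Q.mul R).E,
      ∀ x y, ((Q.mul R).L (f (x, y)) (f (x, y))).re = (Q.L x x).re + (R.L y y).re := by
  let g : (Q.E × R.E) ≃ₗ[ℂ] (Q.E × R.E) :=
    { toFun := fun z => (z.1 + (1 / 2 : ℂ) • Q.X (R.p z.2), z.2)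
      invFun := fun z => (z.1 - (1 / 2 : ℂ) • Q.X (R.p z.2), z.2)
      map_add' := fun z w => by
        refine Prod.ext ?_ rfl
        simp only [Prod.fst_add, Prod.snd_add, map_add, smul_add]
        abel
      map_smul' := fun c z => by
        refine Prod.ext ?_ rfl
        simp only [Prod.smul_fst, Prod.smul_snd, map_smul, RingHom.id_apply, smul_add]
        rw [smul_comm]
      left_inv := fun z => Prod.ext (add_sub_cancel_right _ _) rfl
      right_inv := fun z => Prod.ext (sub_add_cancel _ _) rfl }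
  refine ⟨g, fun x y => ?_⟩
  have h1 := Q.hX x (R.p y)
  have h2 := Q.rel (Q.X (R.p y)) x
  have h3 := Q.hX (Q.X (R.p y)) (R.p y)
  rw [hQ, map_zero, LinearMap.zero_apply, neg_zero, h1] at h2
  rw [hQ, map_zero, LinearMap.zero_apply] at h3
  have h4 : (Q.mul R).L (g (x, y)) (g (x, y)) = Q.L x x + R.L y y +
      (1 / 2 : ℂ) * (conj (ω (Q.p x) (R.p y)) - ω (Q.p x) (R.p y)) := by
    change Q.L (x + (1 / 2 : ℂ) • Q.X (R.p y)) (x + (1 / 2 : ℂ) • Q.X (R.p y)) + R.L y y -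
      ω (Q.p (x + (1 / 2 : ℂ) • Q.X (R.p y))) (R.p y) = _
    have h5 : conj (1 / 2 : ℂ) = 1 / 2 := by
      rw [map_div₀, map_one, map_ofNat]
    simp only [map_add, map_smul, LinearMap.map_smulₛₗ, LinearMap.add_apply,
      LinearMap.smul_apply, smul_eq_mul, hQ, smul_zero, LinearMap.zero_apply, map_zero, h1, h3, h5]
    linear_combination (1 / 2 : ℂ) * h2
  have h6 : ((1 / 2 : ℂ) * (conj (ω (Q.p x) (R.p y)) - ω (Q.p x) (R.p y))).re = 0 := by
    simp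
  refine (congrArg Complex.re h4).trans ?_
  rw [Complex.add_re, Complex.add_re, h6, add_zero]

theorem psd_mul {Q R : QO ω} (hQ : ∀ b, Q.p (Q.X b) = 0) {a b : ℕ} (h : Q.Psd a)
    (h' : R.Psd b) : (Q.mul R).Psd (a + b) := by
  obtain ⟨W, hW, h1⟩ := h
  obtain ⟨W', hW', h2⟩ := h'
  obtain ⟨f, hf⟩ := split Q R hQ
  refine ⟨(W.prod W').map f.toLinearMap, ?_, ?_⟩
  · rw [LinearEquiv.finrank_map_eq, finrank_prodW]
    omega
  · rintro _ ⟨⟨x, y⟩, ⟨hx, hy⟩, rfl⟩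
    rw [LinearEquiv.coe_coe, hf]
    exact add_nonneg (h1 x hx) (h2 y hy)

theorem neg_mul' {Q R : QO ω} (hQ : ∀ b, Q.p (Q.X b) = 0) {a b : ℕ} (h : Q.Neg a)
    (h' : R.Neg b) : (Q.mul R).Neg (a + b) := by
  obtain ⟨W, hW, h1⟩ := h
  obtain ⟨W', hW', h2⟩ := h'
  obtain ⟨f, hf⟩ := split Q R hQ
  refine ⟨(W.prod W').map f.toLinearMap, ?_, ?_⟩
  · rw [LinearEquiv.finrank_map_eq, finrank_prodW]
    omega
  · rintro _ ⟨⟨x, y⟩, ⟨hx, hy⟩, rfl⟩ hne
    rw [LinearEquiv.coe_coe, hf]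
    by_cases hx0 : x = 0
    · have hy0 : y ≠ 0 := by
        rintro rfl
        apply hne
        rw [hx0, LinearEquiv.coe_coe]
        exact map_zero f
      rw [hx0, map_zero, Complex.zero_re, zero_add]
      exact h2 y hy hy0
    · by_cases hy0 : y = 0
      · rw [hy0, map_zero, Complex.zero_re, add_zero]
        exact h1 x hx hx0
      · exact add_neg (h1 x hx hx0) (h2 y hy hy0)

theorem pow_psd {Z : QO ω} {P : ℕ} (hZ : ∀ b, Z.p (Z.X b) = 0) (hP : Z.Psd P)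
    {R : QO ω} {n : ℕ} (hR : R.Psd n) (k : ℕ) : ((Z.pow k).mul R).Psd (k * P + n) := by
  induction k with
  | zero =>
    rw [Nat.zero_mul, Nat.zero_add]
    exact psd_iso (one_mul_iso R).symm hR
  | succ k ih =>
    have h1 := psd_mul hZ hP ih
    have h2 := psd_iso (mul_assoc_iso Z (Z.pow k) R).symm h1
    have h3 : P + (k * P + n) = (k + 1) * P + n := by ring
    rw [h3] at h2
    exact h2

theorem pow_neg {Z : QO ω} {N : ℕ} (hZ : ∀ b, Z.p (Z.X b) = 0) (hN : Z.Neg N)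
    {R : QO ω} {n : ℕ} (hR : R.Neg n) (k : ℕ) : ((Z.pow k).mul R).Neg (k * N + n) := by
  induction k with
  | zero =>
    rw [Nat.zero_mul, Nat.zero_add]
    exact neg_iso (one_mul_iso R).symm hR
  | succ k ih =>
    have h1 := neg_mul' hZ hN ih
    have h2 := neg_iso (mul_assoc_iso Z (Z.pow k) R).symm h1
    have h3 : N + (k * N + n) = (k + 1) * N + n := by ring
    rw [h3] at h2
    exact h2

theorem pow_dim (Z : QO ω) (k : ℕ) :
    finrank ℂ (Z.pow k).E = k * finrank ℂ Z.E := by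
  induction k with
  | zero =>
    rw [Nat.zero_mul]
    exact Module.finrank_zero_of_subsingleton (R := ℂ) (M := PUnit)
  | succ k ih =>
    have h1 : finrank ℂ (Z.pow (k + 1)).E = finrank ℂ Z.E + finrank ℂ (Z.pow k).E :=
      finrank_mul Z (Z.pow k)
    rw [h1, ih]
    ring

/-- **The index theorem.** -/
theorem index_le {Z Q : QO ω} {P N k r n : ℕ} (hZ : ∀ b, Z.p (Z.X b) = 0)
    (hd : finrank ℂ Z.E = P + N) (hP : Z.Psd P) (hN : Z.Neg N)
    (h : Iso ((Z.pow k).mul Q) ((Z.pow k).mul (Z.pow r))) (hQ : Q.Psd n) : n ≤ r * P := by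
  have h1 := psd_iso h (pow_psd hZ hP hQ k)
  have h0 : (QO.one ω).Neg 0 := ⟨⊥, Nat.zero_le _, fun x hx hx0 =>
    absurd ((Submodule.mem_bot ℂ).1 hx) hx0⟩
  have h0' : (Z.pow r).Neg (r * N + 0) := neg_iso (mul_one_iso _) (pow_neg hZ hN h0 r)
  have h2 := pow_neg hZ hN h0' k
  have h3 := psd_neg h1 h2
  rw [finrank_mul, pow_dim, pow_dim, hd] at h3
  have h4 : k * (P + N) = k * P + k * N := by ring
  have h5 : r * (P + N) = r * P + r * N := by ring
  rw [h4, h5] at h3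
  omega

/-! ### Lower bounds -/

/-- There is a subspace of `ker p` of dimension at least `n` on which `Re L x x ≥ 0`. -/
def QO.Loc (Q : QO ω) (n : ℕ) : Prop :=
  ∃ F : Submodule ℂ Q.E, n ≤ finrank ℂ F ∧ ∀ x ∈ F, Q.p x = 0 ∧ 0 ≤ (Q.L x x).re

omit [Skh ω] in
theorem loc_mono {Q : QO ω} {n n' : ℕ} (h : n ≤ n') (hQ : Q.Loc n') : Q.Loc n := by
  obtain ⟨F, h1, h2⟩ := hQ
  exact ⟨F, h.trans h1, h2⟩

omit [Skh ω] in
theorem loc_zero (Q : QO ω) : Q.Loc 0 := ⟨⊥, Nat.zero_le _, fun x hx => by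
  rw [(Submodule.mem_bot ℂ).1 hx]
  simp⟩

omit [Skh ω] in
theorem loc_psd {Q : QO ω} {n : ℕ} (h : Q.Loc n) : Q.Psd n := by
  obtain ⟨F, h1, h2⟩ := h
  exact ⟨F, h1, fun x hx => (h2 x hx).2⟩

theorem loc_mul {Q R : QO ω} {a b : ℕ} (h : Q.Loc a) (h' : R.Loc b) : (Q.mul R).Loc (a + b) := by
  obtain ⟨F, hF, h1⟩ := h
  obtain ⟨F', hF', h2⟩ := h'
  refine ⟨(F.prod F' : Submodule ℂ (Q.E × R.E)), ?_, ?_⟩
  · refine le_trans ?_ (le_of_eq (finrank_prodW F F').symm)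
    omega
  · rintro ⟨x, y⟩ ⟨hx, hy⟩
    obtain ⟨p1, l1⟩ := h1 x hx
    obtain ⟨p2, l2⟩ := h2 y hy
    constructor
    · change Q.p x + R.p y = 0
      rw [p1, p2, add_zero]
    · change 0 ≤ (Q.L x x + R.L y y - ω (Q.p x) (R.p y)).re
      rw [p1, map_zero, LinearMap.zero_apply, sub_zero, Complex.add_re]
      exact add_nonneg l1 l2

omit [Skh ω] in
theorem loc_iso {Q R : QO ω} (h : Iso Q R) {n : ℕ} (hQ : Q.Loc n) : R.Loc n := by
  obtain ⟨f, h1, h3, -⟩ := h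
  obtain ⟨W, hW, h2⟩ := hQ
  refine ⟨W.map f.toLinearMap, ?_, ?_⟩
  · rw [LinearEquiv.finrank_map_eq]
    exact hW
  · rintro _ ⟨x, hx, rfl⟩
    rw [LinearEquiv.coe_coe, h1, h3]
    exact h2 x hx

theorem loc_prod (l : List (QO ω × ℕ)) (h : ∀ q ∈ l, q.1.Loc q.2) :
    (prodQ (l.map Prod.fst)).Loc (l.map Prod.snd).sum := by
  induction l with
  | nil => exact loc_zero _
  | cons q l ih =>
    rw [List.map_cons, List.map_cons, List.sum_cons]
    exact loc_mul (h q List.mem_cons_self) (ih fun r hr => h r (List.mem_cons_of_mem _ hr))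

end sig

end Pool.Agent.Helper46.BMY
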