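import Pool.Agent.Helper46.BMY.CInd
import Pool.Agent.Helper46.BMY.CMod

/-!
# The local words of the points `y ^ k = x ^ e`
-/

set_option autoImplicit false

open ComplexConjugate Module Finset

namespace Pool.Agent.Helper46.BMY

/-! ### Orthogonal families -/

section fam

variable {V : Type} [AddCommGroup V] [Module ℂ V] {ω : V →ₗ⋆[ℂ] V →ₗ[ℂ] ℂ}

theorem loc_fam (Q : QO ω) {ι : Type} [DecidableEq ι] (S : Finset ι) (w : ι → Q.E)
    (h1 : ∀ a ∈ S, ∀ b ∈ S, a ≠ b → Q.L (w a) (w b) = 0)
    (h2 : ∀ a ∈ S, 0 ≤ (Q.L (w a) (w a)).re) (h3 : ∀ a ∈ S, Q.p (w a) = 0)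
    (h4 : ∀ c : S → ℂ, ∑ a : S, c a • w a.1 = 0 → c = 0) : Q.Loc S.card := by
  refine ⟨LinearMap.range (Fintype.linearCombination ℂ fun a : S => w a.1), ?_, ?_⟩
  · rw [LinearMap.finrank_range_of_inj, Module.finrank_fintype_fun_eq_card, Fintype.card_coe]
    rw [injective_iff_map_eq_zero]
    intro c hc
    rw [Fintype.linearCombination_apply] at hc
    exact h4 c hc
  · rintro _ ⟨c, rfl⟩
    rw [Fintype.linearCombination_apply]
    constructor
    · rw [map_sum]
      refine sum_eq_zero fun a _ => ?_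
      rw [map_smul, h3 a.1 a.2, smul_zero]
    · have e1 : Q.L (∑ a : S, c a • w a.1) (∑ a : S, c a • w a.1) =
          ∑ a : S, (Complex.normSq (c a) : ℂ) * Q.L (w a.1) (w a.1) := by
        rw [map_sum]
        refine sum_congr rfl fun a _ => ?_
        rw [map_sum, LinearMap.sum_apply, sum_eq_single a]
        · rw [map_smul, LinearMap.map_smulₛₗ, LinearMap.smul_apply, smul_eq_mul, smul_eq_mul,
            Complex.normSq_eq_conj_mul_self]
          ring
        · intro b _ hb
          have hb' : b.1 ≠ a.1 := fun h => hb (Subtype.ext h)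
          rw [map_smul, LinearMap.map_smulₛₗ, LinearMap.smul_apply, h1 b.1 b.2 a.1 a.2 hb',
            smul_zero, smul_zero]
        · intro h
          exact absurd (mem_univ a) h
      rw [e1, Complex.re_sum]
      refine sum_nonneg fun a _ => ?_
      rw [Complex.re_ofReal_mul]
      exact mul_nonneg (Complex.normSq_nonneg _) (h2 a.1 a.2)

end fam

/-! ### Roots of unity -/

/-- The roots of unity. -/
noncomputable def rt (n s : ℕ) : ℂ := Complex.exp (2 * Real.pi * Complex.I / n) ^ (s + 1)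

theorem rt_pow {n : ℕ} (hn : n ≠ 0) (s : ℕ) : rt n s ^ n = 1 := by
  unfold rt
  rw [← pow_mul, mul_comm (s + 1), pow_mul, (Complex.isPrimitiveRoot_exp n hn).pow_eq_one, one_pow]

theorem rt_ne {n s : ℕ} (h : s + 1 < n) : rt n s ≠ 1 :=
  (Complex.isPrimitiveRoot_exp n (by omega)).pow_ne_one_of_pos_of_lt (by omega) h

theorem rt_inj {n s s' : ℕ} (h : s + 1 < n) (h' : s' + 1 < n) (e : rt n s = rt n s') : s = s' := by
  have := (Complex.isPrimitiveRoot_exp n (by omega)).pow_inj h h' e
  omega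

theorem rt_conj {n : ℕ} (hn : n ≠ 0) (s : ℕ) : conj (rt n s) * rt n s = 1 := by
  rw [Complex.conj_mul', Complex.norm_eq_one_of_pow_eq_one (rt_pow hn s) hn]
  simp

theorem gsum {n : ℕ} {w : ℂ} (h : w ^ n = 1) :
    ∑ j ∈ range n, w ^ j = if w = 1 then (n : ℂ) else 0 := by
  split_ifs with h1
  · simp [h1]
  · have h2 := mul_neg_geom_sum w n
    rw [h, sub_self] at h2
    exact (mul_eq_zero.1 h2).resolve_left (sub_ne_zero.2 (Ne.symm h1))

theorem rt_cross {n s s' : ℕ} (h : s + 1 < n) (h' : s' + 1 < n) :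
    ∑ j ∈ range n, conj (rt n s) ^ j * rt n s' ^ j = if s = s' then (n : ℂ) else 0 := by
  have hn : n ≠ 0 := by omega
  simp only [← mul_pow]
  have h1 : (conj (rt n s) * rt n s') ^ n = 1 := by
    rw [mul_pow, ← map_pow, rt_pow hn, rt_pow hn, map_one, one_mul]
  rw [gsum h1]
  by_cases hs : s = s'
  · rw [if_pos hs, ← hs, rt_conj hn, if_pos rfl]
  · rw [if_neg hs, if_neg]
    intro h2
    apply hs
    apply rt_inj h h'
    have h3 := rt_conj hn s
    have h4 : conj (rt n s) ≠ 0 := left_ne_zero_of_mul_eq_one h3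
    exact mul_left_cancel₀ h4 (h3.trans h2.symm)

theorem rt_cross' {K s s' : ℕ} (h : s < K) (h' : s' < K) :
    ∑ i ∈ range K, conj (rt (K + 1) s) ^ (i + 1) * rt (K + 1) s' ^ (i + 1) =
      (if s = s' then ((K + 1 : ℕ) : ℂ) else 0) - 1 := by
  have h1 := rt_cross (n := K + 1) (s := s) (s' := s') (by omega) (by omega)
  rw [sum_range_succ'] at h1
  rw [← h1]
  simp

theorem rt_sum' {K s : ℕ} (h : s < K) : ∑ i ∈ range K, rt (K + 1) s ^ (i + 1) = -1 := by
  have h1 := gsum (rt_pow (Nat.succ_ne_zero K) s)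
  rw [if_neg (rt_ne (by omega)), sum_range_succ', pow_zero] at h1
  linear_combination h1

theorem rt_csum' {K s : ℕ} (h : s < K) : ∑ i ∈ range K, conj (rt (K + 1) s) ^ (i + 1) = -1 := by
  have h1 := congrArg conj (rt_sum' h)
  rw [map_sum, map_neg, map_one] at h1
  rw [← h1]
  exact sum_congr rfl fun i _ => (map_pow _ _ _).symm

/-- The vectors of the `k` direction. -/
noncomputable def gv (K s : ℕ) (i : ℕ) : ℂ := rt (K + 1) s ^ (i + 1) - 1

/-- The vectors of the `e` direction. -/
noncomputable def dv (e t : ℕ) (j : ℕ) : ℂ := conj (rt e t) ^ (j + 1) - conj (rt e t) ^ j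

private theorem tS_range {K : ℕ} (x y : ℕ → ℂ) (hy : y K = 0) :
    tS (fun i : Fin K => x i.val) (fun i : Fin K => y i.val) =
      ∑ i ∈ range K, conj (x i) * (y i - y (i + 1)) := by
  unfold tS
  rw [sum_range fun i => conj (x i) * (y i - y (i + 1))]
  refine sum_congr rfl fun i _ => ?_
  have h2 : ∀ j : Fin K, conj (x i) * (if i.val = j.val then 1 else
      if i.val + 1 = j.val then -1 else 0) * y j =
      (if j = i then conj (x i) * y i else 0) -
        (if i.val + 1 = j.val then conj (x i) * y j else 0) := by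
    intro j
    by_cases hij : j = i
    · subst hij
      rw [if_pos rfl, if_pos rfl, if_neg (by omega)]
      ring
    · have hij' : ¬ i.val = j.val := fun h => hij (Fin.ext h.symm)
      rw [if_neg hij', if_neg hij]
      split_ifs
      · ring
      · ring
  simp only [h2, sum_sub_distrib]
  rw [sum_ite_eq', if_pos (mem_univ _), mul_sub]
  congr 1
  by_cases hi : i.val + 1 < K
  · rw [sum_eq_single (⟨i.val + 1, hi⟩ : Fin K)]
    · rw [if_pos rfl]
    · intro j _ hj
      have hj' : ¬ i.val + 1 = j.val := fun h => hj (Fin.ext h.symm)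
      rw [if_neg hj']
    · intro h
      exact absurd (mem_univ _) h
  · have h4 : i.val + 1 = K := by omega
    rw [h4, hy, mul_zero]
    refine sum_eq_zero fun j _ => ?_
    have := j.2
    rw [if_neg (by omega)]

theorem gv_tS {K s s' : ℕ} (h : s < K) (h' : s' < K) :
    tS (fun i : Fin K => gv K s i.val) (fun i : Fin K => gv K s' i.val) =
      (1 - rt (K + 1) s') * (if s = s' then ((K + 1 : ℕ) : ℂ) else 0) := by
  have h0 : gv K s' K = 0 := by
    unfold gv
    rw [rt_pow (Nat.succ_ne_zero K), sub_self]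
  rw [tS_range (gv K s) (gv K s') h0]
  have h1 : ∀ i, conj (gv K s i) * (gv K s' i - gv K s' (i + 1)) =
      (1 - rt (K + 1) s') * (conj (rt (K + 1) s) ^ (i + 1) * rt (K + 1) s' ^ (i + 1) -
        rt (K + 1) s' ^ (i + 1)) := by
    intro i
    unfold gv
    rw [map_sub, map_pow, map_one]
    ring
  simp only [h1]
  rw [← mul_sum, sum_sub_distrib, rt_cross' h h', rt_sum' h']
  ring

private theorem tailsum (y : ℕ → ℂ) (j n : ℕ) (h : j < n) :
    ∑ i ∈ range n, (if j < i then y (i + 1) - y i else 0) = y n - y (j + 1) := by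
  induction n with
  | zero => omega
  | succ n ih =>
    rw [sum_range_succ]
    rcases Nat.lt_or_ge j n with hj | hj
    · rw [ih hj, if_pos hj]
      ring
    · have : j = n := by omega
      subst this
      rw [if_neg (lt_irrefl _), add_zero, sub_self]
      refine sum_eq_zero fun i hi => ?_
      have := mem_range.1 hi
      rw [if_neg (by omega)]

theorem dv_T1 {e t t' : ℕ} (h : t + 1 < e) (h' : t' + 1 < e) :
    ∑ j ∈ range e, conj (dv e t j) * dv e t' j =
      (rt e t - 1) * (conj (rt e t') - 1) * (if t = t' then (e : ℂ) else 0) := by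
  have h1 : ∀ j, conj (dv e t j) * dv e t' j = (rt e t - 1) * (conj (rt e t') - 1) *
      (conj (rt e t') ^ j * rt e t ^ j) := by
    intro j
    unfold dv
    rw [map_sub, map_pow, map_pow, Complex.conj_conj]
    ring
  simp only [h1]
  rw [← mul_sum, rt_cross h' h]
  simp only [eq_comm]

theorem dv_T2 {e t t' : ℕ} (h : t + 1 < e) (h' : t' + 1 < e) :
    ∑ j ∈ range e, ∑ j' ∈ range e, (if j < j' then conj (dv e t j) * dv e t' j' else 0) =
      -(rt e t - 1) * conj (rt e t') * (if t = t' then (e : ℂ) else 0) := by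
  have he : e ≠ 0 := by omega
  have h1 : ∀ j ∈ range e, ∑ j' ∈ range e, (if j < j' then conj (dv e t j) * dv e t' j' else 0) =
      (rt e t - 1) * (rt e t ^ j - conj (rt e t') * (conj (rt e t') ^ j * rt e t ^ j)) := by
    intro j hj
    have h2 := tailsum (fun i => conj (rt e t') ^ i) j e (mem_range.1 hj)
    have h3 : ∑ j' ∈ range e, (if j < j' then conj (dv e t j) * dv e t' j' else 0) =
        conj (dv e t j) * ∑ j' ∈ range e,
          (if j < j' then conj (rt e t') ^ (j' + 1) - conj (rt e t') ^ j' else 0) := by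
      rw [mul_sum]
      refine sum_congr rfl fun i _ => ?_
      split_ifs
      · rfl
      · rw [mul_zero]
    have h4 : conj (rt e t') ^ e = 1 := by
      rw [← map_pow, rt_pow he, map_one]
    rw [h3, h2, h4]
    unfold dv
    rw [map_sub, map_pow, map_pow, Complex.conj_conj]
    ring
  rw [sum_congr rfl h1, ← mul_sum, sum_sub_distrib, ← mul_sum, rt_cross h' h,
    gsum (rt_pow he t), if_neg (rt_ne h)]
  simp only [eq_comm (a := t') (b := t)]
  ring

/-! ### The family -/

/-- The form of a word power. -/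
theorem om_tS' (p : Prm) {K : ℕ} (x y : Fin K → ℂ) :
    om p K x y = conj (p.l * tS y x) - p.l * tS x y := by
  have h1 : conj (tS y x) = ∑ i : Fin K, ∑ j : Fin K,
      conj (x i) * (if i.val = j.val then 1 else if j.val + 1 = i.val then -1 else 0) * y j := by
    unfold tS
    simp only [map_sum]
    rw [Finset.sum_comm]
    refine Finset.sum_congr rfl fun i _ => Finset.sum_congr rfl fun j _ => ?_
    rw [map_mul, map_mul, Complex.conj_conj]
    by_cases h : i.val = j.val
    · rw [if_pos h, if_pos h.symm, map_one]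
      ring
    · rw [if_neg h, if_neg (Ne.symm h)]
      split_ifs
      · rw [map_neg, map_one]
        ring
      · rw [map_zero]
        ring
  rw [map_mul, h1, om_apply]
  unfold tS
  simp only [Finset.mul_sum, ← Finset.sum_sub_distrib]
  refine Finset.sum_congr rfl fun i _ => Finset.sum_congr rfl fun j _ => ?_
  unfold J
  by_cases h : i.val = j.val
  · rw [if_pos h, if_pos h, if_pos h]
    ring
  · rw [if_neg h, if_neg h, if_neg h]
    by_cases h2 : i.val + 1 = j.val
    · rw [if_pos h2, if_pos h2, if_neg (by omega)]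
      ring
    · rw [if_neg h2, if_neg h2]
      split_ifs
      · ring
      · ring

/-- A chain of vectors. -/
def IsCh (p : Prm) {m K : ℕ} (v : Fin K → Fin m → ℂ) : Prop :=
  ∀ i j : Fin K, om p m (v i) (v j) = J p i.val j.val

theorem IsCh.isV {p : Prm} {m K : ℕ} {v : Fin K → Fin m → ℂ} (h : IsCh p v) (i : Fin K) :
    IsV p (v i) := by
  unfold IsV
  rw [h i i, J, if_pos rfl]

/-- The coordinates of the word. -/
theorem model_ch {p : Prm} {m K e : ℕ} {v : Fin K → Fin m → ℂ} (h : IsCh p v) :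
    ∃ f : (Fin e → Fin K → ℂ) →ₗ[ℂ]
        (obj (ω := om p m) p.c (List.replicate e (List.ofFn v)).flatten).E,
      (∀ x y, (obj (ω := om p m) p.c (List.replicate e (List.ofFn v)).flatten).L (f x) (f y) =
        ∑ j, p.l * tS (x j) (y j) - ∑ j, ∑ j', if j < j' then
          conj (p.l * tS (y j') (x j)) - p.l * tS (x j) (y j') else 0) ∧
      (∀ x, (obj (ω := om p m) p.c (List.replicate e (List.ofFn v)).flatten).p (f x) =
        ∑ j, ∑ i, x j i • v i) ∧ ∀ x, f x = 0 → x = 0 := by
  obtain ⟨f1, h1L, h1p, h1i⟩ := model_word (ω := om p m) p.c K v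
  obtain ⟨f2, h2L, h2p, h2i⟩ := model_pow (obj (ω := om p m) p.c (List.ofFn v)) e
  obtain ⟨g, hg, hgp, -⟩ := (obj_replicate (ω := om p m) p.c (List.ofFn v) e).symm
  have hA : ∀ x y : Fin K → ℂ, ∑ i, conj (x i) * y i * lv (om p m) p.c (v i) -
      ∑ i, ∑ j, (if i < j then om p m (v i) (v j) * conj (x i) * y j else 0) =
      p.l * tS x y := by
    intro x y
    unfold tS
    rw [Finset.mul_sum, ← Finset.sum_sub_distrib]
    refine Finset.sum_congr rfl fun i _ => ?_
    have e1 : conj (x i) * y i * lv (om p m) p.c (v i) =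
        ∑ i' : Fin K, if i' = i then p.l * conj (x i) * y i' else 0 := by
      rw [Finset.sum_ite_eq' Finset.univ i, if_pos (Finset.mem_univ i), (h.isV i).lv]
      ring
    rw [e1, ← Finset.sum_sub_distrib, Finset.mul_sum]
    refine Finset.sum_congr rfl fun i' _ => ?_
    rw [h i i']
    unfold J
    by_cases h : i = i'
    · subst h
      rw [if_pos rfl, if_neg (lt_irrefl _), if_pos rfl]
      ring
    · have h' : ¬ i.val = i'.val := fun e => h (Fin.ext e)
      rw [if_neg (Ne.symm h), if_neg h', if_neg h']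
      by_cases h2 : i.val + 1 = i'.val
      · have h3 : i < i' := Fin.lt_def.2 (by omega)
        rw [if_pos h3, if_pos h2, if_pos h2]
        ring
      · rw [if_neg h2, if_neg h2]
        by_cases h3 : i < i'
        · have h4 : ¬ i'.val + 1 = i.val := by
            have := Fin.lt_def.1 h3
            omega
          rw [if_pos h3, if_neg h4]
          ring
        · rw [if_neg h3]
          ring
  have hB : ∀ x y : Fin K → ℂ, om p m (∑ i, x i • v i) (∑ i, y i • v i) =
      conj (p.l * tS y x) - p.l * tS x y := by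
    intro x y
    rw [← om_tS' p x y, om_apply x y, map_sum, sum_comm]
    refine sum_congr rfl fun j _ => ?_
    rw [map_sum, LinearMap.sum_apply]
    refine sum_congr rfl fun i _ => ?_
    rw [map_smul, LinearMap.map_smulₛₗ, LinearMap.smul_apply, h i j, smul_eq_mul, smul_eq_mul]
    ring
  refine ⟨g.toLinearMap ∘ₗ f2 ∘ₗ (f1.compLeft (Fin e)), fun x y => ?_, fun x => ?_, fun x hx => ?_⟩
  · change (obj (ω := om p m) p.c (List.replicate e (List.ofFn v)).flatten).L
      (g (f2 fun j => f1 (x j))) (g (f2 fun j => f1 (y j))) = _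
    rw [hg, h2L]
    simp only [h1L, h1p, hA, hB]
  · change (obj (ω := om p m) p.c (List.replicate e (List.ofFn v)).flatten).p
      (g (f2 fun j => f1 (x j))) = _
    rw [hgp, h2p]
    simp only [h1p]
  · have h3 : g (f2 fun j => f1 (x j)) = 0 := hx
    have h4 := h2i _ ((map_eq_zero_iff g g.injective).1 h3)
    funext j
    exact h1i _ (congrFun h4 j)

/-- The family. -/
noncomputable def fv (K e : ℕ) (q : ℕ × ℕ) : Fin e → Fin K → ℂ :=
  fun j i => dv e q.2 j.val * gv K q.1 i.val

theorem fv_sum {m K e : ℕ} (v : Fin K → Fin m → ℂ) {q : ℕ × ℕ} (h : q.2 + 1 < e) :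
    ∑ j, ∑ i, fv K e q j i • v i = 0 := by
  have h1 : ∀ j, ∑ i, fv K e q j i • v i = dv e q.2 j.val • ∑ i, gv K q.1 i.val • v i := by
    intro j
    rw [smul_sum]
    refine sum_congr rfl fun i _ => ?_
    rw [smul_smul]
    rfl
  have h2 : ∑ j : Fin e, dv e q.2 j.val = 0 := by
    rw [← sum_range fun j => dv e q.2 j]
    unfold dv
    have h3 := sum_range_sub (fun i => conj (rt e q.2) ^ i) e
    rw [h3, ← map_pow, rt_pow (by omega), map_one, pow_zero, sub_self]
  simp only [h1]
  rw [← sum_smul, h2, zero_smul]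

private theorem tS_smul {K : ℕ} (a b : ℂ) (x y : Fin K → ℂ) :
    tS (fun i => a * x i) (fun i => b * y i) = conj a * b * tS x y := by
  unfold tS
  rw [mul_sum]
  refine sum_congr rfl fun i _ => ?_
  rw [mul_sum]
  refine sum_congr rfl fun j _ => ?_
  rw [map_mul]
  ring

/-- The value of the form on two members of the family. -/
theorem fv_form {K e : ℕ} (l : ℂ) {q q' : ℕ × ℕ} (h1 : q.1 < K) (h2 : q.2 + 1 < e)
    (h1' : q'.1 < K) (h2' : q'.2 + 1 < e) :
    ∑ j, l * tS (fv K e q j) (fv K e q' j) - ∑ j, ∑ j', (if j < j' then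
      conj (l * tS (fv K e q' j') (fv K e q j)) - l * tS (fv K e q j) (fv K e q' j') else 0) =
      if q = q' then (e * (K + 1 : ℕ) : ℂ) * (l * (1 - rt (K + 1) q.1) * (1 - rt e q.2) +
        conj (l * (1 - rt (K + 1) q.1) * (1 - rt e q.2))) else 0 := by
  obtain ⟨A, hA⟩ : ∃ A, A = tS (fun i : Fin K => gv K q.1 i.val) (fun i => gv K q'.1 i.val) :=
    ⟨_, rfl⟩
  obtain ⟨B, hB⟩ : ∃ B, B = tS (fun i : Fin K => gv K q'.1 i.val) (fun i => gv K q.1 i.val) :=
    ⟨_, rfl⟩
  have e1 : ∀ j j' : Fin e, tS (fv K e q j) (fv K e q' j') =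
      conj (dv e q.2 j.val) * dv e q'.2 j'.val * A := by
    intro j j'
    rw [hA]
    exact tS_smul _ _ _ _
  have e2 : ∀ j j' : Fin e, tS (fv K e q' j') (fv K e q j) =
      conj (dv e q'.2 j'.val) * dv e q.2 j.val * B := by
    intro j j'
    rw [hB]
    exact tS_smul _ _ _ _
  have e3 : ∑ j, l * tS (fv K e q j) (fv K e q' j) =
      l * A * ∑ j ∈ range e, conj (dv e q.2 j) * dv e q'.2 j := by
    rw [sum_range, mul_sum]
    refine sum_congr rfl fun j _ => ?_
    rw [e1]
    ring
  have e4 : ∑ j : Fin e, ∑ j' : Fin e, (if j < j' then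
      conj (l * tS (fv K e q' j') (fv K e q j)) - l * tS (fv K e q j) (fv K e q' j') else 0) =
      (conj (l * B) - l * A) * ∑ j ∈ range e, ∑ j' ∈ range e,
        (if j < j' then conj (dv e q.2 j) * dv e q'.2 j' else 0) := by
    rw [sum_range, mul_sum]
    refine sum_congr rfl fun j _ => ?_
    rw [sum_range, mul_sum]
    refine sum_congr rfl fun j' _ => ?_
    by_cases hj : j < j'
    · have hj' : j.val < j'.val := hj
      rw [if_pos hj, if_pos hj', e1, e2]
      simp only [map_mul, Complex.conj_conj]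
      ring
    · have hj' : ¬ j.val < j'.val := hj
      rw [if_neg hj, if_neg hj', mul_zero]
  rw [e3, e4, dv_T1 h2 h2', dv_T2 h2 h2', hA, hB, gv_tS h1 h1', gv_tS h1' h1]
  by_cases hq : q = q'
  · subst hq
    rw [if_pos rfl, if_pos rfl, if_pos rfl]
    simp only [map_mul, map_sub, map_one, map_natCast]
    have h5 := rt_conj (n := e) (by omega) q.2
    linear_combination ((e : ℂ) * ((K + 1 : ℕ) : ℂ) * conj l *
      (1 - conj (rt (K + 1) q.1))) * h5
  · rw [if_neg hq]
    have h6 : ¬ (q.1 = q'.1 ∧ q.2 = q'.2) := fun h => hq (Prod.ext h.1 h.2)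
    by_cases h7 : q.2 = q'.2
    · have h8 : ¬ q.1 = q'.1 := fun h => h6 ⟨h, h7⟩
      rw [if_neg h8, if_neg (Ne.symm h8)]
      simp
    · rw [if_neg h7]
      ring

/-- The functional which separates the family. -/
noncomputable def sep (K e : ℕ) (q : ℕ × ℕ) (x : Fin e → Fin K → ℂ) : ℂ :=
  ∑ j : Fin e, ∑ i : Fin K, rt e q.2 ^ j.val * conj (rt (K + 1) q.1) ^ (i.val + 1) * x j i

theorem sep_fv {K e : ℕ} {q q' : ℕ × ℕ} (h1 : q.1 < K) (h2 : q.2 + 1 < e)
    (h1' : q'.1 < K) (h2' : q'.2 + 1 < e) :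
    sep K e q (fv K e q') = if q = q' then
      (conj (rt e q.2) - 1) * e * (K + 1 : ℕ) else 0 := by
  have e1 : sep K e q (fv K e q') = (∑ j ∈ range e, rt e q.2 ^ j * dv e q'.2 j) *
      ∑ i ∈ range K, conj (rt (K + 1) q.1) ^ (i + 1) * gv K q'.1 i := by
    unfold sep
    rw [sum_range, sum_range, sum_mul]
    refine sum_congr rfl fun j _ => ?_
    rw [mul_sum]
    refine sum_congr rfl fun i _ => ?_
    unfold fv
    ring
  have e2 : ∑ j ∈ range e, rt e q.2 ^ j * dv e q'.2 j =
      (conj (rt e q'.2) - 1) * if q'.2 = q.2 then (e : ℂ) else 0 := by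
    rw [← rt_cross h2' h2, mul_sum]
    refine sum_congr rfl fun j _ => ?_
    unfold dv
    ring
  have e3 : ∑ i ∈ range K, conj (rt (K + 1) q.1) ^ (i + 1) * gv K q'.1 i =
      if q.1 = q'.1 then ((K + 1 : ℕ) : ℂ) else 0 := by
    have h3 : ∀ i, conj (rt (K + 1) q.1) ^ (i + 1) * gv K q'.1 i =
        conj (rt (K + 1) q.1) ^ (i + 1) * rt (K + 1) q'.1 ^ (i + 1) -
          conj (rt (K + 1) q.1) ^ (i + 1) := by
      intro i
      unfold gv
      ring
    simp only [h3]
    rw [sum_sub_distrib, rt_cross' h1 h1', rt_csum' h1]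
    ring
  rw [e1, e2, e3]
  by_cases hq : q = q'
  · subst hq
    rw [if_pos rfl, if_pos rfl, if_pos rfl]
  · rw [if_neg hq]
    have h6 : ¬ (q.1 = q'.1 ∧ q.2 = q'.2) := fun h => hq (Prod.ext h.1 h.2)
    by_cases h7 : q'.2 = q.2
    · rw [if_neg (fun h => h6 ⟨h, h7.symm⟩), mul_zero]
    · rw [if_neg h7, mul_zero, zero_mul]

/-! ### The sign -/

theorem one_sub_exp (x : ℝ) : 1 - Complex.exp ((2 * x : ℝ) * Complex.I) =
    ((2 * Real.sin x : ℝ) : ℂ) * (-Complex.I * Complex.exp (x * Complex.I)) := by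
  rw [Complex.exp_mul_I, Complex.exp_mul_I, ← Complex.ofReal_cos, ← Complex.ofReal_sin,
    ← Complex.ofReal_cos, ← Complex.ofReal_sin, Real.cos_two_mul, Real.sin_two_mul]
  have h3 := Real.sin_sq_add_cos_sq x
  generalize Real.sin x = s at h3 ⊢
  generalize Real.cos x = y at h3 ⊢
  apply Complex.ext
  · simp [← Complex.ofReal_pow]
    linear_combination -2 * h3
  · simp [← Complex.ofReal_pow]

theorem rt_one_sub (n s : ℕ) : 1 - rt n s = ((2 * Real.sin (Real.pi * ((s + 1) / n)) : ℝ) : ℂ) *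
    (-Complex.I * Complex.exp ((Real.pi * ((s + 1) / n) : ℝ) * Complex.I)) := by
  rw [← one_sub_exp]
  unfold rt
  rw [← Complex.exp_nat_mul]
  congr 2
  push_cast
  ring

theorem lm_one_sub (m a : ℕ) : 1 - lm m a = ((2 * Real.sin (Real.pi * (a / (m + 1))) : ℝ) : ℂ) *
    (-Complex.I * Complex.exp ((Real.pi * (a / (m + 1)) : ℝ) * Complex.I)) := by
  rw [← one_sub_exp]
  unfold lm
  congr 2
  push_cast
  ring

private theorem sin_frac_pos {x : ℝ} (h : 0 < x) (h' : x < 1) : 0 < Real.sin (Real.pi * x) := by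
  apply Real.sin_pos_of_pos_of_lt_pi
  · exact mul_pos Real.pi_pos h
  · calc Real.pi * x < Real.pi * 1 := mul_lt_mul_of_pos_left h' Real.pi_pos
      _ = Real.pi := mul_one _

theorem re_trip {x y z : ℝ} (hx : 0 < x ∧ x < 1) (hy : 0 < y ∧ y < 1) (hz : 0 < z ∧ z < 1)
    (h1 : 1 ≤ x + y + z) (h2 : x + y + z ≤ 2) :
    0 ≤ (((2 * Real.sin (Real.pi * x) : ℝ) : ℂ) *
      (-Complex.I * Complex.exp ((Real.pi * x : ℝ) * Complex.I)) *
      (((2 * Real.sin (Real.pi * y) : ℝ) : ℂ) *
      (-Complex.I * Complex.exp ((Real.pi * y : ℝ) * Complex.I))) *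
      (((2 * Real.sin (Real.pi * z) : ℝ) : ℂ) *
      (-Complex.I * Complex.exp ((Real.pi * z : ℝ) * Complex.I)))).re := by
  have e1 : (((2 * Real.sin (Real.pi * x) : ℝ) : ℂ) *
      (-Complex.I * Complex.exp ((Real.pi * x : ℝ) * Complex.I)) *
      (((2 * Real.sin (Real.pi * y) : ℝ) : ℂ) *
      (-Complex.I * Complex.exp ((Real.pi * y : ℝ) * Complex.I))) *
      (((2 * Real.sin (Real.pi * z) : ℝ) : ℂ) *
      (-Complex.I * Complex.exp ((Real.pi * z : ℝ) * Complex.I)))) =
      ((8 * (Real.sin (Real.pi * x) * Real.sin (Real.pi * y) * Real.sin (Real.pi * z)) : ℝ) : ℂ) *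
        (Complex.I * Complex.exp ((Real.pi * (x + y + z) : ℝ) * Complex.I)) := by
    have e2 : Complex.exp ((Real.pi * (x + y + z) : ℝ) * Complex.I) =
        Complex.exp ((Real.pi * x : ℝ) * Complex.I) * Complex.exp ((Real.pi * y : ℝ) * Complex.I) *
          Complex.exp ((Real.pi * z : ℝ) * Complex.I) := by
      rw [← Complex.exp_add, ← Complex.exp_add]
      congr 1
      push_cast
      ring
    have e3 : Complex.I ^ 3 = -Complex.I := Complex.I_pow_three
    rw [e2]
    push_cast
    linear_combination (-8 * Complex.sin (Real.pi * x) * Complex.sin (Real.pi * y) *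
      Complex.sin (Real.pi * z) * Complex.exp (Real.pi * x * Complex.I) *
      Complex.exp (Real.pi * y * Complex.I) * Complex.exp (Real.pi * z * Complex.I)) * e3
  rw [e1, Complex.re_ofReal_mul, Complex.exp_mul_I, ← Complex.ofReal_cos, ← Complex.ofReal_sin]
  have e4 : (Complex.I * (((Real.cos (Real.pi * (x + y + z)) : ℝ) : ℂ) +
      ((Real.sin (Real.pi * (x + y + z)) : ℝ) : ℂ) * Complex.I)).re =
      -Real.sin (Real.pi * (x + y + z)) := by
    generalize Real.cos (Real.pi * (x + y + z)) = c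
    generalize Real.sin (Real.pi * (x + y + z)) = s
    simp
  rw [e4]
  have h3 : Real.sin (Real.pi * (x + y + z)) ≤ 0 := by
    have h4 : Real.sin (Real.pi * (x + y + z)) = -Real.sin (Real.pi * (x + y + z) - Real.pi) := by
      rw [Real.sin_sub_pi, neg_neg]
    rw [h4, neg_nonpos]
    apply Real.sin_nonneg_of_nonneg_of_le_pi
    · nlinarith [Real.pi_pos]
    · nlinarith [Real.pi_pos]
  have h5 := sin_frac_pos hx.1 hx.2
  have h6 := sin_frac_pos hy.1 hy.2
  have h7 := sin_frac_pos hz.1 hz.2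
  have h8 : 0 < Real.sin (Real.pi * x) * Real.sin (Real.pi * y) * Real.sin (Real.pi * z) := by
    positivity
  nlinarith

/-- The number of `(s, t)` with `1 ≤ a / (m + 1) + s / k + t / e ≤ 2`. -/
def nt (m a k e : ℕ) : ℕ :=
  ((range (k - 1) ×ˢ range (e - 1)).filter fun q =>
    (m + 1) * (k * e) ≤ a * (k * e) + (m + 1) * ((q.1 + 1) * e + (q.2 + 1) * k) ∧
      a * (k * e) + (m + 1) * ((q.1 + 1) * e + (q.2 + 1) * k) ≤ 2 * (m + 1) * (k * e)).card

/-- **The local index.** -/
theorem loc_ch {m a K e : ℕ} (h : 1 ≤ a ∧ a ≤ m) {v : Fin K → Fin m → ℂ}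
    (hv : IsCh (prm m a h) v) :
    (obj (ω := om (prm m a h) m) (prm m a h).c (List.replicate e (List.ofFn v)).flatten).Loc
      (nt m a (K + 1) e) := by
  classical
  obtain ⟨f, f1, f2, f3⟩ := model_ch (e := e) hv
  have hmem : ∀ q ∈ (range (K + 1 - 1) ×ˢ range (e - 1)).filter fun q : ℕ × ℕ =>
      (m + 1) * ((K + 1) * e) ≤ a * ((K + 1) * e) + (m + 1) * ((q.1 + 1) * e + (q.2 + 1) * (K + 1)) ∧
      a * ((K + 1) * e) + (m + 1) * ((q.1 + 1) * e + (q.2 + 1) * (K + 1)) ≤
        2 * (m + 1) * ((K + 1) * e), q.1 < K ∧ q.2 + 1 < e := by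
    intro q hq
    have h1 := mem_product.1 (mem_filter.1 hq).1
    have h2 := mem_range.1 h1.1
    have h3 := mem_range.1 h1.2
    omega
  refine loc_fam _ _ (fun q => f (fv K e q)) (fun q hq q' hq' hne => ?_) (fun q hq => ?_)
    (fun q hq => ?_) (fun c hc => ?_)
  · obtain ⟨h1, h2⟩ := hmem q hq
    obtain ⟨h1', h2'⟩ := hmem q' hq'
    change (obj (ω := om (prm m a h) m) (prm m a h).c
      (List.replicate e (List.ofFn v)).flatten).L (f (fv K e q)) (f (fv K e q')) = 0
    rw [f1, fv_form _ h1 h2 h1' h2', if_neg hne]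
  · obtain ⟨h1, h2⟩ := hmem q hq
    change 0 ≤ ((obj (ω := om (prm m a h) m) (prm m a h).c
      (List.replicate e (List.ofFn v)).flatten).L (f (fv K e q)) (f (fv K e q))).re
    rw [f1, fv_form _ h1 h2 h1 h2, if_pos rfl]
    have h3 : (e * (K + 1 : ℕ) : ℂ) = ((e * (K + 1) : ℝ) : ℂ) := by push_cast; ring
    rw [h3, Complex.re_ofReal_mul, Complex.add_re, Complex.conj_re]
    have h4 : 0 ≤ ((prm m a h).l * (1 - rt (K + 1) q.1) * (1 - rt e q.2)).re := by
      have h5 : (prm m a h).l = 1 - lm m a := rfl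
      rw [h5, lm_one_sub, rt_one_sub, rt_one_sub]
      obtain ⟨h6, h7⟩ := (mem_filter.1 hq).2
      have hm0 : (0 : ℝ) < m + 1 := by positivity
      have hk0 : (0 : ℝ) < K + 1 := by positivity
      have he0 : (0 : ℝ) < e := by exact_mod_cast (by omega : 0 < e)
      have hsum : (a : ℝ) / (m + 1) + (q.1 + 1) / ((K + 1 : ℕ) : ℝ) + (q.2 + 1) / e =
          (a * ((K + 1) * e) + (m + 1) * ((q.1 + 1) * e + (q.2 + 1) * (K + 1))) /
            ((m + 1) * ((K + 1) * e)) := by
        push_cast
        field_simp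
        ring
      have h6' : ((m : ℝ) + 1) * ((K + 1) * e) ≤
          a * ((K + 1) * e) + (m + 1) * ((q.1 + 1) * e + (q.2 + 1) * (K + 1)) := by
        exact_mod_cast h6
      have h7' : (a : ℝ) * ((K + 1) * e) + (m + 1) * ((q.1 + 1) * e + (q.2 + 1) * (K + 1)) ≤
          2 * (m + 1) * ((K + 1) * e) := by
        exact_mod_cast h7
      refine re_trip ⟨?_, ?_⟩ ⟨?_, ?_⟩ ⟨?_, ?_⟩ ?_ ?_
      · have : (0 : ℝ) < a := by exact_mod_cast h.1
        positivity
      · rw [div_lt_one hm0]
        have : a < m + 1 := by omega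
        exact_mod_cast this
      · positivity
      · rw [div_lt_one (by positivity)]
        have : q.1 + 1 < K + 1 := by omega
        exact_mod_cast this
      · positivity
      · rw [div_lt_one he0]
        exact_mod_cast h2
      · rw [hsum, le_div_iff₀ (by positivity), one_mul]
        exact h6'
      · rw [hsum, div_le_iff₀ (by positivity)]
        linarith
    have h8 : (0 : ℝ) ≤ e * (K + 1) := by positivity
    exact mul_nonneg h8 (by linarith)
  · obtain ⟨h1, h2⟩ := hmem q hq
    change (obj (ω := om (prm m a h) m) (prm m a h).c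
      (List.replicate e (List.ofFn v)).flatten).p (f (fv K e q)) = 0
    rw [f2, fv_sum v h2]
  · have h1 : f (∑ q : _, c q • fv K e q.1) = 0 := by
      rw [map_sum]
      rw [← hc]
      exact sum_congr rfl fun q _ => map_smul _ _ _
    have h2 := f3 _ h1
    funext q
    obtain ⟨h3, h4⟩ := hmem q.1 q.2
    have h5 : sep K e q.1 (∑ q : _, c q • fv K e q.1) = 0 := by
      rw [h2]
      unfold sep
      simp
    have h6 : sep K e q.1 (∑ q : _, c q • fv K e q.1) = ∑ q' : _, c q' * sep K e q.1 (fv K e q'.1) := by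
      unfold sep
      simp only [Finset.sum_apply, Pi.smul_apply, smul_eq_mul, mul_sum]
      have h7 : ∀ j : Fin e, ∑ i : Fin K, ∑ q' : _, rt e q.1.2 ^ j.val *
          conj (rt (K + 1) q.1.1) ^ (i.val + 1) * (c q' * fv K e q'.1 j i) =
          ∑ q' : _, ∑ i : Fin K, rt e q.1.2 ^ j.val *
          conj (rt (K + 1) q.1.1) ^ (i.val + 1) * (c q' * fv K e q'.1 j i) :=
        fun j => sum_comm
      rw [sum_congr rfl fun j _ => h7 j, sum_comm]
      refine sum_congr rfl fun q' _ => sum_congr rfl fun j _ => sum_congr rfl fun i _ => ?_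
      ring
    rw [h6, sum_eq_single q] at h5
    · rw [sep_fv h3 h4 h3 h4, if_pos rfl] at h5
      have h8 : (conj (rt e q.1.2) - 1) * e * (K + 1 : ℕ) ≠ (0 : ℂ) := by
        refine mul_ne_zero (mul_ne_zero ?_ ?_) ?_
        · rw [sub_ne_zero]
          intro h9
          have h10 := congrArg conj h9
          rw [Complex.conj_conj, map_one] at h10
          exact rt_ne h4 h10
        · exact Nat.cast_ne_zero.2 (by omega)
        · exact Nat.cast_ne_zero.2 (by omega)
      exact (mul_eq_zero.1 h5).resolve_right h8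
    · intro q' _ hne
      obtain ⟨h3', h4'⟩ := hmem q'.1 q'.2
      rw [sep_fv h3 h4 h3' h4', if_neg, mul_zero]
      intro h9
      exact hne (Subtype.ext h9.symm)
    · intro h9
      exact absurd (mem_univ q) h9

end Pool.Agent.Helper46.BMY
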