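import Pool.Agent.Helper46.BMY.CDef

/-!
# Explicit Chern numbers of cyclic covers branched along symplectic curves
-/

set_option autoImplicit false

namespace Pool.Agent.Helper46.BMY

open Pool.Agent.Helper81.SBA (BraidGroup run twist Pt)

/-! ## Curves with nodes, cusps, tacnodes and ordinary triple points -/

/-- All special points are vertical tangents, nodes, cusps, tacnodes, vertical inflection points or
ordinary triple points. -/
def Mild {m : ℕ} (l : List (Sg m)) : Prop :=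
  ∀ P ∈ l, P.k = 2 ∧ P.e ≤ 4 ∨ P.k = 3 ∧ P.e ≤ 3

/-- The number of cusps (`y ^ 2 = x ^ 3` or `y ^ 3 = x ^ 2`). -/
def cusps {m : ℕ} (l : List (Sg m)) : ℕ :=
  l.countP fun P => P.k = 2 ∧ P.e = 3 ∨ P.k = 3 ∧ P.e = 2

/-- The number of tacnodes (`y ^ 2 = x ^ 4`). -/
def tacnodes {m : ℕ} (l : List (Sg m)) : ℕ := l.countP fun P => P.k = 2 ∧ P.e = 4

/-- The number of ordinary triple points (`y ^ 3 = x ^ 3`). -/
def triples {m : ℕ} (l : List (Sg m)) : ℕ := l.countP fun P => P.k = 3 ∧ P.e = 3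

/-- `c_1 ^ 2` of the minimal resolution of the `n`-fold cyclic cover of `F_r` branched along the curve
of degree `d = n f` over the base. -/
def chernOneF {m : ℕ} (n f r : ℕ) (l : List (Sg m)) : ℤ :=
  n * (r * ((n - 1) * f - 2) ^ 2 + 2 * (r - 2) * ((n - 1) * f - 2)) -
    ((n / 6 : ℕ) * cusps l + 2 * (n / 4 : ℕ) * tacnodes l + 3 * (n / 3 : ℕ) * triples l)

/-- `c_2` of this cover. -/
def chernTwoF {m : ℕ} (n f r : ℕ) (l : List (Sg m)) : ℤ :=
  4 * n + (n - 1) * (r * (n * f) ^ 2 - r * (n * f) - 2 * (n * f)) -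
    (11 * (n / 6 : ℕ) * cusps l + 10 * (n / 4 : ℕ) * tacnodes l + 9 * (n / 3 : ℕ) * triples l)

/-- `c_1 ^ 2` of the minimal resolution of the `n`-fold cyclic cover of the projective plane branched
along the curve of degree `d = n f`. -/
def chernOne {m : ℕ} (n f : ℕ) (l : List (Sg m)) : ℤ :=
  n * ((n - 1) * f - 3) ^ 2 -
    ((n / 6 : ℕ) * cusps l + 2 * (n / 4 : ℕ) * tacnodes l + 3 * (n / 3 : ℕ) * triples l)

/-- `c_2` of this cover. -/
def chernTwo {m : ℕ} (n f : ℕ) (l : List (Sg m)) : ℤ :=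
  3 * n + (n - 1) * ((n * f) ^ 2 - 3 * (n * f)) -
    (11 * (n / 6 : ℕ) * cusps l + 10 * (n / 4 : ℕ) * tacnodes l + 9 * (n / 3 : ℕ) * triples l)

end Pool.Agent.Helper46.BMY
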