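import Pool.Agent.Helper46.BMY.KDef
import Pool.Agent.Helper46.BMY.CFin

/-!
# Curves with nodes, cusps, tacnodes and ordinary triple points
-/

set_option autoImplicit false

namespace Pool.Agent.Helper46.BMY

theorem mild_gk {n k e : ℕ} (hn : 2 ≤ n) (h1 : 1 ≤ e) (h : k = 2 ∧ e ≤ 4 ∨ k = 3 ∧ e ≤ 3) :
    (gk n k e).1 =
      (n / 6) * (if k = 2 ∧ e = 3 ∨ k = 3 ∧ e = 2 then 1 else 0) +
        (n / 4) * (if k = 2 ∧ e = 4 then 1 else 0) + (n / 3) * (if k = 3 ∧ e = 3 then 1 else 0) ∧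
    (gk n k e).2 =
      (n / 6) * (if k = 2 ∧ e = 3 ∨ k = 3 ∧ e = 2 then 1 else 0) +
        2 * (n / 4) * (if k = 2 ∧ e = 4 then 1 else 0) +
        3 * (n / 3) * (if k = 3 ∧ e = 3 then 1 else 0) := by
  rcases h with ⟨rfl, h2⟩ | ⟨rfl, h2⟩
  · unfold gk
    interval_cases e <;> norm_num <;> split_ifs <;> refine ⟨?_, ?_⟩ <;> (try simp only []) <;> omega
  · unfold gk
    interval_cases e <;> norm_num <;> split_ifs <;> refine ⟨?_, ?_⟩ <;> (try simp only []) <;> omega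

theorem mild_sum {m n : ℕ} (hn : 2 ≤ n) (l : List (Sg m)) (he : ∀ P ∈ l, 1 ≤ P.e) (h : Mild l) :
    sumS l (fun P => 12 * (gk n P.k P.e).1) =
      12 * ((n / 6 : ℕ) * cusps l + (n / 4 : ℕ) * tacnodes l + (n / 3 : ℕ) * triples l) ∧
    sumS l (fun P => (gk n P.k P.e).2) =
      (n / 6 : ℕ) * cusps l + 2 * (n / 4 : ℕ) * tacnodes l + 3 * (n / 3 : ℕ) * triples l := by
  induction l with
  | nil => simp [sumS, cusps, tacnodes, triples]
  | cons P l ih =>
    obtain ⟨h1, h2⟩ := ih (fun Q hQ => he Q (List.mem_cons_of_mem _ hQ))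
      fun Q hQ => h Q (List.mem_cons_of_mem _ hQ)
    obtain ⟨h3, h4⟩ := mild_gk hn (he P List.mem_cons_self) (h P List.mem_cons_self)
    unfold sumS cusps tacnodes triples at *
    simp only [List.map_cons, List.sum_cons, List.countP_cons, h3, h4, Nat.cast_add, Nat.cast_mul,
      Nat.cast_ofNat, decide_eq_true_eq] at *
    rw [h1, h2]
    push_cast
    constructor <;> ring

/-- **The theorem.** -/
theorem mild_main {m n f r : ℕ} {l : List (Sg m)} (hn : 2 ≤ n) (hm : 2 ≤ m) (hr : 1 ≤ r)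
    (hd : m + 1 = n * f) (hl : IsCurve m r l) (h : Mild l) :
    chernOneF n f r l ≤ 3 * chernTwoF n f r l ∧
    14 * chernOneF n f r l + n * r * (m + 1) * (m + 1 - 15) ≤ 42 * chernTwoF n f r l ∧
    (r = 1 → 14 * chernOne n f l + n * (m + 1) * (m + 1 - 15) ≤ 42 * chernTwo n f l ∧
      (12 < m + 1 ∨ n ≠ 4 ∧ n ≠ 6 → chernOne n f l ≤ 3 * chernTwo n f l)) := by
  have he : ∀ P ∈ l, 1 ≤ P.e := fun P hP => (hl.1 P hP).2.2
  obtain ⟨s1, s2⟩ := mild_sum hn l he h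
  have e1 : chernOneF n f r l = cOneSqF n f r l := by
    unfold chernOneF cOneSqF
    rw [s2]
  have e2 : chernTwoF n f r l = cTwoF n f r l := by
    unfold chernTwoF cTwoF
    rw [s1, s2]
    ring
  have e3 : chernOne n f l = cOneSq n f l := by
    unfold chernOne cOneSq
    rw [s2]
  have e4 : chernTwo n f l = cTwo n f l := by
    unfold chernTwo cTwo
    rw [s1, s2]
    ring
  rw [e1, e2, e3, e4]
  have hB : ∀ P ∈ l, Bas n P.k P.e := fun P hP => (h P hP).elim Or.inl fun h' => Or.inr (Or.inl h')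
  obtain ⟨h1, h2, h3, h4⟩ := basic hn hm hr hd hl hB
  refine ⟨h1, h3, fun hr1 => ⟨h4 hr1, fun h12 => h2 hr1 ?_⟩⟩
  rintro (⟨rfl, h5⟩ | ⟨rfl, h5⟩)
  · omega
  · omega

end Pool.Agent.Helper46.BMY
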