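import Pool.Agent.Helper81.SBA.Pr
import Pool.Agent.Helper46.BMY.CDef

/-!
# Arrangements of sections: pairs, and the number of points
-/

set_option autoImplicit false

open Finset

namespace Pool.Agent.Helper46.BMY

open Pool.Agent.Helper81.SBA (BraidGroup run twist Pt perm pHom pHom_apply pHom_twist pHom_braid
  perm_twist blk card_blk)

variable {m : ℕ}

/-- The point without its order of contact. -/
def Sg.pt (P : Sg m) : Pt m := ⟨P.g, P.a, P.k⟩

theorem sg_braid {P : Sg m} {q : ℕ} (h : P.e = P.k * q) : P.braid = P.pt.braid ^ q := by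
  unfold Sg.braid Pt.braid Sg.pt twist
  rw [h, pow_mul, conj_pow]

theorem perm_pt {P : Sg m} (h : P.a + P.k ≤ m + 1) : perm m P.pt.braid = 1 := by
  unfold Pt.braid Sg.pt
  rw [map_mul, map_mul, perm_twist h, mul_one, map_inv, mul_inv_cancel]

theorem pure_prod (L : List (BraidGroup m)) (hL : ∀ g ∈ L, perm m g = 1) (s t : Fin (m + 1)) :
    perm m L.prod = 1 ∧ pHom m L.prod 0 s t = (L.map fun g => pHom m g 0 s t).sum := by
  induction L with
  | nil =>
    refine ⟨by rw [List.prod_nil, map_one], ?_⟩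
    rw [List.prod_nil, map_one]
    rfl
  | cons g L ih =>
    obtain ⟨ih1, ih2⟩ := ih fun x hx => hL x (List.mem_cons_of_mem _ hx)
    have hg : perm m g = 1 := hL g List.mem_cons_self
    refine ⟨by rw [List.prod_cons, map_mul, hg, ih1, mul_one], ?_⟩
    have e1 : pHom m (g :: L).prod 0 s t = pHom m g (pHom m L.prod 0) s t := by
      rw [List.prod_cons, map_mul]
      rfl
    rw [e1, pHom_apply, hg, inv_one, List.map_cons, List.sum_cons]
    simp only [Equiv.Perm.coe_one, id_eq]
    rw [ih2]
    ring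

theorem pure_pow {x : BraidGroup m} (hx : perm m x = 1) (q : ℕ) (s t : Fin (m + 1)) :
    perm m (x ^ q) = 1 ∧ pHom m (x ^ q) 0 s t = q * pHom m x 0 s t := by
  have h := pure_prod (List.replicate q x) (fun g hg => by rw [List.eq_of_mem_replicate hg, hx]) s t
  rw [List.prod_replicate, List.map_replicate, List.sum_replicate, nsmul_eq_mul] at h
  exact h

/-- **Two sections meet `r` times**, counted with the orders of contact. -/
theorem pair_sum {r : ℕ} {l : List (Sg m)} (hl : IsCurve m r l) (hk : ∀ P ∈ l, P.k ∣ P.e)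
    (s t : Fin (m + 1)) (hst : s ≠ t) :
    (l.map fun P => if s ∈ blk P.pt ∧ t ∈ blk P.pt then P.e / P.k else 0).sum = r := by
  have hq : ∀ P ∈ l, P.e = P.k * (P.e / P.k) := fun P hP => (Nat.mul_div_cancel' (hk P hP)).symm
  have hp : ∀ g ∈ l.map Sg.braid, perm m g = 1 := by
    intro g hg
    obtain ⟨P, hP, rfl⟩ := List.mem_map.mp hg
    rw [sg_braid (hq P hP)]
    exact (pure_pow (perm_pt (hl.1 P hP).2.1) _ s t).1
  have h1 := (pure_prod (l.map Sg.braid) hp s t).2
  rw [hl.2, (pure_pow (perm_twist (le_of_eq (Nat.zero_add _))) r s t).2,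
    pHom_twist (le_of_eq (Nat.zero_add _)) s t hst, if_pos ⟨Nat.zero_le _, by
      have := s.isLt; omega, Nat.zero_le _, by have := t.isLt; omega⟩, List.map_map] at h1
  have h2 : (l.map ((fun g => pHom m g 0 s t) ∘ Sg.braid)).sum =
      2 * (((l.map fun P => if s ∈ blk P.pt ∧ t ∈ blk P.pt then P.e / P.k else 0).sum : ℕ) : ℤ) := by
    have h3 : ∀ l' : List (Sg m), (∀ P ∈ l', P ∈ l) →
        (l'.map ((fun g => pHom m g 0 s t) ∘ Sg.braid)).sum =
          2 * (((l'.map fun P => if s ∈ blk P.pt ∧ t ∈ blk P.pt then P.e / P.k else 0).sum : ℕ) : ℤ) := by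
      intro l' h'
      induction l' with
      | nil => rfl
      | cons P l' ih =>
        have hP : P ∈ l := h' P List.mem_cons_self
        rw [List.map_cons, List.sum_cons, ih fun Q hQ => h' Q (List.mem_cons_of_mem _ hQ),
          List.map_cons, List.sum_cons, Function.comp_apply, sg_braid (hq P hP),
          (pure_pow (perm_pt (hl.1 P hP).2.1) _ s t).2, pHom_braid P.pt (hl.1 P hP).2.1 s t hst]
        by_cases h6 : s ∈ blk P.pt ∧ t ∈ blk P.pt
        · rw [if_pos h6, if_pos h6]
          push_cast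
          ring
        · rw [if_neg h6, if_neg h6]
          push_cast
          ring
    exact h3 l fun P hP => hP
  rw [h2] at h1
  have h4 : (r : ℤ) = (((l.map fun P => if s ∈ blk P.pt ∧ t ∈ blk P.pt then P.e / P.k else 0).sum : ℕ) : ℤ) := by
    linarith
  exact_mod_cast h4.symm

/-- The number of points on the section `i`, with the orders of contact, is larger than `r`, unless
all sections meet in the same points. -/
theorem deg_gt {r : ℕ} {l : List (Sg m)} (hm : 1 ≤ m) (hl : IsCurve m r l)
    (hk : ∀ P ∈ l, P.k ∣ P.e) (h' : ∃ P ∈ l, P.k ≤ m) (i : Fin (m + 1)) :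
    r < (l.map fun P => if i ∈ blk P.pt then P.e / P.k else 0).sum := by
  have hq : ∀ P ∈ l, 1 ≤ P.e / P.k := by
    intro P hP
    obtain ⟨h1, h2, h3⟩ := hl.1 P hP
    exact Nat.div_pos (Nat.le_of_dvd h3 (hk P hP)) (by omega)
  obtain ⟨j, hj⟩ : ∃ j : Fin (m + 1), i ≠ j := by
    by_cases hi : i.val = 0
    · exact ⟨⟨1, by omega⟩, fun h => by simp [h] at hi⟩
    · exact ⟨⟨0, by omega⟩, fun h => hi (by rw [h])⟩
  have hle : r ≤ (l.map fun P => if i ∈ blk P.pt then P.e / P.k else 0).sum := by
    rw [← pair_sum hl hk i j hj]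
    refine List.sum_le_sum fun P _ => ?_
    by_cases h1 : i ∈ blk P.pt
    · rw [if_pos h1]
      split_ifs <;> simp
    · rw [if_neg h1, if_neg fun h => h1 h.1]
  by_contra hR
  push Not at hR
  have hall : ∀ P ∈ l, i ∈ blk P.pt → ∀ j, j ∈ blk P.pt := by
    intro P hP hi j
    by_contra hj'
    have hij : i ≠ j := fun h => hj' (h ▸ hi)
    have h2 : (l.map fun P => if i ∈ blk P.pt ∧ j ∈ blk P.pt then P.e / P.k else 0).sum <
        (l.map fun P => if i ∈ blk P.pt then P.e / P.k else 0).sum := by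
      refine List.sum_lt_sum _ _ (fun Q _ => ?_) ⟨P, hP, ?_⟩
      · by_cases h1 : i ∈ blk Q.pt
        · rw [if_pos h1]
          split_ifs <;> simp
        · rw [if_neg h1, if_neg fun h => h1 h.1]
      · rw [if_pos hi, if_neg fun h => hj' h.2]
        exact hq P hP
    rw [pair_sum hl hk i j hij] at h2
    omega
  obtain ⟨P0, hP0, hk0⟩ := h'
  obtain ⟨h1, h2, h3⟩ := hl.1 P0 hP0
  have hc : (blk P0.pt).card = P0.k := card_blk P0.pt h2
  by_cases hi : i ∈ blk P0.pt
  · have h4 : blk P0.pt = univ := eq_univ_iff_forall.mpr (hall P0 hP0 hi)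
    rw [h4, card_univ, Fintype.card_fin] at hc
    omega
  · obtain ⟨u, hu, v, hv, huv⟩ := one_lt_card.mp (by rw [hc]; omega : 1 < (blk P0.pt).card)
    have h5 : (l.map fun P => if i ∈ blk P.pt then P.e / P.k else 0).sum <
        (l.map fun P => if u ∈ blk P.pt ∧ v ∈ blk P.pt then P.e / P.k else 0).sum := by
      refine List.sum_lt_sum _ _ (fun Q hQ => ?_) ⟨P0, hP0, ?_⟩
      · by_cases h1 : i ∈ blk Q.pt
        · rw [if_pos h1, if_pos ⟨hall Q hQ h1 u, hall Q hQ h1 v⟩]
        · rw [if_neg h1]
          exact Nat.zero_le _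
      · rw [if_neg hi, if_pos ⟨hu, hv⟩]
        exact hq P0 hP0
    rw [pair_sum hl hk u v huv] at h5
    omega

/-- **The number of points** (Fisher's inequality; de Bruijn and Erdős for `r = 1`). -/
theorem fisher {r : ℕ} {l : List (Sg m)} (hm : 1 ≤ m) (hl : IsCurve m r l)
    (hk : ∀ P ∈ l, P.k ∣ P.e) (h' : ∃ P ∈ l, P.k ≤ m) : m + 1 ≤ l.length := by
  classical
  let A : (Fin (m + 1) → ℚ) →ₗ[ℚ] (Fin l.length → ℚ) :=
    { toFun := fun x j => ∑ i ∈ blk (l.get j).pt, x i
      map_add' := fun x y => by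
        funext j
        simp [sum_add_distrib]
      map_smul' := fun c x => by
        funext j
        simp [mul_sum] }
  have hinj : Function.Injective A := by
    rw [← LinearMap.ker_eq_bot, LinearMap.ker_eq_bot']
    intro x hx
    have h0 : ∀ P ∈ l, ∑ i ∈ blk P.pt, x i = 0 := by
      intro P hP
      obtain ⟨j, rfl⟩ := List.get_of_mem hP
      exact congrFun hx j
    let S : Fin (m + 1) → Fin (m + 1) → ℕ := fun i j =>
      (l.map fun P => if i ∈ blk P.pt ∧ j ∈ blk P.pt then P.e / P.k else 0).sum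
    have h1 : ∀ l' : List (Sg m), (∀ P ∈ l', P ∈ l) → ∑ i, ∑ j, x i * x j *
        (((l'.map fun P => if i ∈ blk P.pt ∧ j ∈ blk P.pt then P.e / P.k else 0).sum : ℕ) : ℚ) = 0 := by
      intro l' hl'
      induction l' with
      | nil => simp
      | cons P l' ih =>
        have h2 : ∀ i j : Fin (m + 1), x i * x j *
            ((((P :: l').map fun P => if i ∈ blk P.pt ∧ j ∈ blk P.pt then P.e / P.k else 0).sum : ℕ) : ℚ) =
            ((P.e / P.k : ℕ) : ℚ) * ((if i ∈ blk P.pt then x i else 0) * (if j ∈ blk P.pt then x j else 0)) +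
              x i * x j *
            (((l'.map fun P => if i ∈ blk P.pt ∧ j ∈ blk P.pt then P.e / P.k else 0).sum : ℕ) : ℚ) := by
          intro i j
          rw [List.map_cons, List.sum_cons, Nat.cast_add, mul_add]
          congr 1
          by_cases hi : i ∈ blk P.pt <;> by_cases hj : j ∈ blk P.pt <;> simp [hi, hj] <;> ring
        simp only [h2, sum_add_distrib]
        rw [ih fun Q hQ => hl' Q (List.mem_cons_of_mem _ hQ), add_zero]
        simp only [← mul_sum, ← sum_mul]
        rw [← sum_filter, filter_mem_eq_inter, univ_inter, h0 P (hl' P List.mem_cons_self)]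
        ring
    have h2 := h1 l fun P hP => hP
    have hS : ∀ i j : Fin (m + 1), (((l.map fun P => if i ∈ blk P.pt ∧ j ∈ blk P.pt then P.e / P.k else 0).sum : ℕ) : ℚ) =
        r + if i = j then
          ((((l.map fun P => if i ∈ blk P.pt then P.e / P.k else 0).sum : ℕ) : ℚ) - r) else 0 := by
      intro i j
      by_cases hij : i = j
      · subst hij
        rw [if_pos rfl]
        simp only [and_self]
        ring
      · rw [if_neg hij, pair_sum hl hk i j hij, add_zero]
    simp only [hS, mul_add, sum_add_distrib, mul_ite, mul_zero, sum_ite_eq, mem_univ, if_true] at h2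
    have h3 : ∑ i, ∑ j, x i * x j * (r : ℚ) = r * (∑ i, x i) ^ 2 := by
      rw [sq, sum_mul_sum, mul_sum]
      refine sum_congr rfl fun i _ => ?_
      rw [mul_sum]
      exact sum_congr rfl fun j _ => by ring
    rw [h3] at h2
    have h4 : ∀ i ∈ (univ : Finset (Fin (m + 1))), 0 ≤ x i * x i *
        ((((l.map fun P => if i ∈ blk P.pt then P.e / P.k else 0).sum : ℕ) : ℚ) - r) := by
      intro i _
      have h5 : (r : ℚ) < (((l.map fun P => if i ∈ blk P.pt then P.e / P.k else 0).sum : ℕ) : ℚ) := by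
        exact_mod_cast deg_gt hm hl hk h' i
      exact mul_nonneg (mul_self_nonneg _) (by linarith)
    have h6 : ∑ i, x i * x i *
        ((((l.map fun P => if i ∈ blk P.pt then P.e / P.k else 0).sum : ℕ) : ℚ) - r) = 0 := by
      have h7 := sum_nonneg h4
      have h8 : (0 : ℚ) ≤ r * (∑ i, x i) ^ 2 := by positivity
      linarith
    funext i
    have h9 := (sum_eq_zero_iff_of_nonneg h4).mp h6 i (mem_univ i)
    have h5 : (r : ℚ) < (((l.map fun P => if i ∈ blk P.pt then P.e / P.k else 0).sum : ℕ) : ℚ) := by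
      exact_mod_cast deg_gt hm hl hk h' i
    rcases mul_eq_zero.mp h9 with h10 | h10
    · simpa using h10
    · linarith
  have h := LinearMap.finrank_le_finrank_of_injective hinj
  simpa using h

end Pool.Agent.Helper46.BMY
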