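import Pool.Agent.Helper46.BMY.SCt
import Pool.Agent.Helper46.BMY.SPair

/-!
# Double covers branched along arrangements of symplectic sections: the inequality
-/

set_option autoImplicit false

open Finset

namespace Pool.Agent.Helper46.BMY

variable {m : ℕ}

/-- The sums over the points. -/
theorem sec_sum {f r : ℕ} {l : List (Sg m)} (hm : 2 ≤ m) (hd : m + 1 = 2 * f)
    (hl : IsCurve m r l) (hk : ∀ P ∈ l, P.k ∣ P.e) :
    3 * sumS l (fun P => 12 * (g2 P.k (P.e / P.k)).1) + 2 * l.length +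
      sumS l (fun P => ex P.k (P.e / P.k)) ≤
        4 * sumS l (fun P => (g2 P.k (P.e / P.k)).2) + r * (10 * f ^ 2 - 2 * f) := by
  have hf : 1 ≤ f ∧ f ≤ m := by omega
  have h1 := sum_nt hm hf hl
  have h2 := sum_deg hl
  have h3 : NI m f = f * (f - 1) := by
    unfold NI
    have e : m + 1 - f = f := by omega
    rw [e, Nat.choose_two_right]
    have := Nat.mul_div_cancel' (Nat.even_mul_pred_self f).two_dvd
    omega
  rw [h3] at h1
  obtain ⟨f', rfl⟩ : ∃ f', f = f' + 1 := ⟨f - 1, by omega⟩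
  have h4 : (m + 1) * m - (f' + 1) * (f' + 1 - 1) = (f' + 1) * (3 * f' + 2) := by
    have e : m = 2 * f' + 1 := by omega
    subst e
    rw [Nat.add_sub_cancel]
    have e2 : (2 * f' + 1 + 1) * (2 * f' + 1) = (f' + 1) * (3 * f' + 2) + (f' + 1) * f' := by ring
    rw [e2, Nat.add_sub_cancel]
  rw [h4] at h1
  have h5 : ∀ l' : List (Sg m), (∀ P ∈ l', P ∈ l) →
      3 * sumS l' (fun P => 12 * (g2 P.k (P.e / P.k)).1) + 2 * l'.length +
        sumS l' (fun P => ex P.k (P.e / P.k)) + 2 * (((l'.map fun P => (P.k - 1) * P.e).sum : ℕ) : ℤ) ≤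
        4 * sumS l' (fun P => (g2 P.k (P.e / P.k)).2) +
          6 * (((l'.map fun P => nt m (f' + 1) P.k P.e).sum : ℕ) : ℤ) := by
    intro l' hl'
    induction l' with
    | nil => simp [sumS]
    | cons P l' ih =>
      have ih' := ih fun Q hQ => hl' Q (List.mem_cons_of_mem _ hQ)
      have hP : P ∈ l := hl' P List.mem_cons_self
      obtain ⟨h6, h7, h8⟩ := hl.1 P hP
      obtain ⟨q, hq⟩ := hk P hP
      have hk0 : 0 < P.k := by omega
      have hq' : P.e / P.k = q := by rw [hq, Nat.mul_div_cancel_left _ hk0]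
      have hq1 : 1 ≤ q := by
        rcases Nat.eq_zero_or_pos q with h | h
        · rw [h, mul_zero] at hq
          omega
        · exact h
      have h9 := loc_sec h6 hq1
      have h10 : nt m (f' + 1) P.k P.e = ct 2 P.k P.e := nt_ct hd (by omega) _ _
      unfold sumS at ih' ⊢
      simp only [List.map_cons, List.sum_cons, List.length_cons]
      rw [h10, hq', hq]
      push_cast at ih' ⊢
      have h11 : (36 * ((g2 P.k q).1 : ℤ) + 2 * (((P.k - 1 : ℕ) : ℤ) * (P.k * q)) + (2 + ex P.k q)) ≤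
          4 * (g2 P.k q).2 + 6 * ct 2 P.k (P.k * q) := by exact_mod_cast h9
      linarith
  have h6 := h5 l fun P hP => hP
  have h7 : (((l.map fun P => nt m (f' + 1) P.k P.e).sum : ℕ) : ℤ) ≤
      ((r * ((f' + 1) * (3 * f' + 2)) : ℕ) : ℤ) := by exact_mod_cast h1
  have e : (m + 1) * m = (2 * (f' + 1)) * (2 * f' + 1) := by
    rw [hd]
    congr 1
    omega
  have h8 : (((l.map fun P => (P.k - 1) * P.e).sum : ℕ) : ℤ) =
      ((r * ((2 * (f' + 1)) * (2 * f' + 1)) : ℕ) : ℤ) := by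
    rw [h2, e]
  rw [h8] at h6
  push_cast at h6 h7 ⊢
  nlinarith

theorem sec_main {f r : ℕ} {l : List (Sg m)} (hm : 2 ≤ m) (hd : m + 1 = 2 * f)
    (hl : IsCurve m r l) (hk : ∀ P ∈ l, P.k ∣ P.e) :
    sOneSqF f r l + 8 + 2 * (l.length - (m + 1)) + sumS l (fun P => ex P.k (P.e / P.k)) ≤
      3 * sTwoF (m + 1) r l ∧
    (r = 1 → sOneSq f l + 2 * (l.length - (m + 1)) + sumS l (fun P => ex P.k (P.e / P.k)) ≤
      3 * sTwo (m + 1) l) := by
  have h := sec_sum hm hd hl hk
  have hd' : (m : ℤ) + 1 = 2 * f := by exact_mod_cast hd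
  refine ⟨?_, fun hr => ?_⟩
  · unfold sOneSqF sTwoF
    push_cast
    rw [hd']
    nlinarith
  · subst hr
    unfold sOneSq sTwo
    push_cast at h ⊢
    rw [hd']
    nlinarith

theorem sumS_nonneg (l : List (Sg m)) (w : Sg m → ℕ) : 0 ≤ sumS l w := Int.natCast_nonneg _

end Pool.Agent.Helper46.BMY
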