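import Pool.Agent.Helper46.BMY.LDef
import Pool.Agent.Helper46.BMY.SFin

/-!
# Double planes branched along symplectic line arrangements
-/

set_option autoImplicit false

namespace Pool.Agent.Helper46.BMY

open Pool.Agent.Helper81.SBA (BraidGroup run twist Pt)

/-- The special point of a curve. -/
def ofPt {m : ℕ} (P : Pt m) : Sg m := ⟨P.g, P.a, P.k, P.k⟩

theorem isSec_curve {m r : ℕ} {l : List (Pt m)} (h : IsSec m r l) : IsCurve m r (l.map ofPt) := by
  refine ⟨?_, ?_⟩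
  · intro P hP
    obtain ⟨Q, hQ, rfl⟩ := List.mem_map.mp hP
    have := h.1 Q hQ
    exact ⟨this.1, this.2, by unfold ofPt; show 1 ≤ Q.k; omega⟩
  · rw [← h.2, List.map_map]
    rfl

theorem g2_one {k : ℕ} (hk : 2 ≤ k) :
    (12 * (g2 k 1).1 : ℤ) - (g2 k 1).2 = 2 * ((k / 2 : ℕ) - 1) * (2 * (k / 2 : ℕ) + 1) ∧
      ((g2 k 1).2 : ℤ) = 2 * ((k / 2 : ℕ) - 1) ^ 2 := by
  have h1 : g2 k 1 = ((k / 2).choose 2, 2 * (k / 2 - 1) ^ 2) := by
    unfold g2
    split_ifs <;> simp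
  obtain ⟨h, hh⟩ : ∃ h, k / 2 = h + 1 := ⟨k / 2 - 1, by omega⟩
  have h2 : 2 * (h + 1).choose 2 = (h + 1) * h := by
    rw [Nat.choose_two_right, Nat.add_sub_cancel]
    exact Nat.mul_div_cancel' (by rw [mul_comm]; exact (Nat.even_mul_succ_self h).two_dvd)
  have h3 : (2 * (h + 1).choose 2 : ℤ) = (h + 1) * h := by exact_mod_cast h2
  rw [h1, hh]
  simp only [Nat.add_sub_cancel]
  push_cast
  constructor
  · linear_combination 6 * h3
  · ring

theorem ex_one {k : ℕ} : ((ex k 1 : ℕ) : ℤ) = if k % 2 = 1 then 2 * (k : ℤ) + 4 else 0 := by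
  unfold ex
  rcases Nat.mod_two_eq_zero_or_one k with h | h
  · simp [h]
  · simp [h]
    ring

theorem sec_sums {m : ℕ} (l : List (Pt m)) (h : ∀ P ∈ l, 2 ≤ P.k) :
    (sumS (l.map ofPt) (fun P => 12 * (g2 P.k (P.e / P.k)).1) -
        sumS (l.map ofPt) fun P => (g2 P.k (P.e / P.k)).2) =
      (ptSum l fun k => 2 * ((k / 2 : ℕ) - 1) * (2 * (k / 2 : ℕ) + 1)) ∧
    (sumS (l.map ofPt) fun P => (g2 P.k (P.e / P.k)).2) =
      (ptSum l fun k => 2 * ((k / 2 : ℕ) - 1) ^ 2) ∧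
    (sumS (l.map ofPt) fun P => ex P.k (P.e / P.k)) =
      ptSum l fun k => if k % 2 = 1 then 2 * (k : ℤ) + 4 else 0 := by
  induction l with
  | nil => simp [sumS, ptSum]
  | cons P l ih =>
    obtain ⟨h1, h2, h3⟩ := ih fun Q hQ => h Q (List.mem_cons_of_mem _ hQ)
    have hP := h P List.mem_cons_self
    have hq : P.k / P.k = 1 := Nat.div_self (by omega)
    obtain ⟨h4, h5⟩ := g2_one hP
    have h6 := ex_one (k := P.k)
    unfold sumS ptSum ofPt at *
    simp only [List.map_cons, List.sum_cons, Nat.cast_add, Nat.cast_mul, Nat.cast_ofNat, hq] at *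
    refine ⟨?_, ?_, ?_⟩
    · linarith
    · linarith
    · linarith

/-- **The theorem.** -/
theorem plane_main {m f r : ℕ} {l : List (Pt m)} (hd : m + 1 = 2 * f) (hf : 2 ≤ f)
    (hl : IsSec m r l) :
    (planeOneF f r l + 8 + 2 * (l.length - 2 * f) +
        (ptSum l fun k => if k % 2 = 1 then 2 * (k : ℤ) + 4 else 0) ≤ 3 * planeTwoF f r l) ∧
    (r = 1 → planeOne f l + 2 * (l.length - 2 * f) +
        (ptSum l fun k => if k % 2 = 1 then 2 * (k : ℤ) + 4 else 0) ≤ 3 * planeTwo f l) ∧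
    ((∃ P ∈ l, P.k ≤ m) → 2 * f ≤ l.length) := by
  have hc := isSec_curve hl
  have hk : ∀ P ∈ l.map ofPt, P.k ∣ P.e := by
    intro P hP
    obtain ⟨Q, hQ, rfl⟩ := List.mem_map.mp hP
    exact dvd_refl _
  obtain ⟨h1, h2⟩ := sec_main (by omega) hd hc hk
  obtain ⟨s1, s2, s3⟩ := sec_sums l fun P hP => (hl.1 P hP).1
  have hd' : (m : ℤ) + 1 = 2 * f := by exact_mod_cast hd
  have e1 : planeOneF f r l = sOneSqF f r (l.map ofPt) := by
    unfold planeOneF sOneSqF
    rw [s2]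
  have e2 : planeTwoF f r l = sTwoF (m + 1) r (l.map ofPt) := by
    unfold planeTwoF sTwoF
    rw [s1]
    push_cast
    rw [hd']
    ring
  have e3 : planeOne f l = sOneSq f (l.map ofPt) := by
    unfold planeOne sOneSq
    rw [s2]
  have e4 : planeTwo f l = sTwo (m + 1) (l.map ofPt) := by
    unfold planeTwo sTwo
    rw [s1]
    push_cast
    rw [hd']
    ring
  rw [e1, e2, e3, e4, ← s3]
  rw [List.length_map, hd'] at h1 h2
  refine ⟨h1, h2, ?_⟩
  rintro ⟨P, hP, hPk⟩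
  have h3 := fisher (by omega) hc hk ⟨ofPt P, List.mem_map_of_mem hP, hPk⟩
  rw [List.length_map] at h3
  omega

end Pool.Agent.Helper46.BMY
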