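import Mathlib

/-!
# Symplectic curves with mild singularities and their cyclic covers: definitions

`BraidGroup m` is Artin's braid group on `m + 1` strands.
-/

set_option autoImplicit false

namespace Pool.Agent.Helper46.MC

/-- The Artin relations of the braid group on `m + 1` strands. -/
def artinRels (m : ℕ) : Set (FreeGroup (Fin m)) :=
  {r | ∃ i j : Fin m,
      (i.val + 1 = j.val ∧
        r = FreeGroup.of i * FreeGroup.of j * FreeGroup.of i *
          (FreeGroup.of j * FreeGroup.of i * FreeGroup.of j)⁻¹) ∨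
      (i.val + 2 ≤ j.val ∧
        r = FreeGroup.of i * FreeGroup.of j * (FreeGroup.of j * FreeGroup.of i)⁻¹)}

/-- The braid group on `m + 1` strands. -/
abbrev BraidGroup (m : ℕ) : Type := PresentedGroup (artinRels m)

/-- `run m a n = σ_a σ_{a+1} ⋯ σ_{a+n-1}`. -/
def run (m a : ℕ) : ℕ → BraidGroup m
  | 0 => 1
  | n + 1 => run m a n * if h : a + n < m then PresentedGroup.of ⟨a + n, h⟩ else 1

/-- The full twist `Δ²` of all strands. -/
def fullTwist (m : ℕ) : BraidGroup m := run m 0 m ^ (m + 1)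

/-- A special point of a curve of degree `m + 1` over the base: after the braid `g`, the strands
`a, ..., a + k - 1` meet in a point with the local equation `y ^ k = x ^ e`. -/
structure Sg (m : ℕ) where
  g : BraidGroup m
  a : ℕ
  k : ℕ
  e : ℕ

/-- The local braid monodromy `(σ_a ⋯ σ_{a + k - 2}) ^ e`, conjugated by `g`. -/
def Sg.braid {m : ℕ} (P : Sg m) : BraidGroup m := P.g * run m P.a (P.k - 1) ^ P.e * P.g⁻¹

/-- The braid monodromy factorisation of a curve of degree `m + 1` over the base of the Hirzebruch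
surface `F_r`, disjoint from the section of square `-r`; for `r = 1` also of a curve of degree `m + 1`
in the projective plane. -/
def IsCurve (m r : ℕ) (l : List (Sg m)) : Prop :=
  (∀ P ∈ l, 2 ≤ P.k ∧ P.a + P.k ≤ m + 1 ∧ 1 ≤ P.e) ∧ (l.map Sg.braid).prod = fullTwist m ^ r

/-- All special points are vertical tangents, nodes, cusps, tacnodes, vertical inflection points or
ordinary triple points. -/
def Mild {m : ℕ} (l : List (Sg m)) : Prop :=
  ∀ P ∈ l, P.k = 2 ∧ P.e ≤ 4 ∨ P.k = 3 ∧ P.e ≤ 3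

/-- The number of cusps (`y ^ 2 = x ^ 3` or `y ^ 3 = x ^ 2`). -/
def cusps {m : ℕ} (l : List (Sg m)) : ℕ :=
  l.countP fun P => P.k = 2 ∧ P.e = 3 ∨ P.k = 3 ∧ P.e = 2

/-- The number of tacnodes (`y ^ 2 = x ^ 4`). -/
def tacnodes {m : ℕ} (l : List (Sg m)) : ℕ := l.countP fun P => P.k = 2 ∧ P.e = 4

/-- The number of ordinary triple points (`y ^ 3 = x ^ 3`). -/
def triples {m : ℕ} (l : List (Sg m)) : ℕ := l.countP fun P => P.k = 3 ∧ P.e = 3

/-- `c_1 ^ 2` of the minimal resolution of the `n`-fold cyclic cover of `F_r` branched along the curve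
of degree `d = n f` over the base. -/
def chernOneF {m : ℕ} (n f r : ℕ) (l : List (Sg m)) : ℤ :=
  n * (r * ((n - 1) * f - 2) ^ 2 + 2 * (r - 2) * ((n - 1) * f - 2)) -
    ((n / 6 : ℕ) * cusps l + 2 * (n / 4 : ℕ) * tacnodes l + 3 * (n / 3 : ℕ) * triples l)

/-- `c_2` of this cover. -/
def chernTwoF {m : ℕ} (n f r : ℕ) (l : List (Sg m)) : ℤ :=
  4 * n + (n - 1) * (r * (n * f) ^ 2 - r * (n * f) - 2 * (n * f)) -
    (11 * (n / 6 : ℕ) * cusps l + 10 * (n / 4 : ℕ) * tacnodes l + 9 * (n / 3 : ℕ) * triples l)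

/-- `c_1 ^ 2` of the minimal resolution of the `n`-fold cyclic cover of the projective plane branched
along the curve of degree `d = n f`. -/
def chernOne {m : ℕ} (n f : ℕ) (l : List (Sg m)) : ℤ :=
  n * ((n - 1) * f - 3) ^ 2 -
    ((n / 6 : ℕ) * cusps l + 2 * (n / 4 : ℕ) * tacnodes l + 3 * (n / 3 : ℕ) * triples l)

/-- `c_2` of this cover. -/
def chernTwo {m : ℕ} (n f : ℕ) (l : List (Sg m)) : ℤ :=
  3 * n + (n - 1) * ((n * f) ^ 2 - 3 * (n * f)) -
    (11 * (n / 6 : ℕ) * cusps l + 10 * (n / 4 : ℕ) * tacnodes l + 9 * (n / 3 : ℕ) * triples l)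

end Pool.Agent.Helper46.MC
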