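import Pool.Agent.Helper46.BMY.MDef
import Pool.Agent.Helper46.BMY.KFin

/-!
# Symplectic curves with mild singularities: the same with the definitions of `MDef`
-/

set_option autoImplicit false

namespace Pool.Agent.Helper46.MC

open Pool.Agent.Helper46

/-- The special point with the old definitions. -/
def old {m : ℕ} (P : Sg m) : BMY.Sg m := ⟨P.g, P.a, P.k, P.e⟩

theorem run_old (m a n : ℕ) : run m a n = Pool.Agent.Helper81.SBA.run m a n := by
  induction n with
  | zero => rfl
  | succ n ih =>
    unfold run Pool.Agent.Helper81.SBA.run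
    rw [ih]
    rfl

theorem braid_old {m : ℕ} (P : Sg m) : P.braid = (old P).braid := by
  unfold Sg.braid BMY.Sg.braid
  rw [run_old]
  rfl

theorem prod_old {m : ℕ} (l : List (Sg m)) :
    (l.map Sg.braid).prod = ((l.map old).map BMY.Sg.braid).prod := by
  induction l with
  | nil => rfl
  | cons P l ih =>
    simp only [List.map_cons, List.prod_cons]
    rw [ih, braid_old]
    rfl

theorem curve_old {m r : ℕ} {l : List (Sg m)} (h : IsCurve m r l) :
    BMY.IsCurve m r (l.map old) := by
  refine ⟨?_, ?_⟩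
  · intro P hP
    obtain ⟨Q, hQ, rfl⟩ := List.mem_map.mp hP
    exact h.1 Q hQ
  · have h1 := h.2
    rw [prod_old] at h1
    refine Eq.trans h1 ?_
    unfold fullTwist Pool.Agent.Helper81.SBA.twist
    rw [run_old]
    rfl

theorem mild_old {m : ℕ} {l : List (Sg m)} (h : Mild l) : BMY.Mild (l.map old) := by
  intro P hP
  obtain ⟨Q, hQ, rfl⟩ := List.mem_map.mp hP
  exact h Q hQ

theorem cusps_old {m : ℕ} (l : List (Sg m)) : BMY.cusps (l.map old) = cusps l := by
  unfold BMY.cusps cusps
  rw [List.countP_map]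
  rfl

theorem tacnodes_old {m : ℕ} (l : List (Sg m)) : BMY.tacnodes (l.map old) = tacnodes l := by
  unfold BMY.tacnodes tacnodes
  rw [List.countP_map]
  rfl

theorem triples_old {m : ℕ} (l : List (Sg m)) : BMY.triples (l.map old) = triples l := by
  unfold BMY.triples triples
  rw [List.countP_map]
  rfl

/-- **The theorem.** -/
theorem main {m n f r : ℕ} {l : List (Sg m)} (hn : 2 ≤ n) (hm : 2 ≤ m) (hr : 1 ≤ r)
    (hd : m + 1 = n * f) (hl : IsCurve m r l) (h : Mild l) :
    chernOneF n f r l ≤ 3 * chernTwoF n f r l ∧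
    14 * chernOneF n f r l + n * r * (m + 1) * (m + 1 - 15) ≤ 42 * chernTwoF n f r l ∧
    (r = 1 → 14 * chernOne n f l + n * (m + 1) * (m + 1 - 15) ≤ 42 * chernTwo n f l ∧
      (12 < m + 1 ∨ n ≠ 4 ∧ n ≠ 6 → chernOne n f l ≤ 3 * chernTwo n f l)) := by
  have h1 := BMY.mild_main hn hm hr hd (curve_old hl) (mild_old h)
  unfold BMY.chernOneF BMY.chernTwoF BMY.chernOne BMY.chernTwo at h1
  rw [cusps_old, tacnodes_old, triples_old] at h1
  exact h1

end Pool.Agent.Helper46.MC
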