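import Mathlib

/-!
# Double planes branched along symplectic line arrangements: definitions

`BraidGroup m` is Artin's braid group on `m + 1` strands.
-/

set_option autoImplicit false

namespace Pool.Agent.Helper46.DP

/-- The Artin relations of the braid group on `m + 1` strands. -/
def artinRels (m : ℕ) : Set (FreeGroup (Fin m)) :=
  {r | ∃ i j : Fin m,
      (i.val + 1 = j.val ∧
        r = FreeGroup.of i * FreeGroup.of j * FreeGroup.of i *
          (FreeGroup.of j * FreeGroup.of i * FreeGroup.of j)⁻¹) ∨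
      (i.val + 2 ≤ j.val ∧
        r = FreeGroup.of i * FreeGroup.of j * (FreeGroup.of j * FreeGroup.of i)⁻¹)}

/-- The braid group on `m + 1` strands. -/
abbrev BraidGroup (m : ℕ) : Type := PresentedGroup (artinRels m)

/-- `run m a n = σ_a σ_{a+1} ⋯ σ_{a+n-1}`. -/
def run (m a : ℕ) : ℕ → BraidGroup m
  | 0 => 1
  | n + 1 => run m a n * if h : a + n < m then PresentedGroup.of ⟨a + n, h⟩ else 1

/-- The full twist of the `k` adjacent strands `a, ..., a + k - 1`. -/
def twist (m a k : ℕ) : BraidGroup m := run m a (k - 1) ^ k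

/-- A point in which `k` lines meet: they are the adjacent strands `a, ..., a + k - 1` after the
braid `g`. -/
structure Pt (m : ℕ) where
  g : BraidGroup m
  a : ℕ
  k : ℕ

/-- The local braid monodromy of a point. -/
def Pt.braid {m : ℕ} (P : Pt m) : BraidGroup m := P.g * twist m P.a P.k * P.g⁻¹

/-- An arrangement of `m + 1` symplectic sections of the Hirzebruch surface `F_r`, disjoint from the
section of square `-r`, with transversal intersections, given by its braid monodromy factorisation
`Δ^(2 r) = ∏ g_j T_{k_j} g_j⁻¹`. For `r = 1` also an arrangement of `m + 1` symplectic lines in the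
projective plane. -/
def IsSec (m r : ℕ) (l : List (Pt m)) : Prop :=
  (∀ P ∈ l, 2 ≤ P.k ∧ P.a + P.k ≤ m + 1) ∧ (l.map Pt.braid).prod = twist m 0 (m + 1) ^ r

/-- The sum over the points. -/
def ptSum {m : ℕ} (l : List (Pt m)) (w : ℕ → ℤ) : ℤ := (l.map fun P => w P.k).sum

/-- `c_1 ^ 2` of the minimal resolution of the double plane branched along an arrangement of
`2 f` lines: every `k`-fold point diminishes it by `2 (h - 1) ^ 2`, where `h` is the integral part of
`k / 2`. -/
def planeOne {m : ℕ} (f : ℕ) (l : List (Pt m)) : ℤ :=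
  2 * (f - 3) ^ 2 - ptSum l fun k => 2 * ((k / 2 : ℕ) - 1) ^ 2

/-- `c_2` of this surface: every `k`-fold point diminishes it by `2 (h - 1) (2 h + 1)`. -/
def planeTwo {m : ℕ} (f : ℕ) (l : List (Pt m)) : ℤ :=
  4 * f ^ 2 - 6 * f + 6 - ptSum l fun k => 2 * ((k / 2 : ℕ) - 1) * (2 * (k / 2 : ℕ) + 1)

/-- `c_1 ^ 2` of the minimal resolution of the double cover of `F_r` branched along an arrangement
of `2 f` sections. -/
def planeOneF {m : ℕ} (f r : ℕ) (l : List (Pt m)) : ℤ :=
  2 * (r * (f - 2) ^ 2 + 2 * (r - 2) * (f - 2)) - ptSum l fun k => 2 * ((k / 2 : ℕ) - 1) ^ 2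

/-- `c_2` of this surface. -/
def planeTwoF {m : ℕ} (f r : ℕ) (l : List (Pt m)) : ℤ :=
  8 + (4 * r * f ^ 2 - 2 * r * f - 4 * f) -
    ptSum l fun k => 2 * ((k / 2 : ℕ) - 1) * (2 * (k / 2 : ℕ) + 1)

end Pool.Agent.Helper46.DP
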