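import Pool.Agent.Helper46.BMY.PDef
import Pool.Agent.Helper46.BMY.LFin

/-!
# Double planes branched along symplectic line arrangements: the same with the definitions of `PDef`
-/

set_option autoImplicit false

namespace Pool.Agent.Helper46.DP

open Pool.Agent.Helper46

/-- The point with the old definitions. -/
def old {m : ℕ} (P : Pt m) : Pool.Agent.Helper81.SBA.Pt m := ⟨P.g, P.a, P.k⟩

theorem run_old (m a n : ℕ) : run m a n = Pool.Agent.Helper81.SBA.run m a n := by
  induction n with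
  | zero => rfl
  | succ n ih =>
    unfold run Pool.Agent.Helper81.SBA.run
    rw [ih]
    rfl

theorem braid_old {m : ℕ} (P : Pt m) : P.braid = (old P).braid := by
  unfold Pt.braid Pool.Agent.Helper81.SBA.Pt.braid twist
  rw [run_old]
  rfl

theorem prod_old {m : ℕ} (l : List (Pt m)) :
    (l.map Pt.braid).prod = ((l.map old).map Pool.Agent.Helper81.SBA.Pt.braid).prod := by
  induction l with
  | nil => rfl
  | cons P l ih =>
    simp only [List.map_cons, List.prod_cons]
    rw [ih, braid_old]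
    rfl

theorem sec_old {m r : ℕ} {l : List (Pt m)} (h : IsSec m r l) : BMY.IsSec m r (l.map old) := by
  refine ⟨?_, ?_⟩
  · intro P hP
    obtain ⟨Q, hQ, rfl⟩ := List.mem_map.mp hP
    exact h.1 Q hQ
  · have h1 := h.2
    rw [prod_old] at h1
    refine Eq.trans h1 ?_
    unfold twist Pool.Agent.Helper81.SBA.twist
    rw [run_old]
    rfl

theorem ptSum_old {m : ℕ} (l : List (Pt m)) (w : ℕ → ℤ) : BMY.ptSum (l.map old) w = ptSum l w := by
  unfold BMY.ptSum ptSum
  rw [List.map_map]
  rfl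

theorem odd_nonneg {m : ℕ} (l : List (Pt m)) :
    0 ≤ ptSum l fun k => if k % 2 = 1 then 2 * (k : ℤ) + 4 else 0 := by
  refine List.sum_nonneg fun x hx => ?_
  obtain ⟨P, _, rfl⟩ := List.mem_map.mp hx
  dsimp only
  split_ifs
  · positivity
  · exact le_refl _

/-- **The theorem.** -/
theorem main :
    (∀ (m f : ℕ) (l : List (Pt m)), m + 1 = 2 * f → 2 ≤ f → IsSec m 1 l → (∃ P ∈ l, P.k ≤ m) →
      2 * f ≤ l.length ∧
      planeOne f l + 2 * (l.length - 2 * f) +
        (ptSum l fun k => if k % 2 = 1 then 2 * (k : ℤ) + 4 else 0) ≤ 3 * planeTwo f l ∧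
      planeOne f l ≤ 3 * planeTwo f l) ∧
    (∀ (m f r : ℕ) (l : List (Pt m)), m + 1 = 2 * f → 2 ≤ f → IsSec m r l → (∃ P ∈ l, P.k ≤ m) →
      2 * f ≤ l.length ∧
      planeOneF f r l + 8 + 2 * (l.length - 2 * f) +
        (ptSum l fun k => if k % 2 = 1 then 2 * (k : ℤ) + 4 else 0) ≤ 3 * planeTwoF f r l) := by
  refine ⟨fun m f l hd hf hl hp => ?_, fun m f r l hd hf hl hp => ?_⟩
  · obtain ⟨-, h2, h3⟩ := BMY.plane_main hd hf (sec_old hl)
    have h4 := h2 rfl
    have h5 := h3 (by
      obtain ⟨P, hP, hPk⟩ := hp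
      exact ⟨old P, List.mem_map_of_mem hP, hPk⟩)
    unfold BMY.planeOne BMY.planeTwo at h4
    rw [ptSum_old, ptSum_old, ptSum_old, List.length_map] at h4
    rw [List.length_map] at h5
    have h6 : (2 * f : ℤ) ≤ l.length := by exact_mod_cast h5
    have h7 := odd_nonneg l
    refine ⟨h5, h4, ?_⟩
    have h8 : planeOne f l + 2 * (l.length - 2 * f) +
        (ptSum l fun k => if k % 2 = 1 then 2 * (k : ℤ) + 4 else 0) ≤ 3 * planeTwo f l := h4
    linarith
  · obtain ⟨h1, -, h3⟩ := BMY.plane_main hd hf (sec_old hl)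
    have h5 := h3 (by
      obtain ⟨P, hP, hPk⟩ := hp
      exact ⟨old P, List.mem_map_of_mem hP, hPk⟩)
    unfold BMY.planeOneF BMY.planeTwoF at h1
    rw [ptSum_old, ptSum_old, ptSum_old, List.length_map] at h1
    rw [List.length_map] at h5
    exact ⟨h5, h1⟩

end Pool.Agent.Helper46.DP
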