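import Pool.Agent.Helper46.BMY.CDef

/-!
# Double covers branched along arrangements of symplectic sections
-/

set_option autoImplicit false

namespace Pool.Agent.Helper46.BMY

/-- The geometric genus of the point `z ^ 2 = y ^ k - x ^ (k q)` of the double cover (over a point
in which `k` sections meet and touch each other to the order `q`) and minus the square of the
canonical divisor of its minimal resolution. -/
def g2 (k q : ℕ) : ℕ × ℕ :=
  if k % 2 = 0 then (q * (k / 2).choose 2, 2 * q * (k / 2 - 1) ^ 2)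
  else (q / 2 * (k / 2) ^ 2 + q % 2 * (k / 2).choose 2,
    q / 2 * (k - 2) ^ 2 + q % 2 * (2 * (k / 2 - 1) ^ 2))

/-- The excess of such a point. -/
def ex (k q : ℕ) : ℕ :=
  if k % 2 = 0 then 8 * (q - 1) else if q % 2 = 0 then 2 * (q - 1) else 2 * (q + k + 1)

/-- `c_2` of the minimal resolution of the double cover of `F_r` branched along the arrangement of
`d` sections (`12 pg + K ^ 2` is subtracted for every point). -/
def sTwoF {m : ℕ} (d r : ℕ) (l : List (Sg m)) : ℤ :=
  8 + (r * d ^ 2 - r * d - 2 * d) -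
    (sumS l (fun P => 12 * (g2 P.k (P.e / P.k)).1) - sumS l fun P => (g2 P.k (P.e / P.k)).2)

/-- `c_1 ^ 2` of this double cover, `d = 2 f`. -/
def sOneSqF {m : ℕ} (f r : ℕ) (l : List (Sg m)) : ℤ :=
  2 * (r * (f - 2) ^ 2 + 2 * (r - 2) * (f - 2)) - sumS l fun P => (g2 P.k (P.e / P.k)).2

/-- `c_2` of the minimal resolution of the double cover of the projective plane branched along
the arrangement of `d` lines. -/
def sTwo {m : ℕ} (d : ℕ) (l : List (Sg m)) : ℤ :=
  6 + (d ^ 2 - 3 * d) -
    (sumS l (fun P => 12 * (g2 P.k (P.e / P.k)).1) - sumS l fun P => (g2 P.k (P.e / P.k)).2)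

/-- `c_1 ^ 2` of this double cover, `d = 2 f`. -/
def sOneSq {m : ℕ} (f : ℕ) (l : List (Sg m)) : ℤ :=
  2 * (f - 3) ^ 2 - sumS l fun P => (g2 P.k (P.e / P.k)).2

end Pool.Agent.Helper46.BMY
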