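import Pool.Agent.Helper46.BMY.CAr
import Pool.Agent.Helper46.BMY.SDef

/-!
# The local index of the points of an arrangement of sections
-/

set_option autoImplicit false

open Finset

namespace Pool.Agent.Helper46.BMY

/-- `k = 2 (a + 1)` sections. -/
theorem ct_even (a q : ℕ) (hq : 1 ≤ q) :
    a * (q * (3 * a + 3)) + (2 * (a + 1) * q - 1) ≤ ct 2 (2 * (a + 1)) (2 * (a + 1) * q) := by
  rw [ct_row]
  have e1 : 2 * (a + 1) - 1 = a + 1 + a := by omega
  rw [e1, sum_range_add, sum_range_succ]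
  have h1 : ∀ s ∈ range a, q * (a + 2 + s) ≤ row 2 (2 * (a + 1)) (2 * (a + 1) * q) s := by
    intro s hs
    rw [mem_range] at hs
    obtain ⟨t, rfl⟩ : ∃ t, a = s + 1 + t := ⟨a - (s + 1), by omega⟩
    have h := row_le (n := 2) (k := 2 * (s + 1 + t + 1)) (e := 2 * (s + 1 + t + 1) * q) (s := s)
      (lo := q * (t + 1) - 1) (hi := 2 * (s + 1 + t + 1) * q - 1) (fun u h2 h3 => by
        have h4 : q * (t + 1) ≤ u + 1 := by omega
        refine ⟨by omega, ?_, ?_⟩
        · nlinarith
        · have h5 : u + 1 + 1 ≤ 2 * (s + 1 + t + 1) * q := by omega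
          nlinarith)
    refine le_trans ?_ h
    have h6 : 1 ≤ q * (t + 1) := Nat.one_le_iff_ne_zero.2 (by positivity)
    have h7 : q * (s + 1 + t + 2 + s) + q * (t + 1) = 2 * (s + 1 + t + 1) * q := by ring
    omega
  have h2 : 2 * (a + 1) * q - 1 ≤ row 2 (2 * (a + 1)) (2 * (a + 1) * q) a := by
    have h := row_le (n := 2) (k := 2 * (a + 1)) (e := 2 * (a + 1) * q) (s := a)
      (lo := 0) (hi := 2 * (a + 1) * q - 1) (fun u h2 h3 => by
        have h5 : u + 1 + 1 ≤ 2 * (a + 1) * q := by omega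
        refine ⟨by omega, ?_, ?_⟩
        · nlinarith
        · nlinarith)
    simpa using h
  have h3 : ∀ s ∈ range a, q * (2 * a + 1 - s) ≤
      row 2 (2 * (a + 1)) (2 * (a + 1) * q) (a + 1 + s) := by
    intro s hs
    rw [mem_range] at hs
    obtain ⟨t, rfl⟩ : ∃ t, a = s + 1 + t := ⟨a - (s + 1), by omega⟩
    have h := row_le (n := 2) (k := 2 * (s + 1 + t + 1)) (e := 2 * (s + 1 + t + 1) * q)
      (s := s + 1 + t + 1 + s)
      (lo := 0) (hi := q * (2 * (s + 1 + t) + 1 - s)) (fun u h2 h3 => by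
        have h4 : 2 * (s + 1 + t) + 1 - s = s + 3 + 2 * t := by omega
        rw [h4] at h3
        have h8 : q * (s + 3 + 2 * t) + q * (s + 1) = 2 * (s + 1 + t + 1) * q := by ring
        have h9 : 1 ≤ q * (s + 1) := Nat.one_le_iff_ne_zero.2 (by positivity)
        refine ⟨by omega, ?_, ?_⟩
        · nlinarith
        · nlinarith)
    simpa using h
  have h4 : ∑ s ∈ range a, q * (a + 2 + s) + ∑ s ∈ range a, q * (2 * a + 1 - s) =
      a * (q * (3 * a + 3)) := by
    rw [← sum_add_distrib, sum_congr rfl (g := fun _ => q * (3 * a + 3)), sum_const, card_range,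
      smul_eq_mul]
    intro s hs
    rw [mem_range] at hs
    rw [← mul_add]
    congr 1
    omega
  have h5 := sum_le_sum h1
  have h6 := sum_le_sum h3
  omega

/-- `k = 2 a + 1` sections. -/
theorem ct_odd (a q : ℕ) (hq : 1 ≤ q) :
    a * (q * (3 * a + 2)) ≤ ct 2 (2 * a + 1) ((2 * a + 1) * q) + a * (q % 2) := by
  rw [ct_row]
  have e1 : 2 * a + 1 - 1 = a + a := by omega
  rw [e1, sum_range_add]
  have h1 : ∀ s ∈ range a, q * (a + 2 + s) ≤
      row 2 (2 * a + 1) ((2 * a + 1) * q) s + (q + 1) / 2 := by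
    intro s hs
    rw [mem_range] at hs
    obtain ⟨t, rfl⟩ : ∃ t, a = s + 1 + t := ⟨a - (s + 1), by omega⟩
    have h := row_le (n := 2) (k := 2 * (s + 1 + t) + 1) (e := (2 * (s + 1 + t) + 1) * q) (s := s)
      (lo := q * t + (q + 1) / 2 - 1) (hi := (2 * (s + 1 + t) + 1) * q - 1) (fun u h2 h3 => by
        have h4 : q * t + (q + 1) / 2 ≤ u + 1 := by omega
        have h4' : q * (2 * t + 1) ≤ 2 * (u + 1) := by
          have : q * (2 * t + 1) = 2 * (q * t) + q := by ring
          omega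
        refine ⟨by omega, ?_, ?_⟩
        · nlinarith
        · have h5 : u + 1 + 1 ≤ (2 * (s + 1 + t) + 1) * q := by omega
          nlinarith)
    have h6 : 1 ≤ (q + 1) / 2 := by omega
    have h7 : q * (s + 1 + t + 2 + s) + q * t = (2 * (s + 1 + t) + 1) * q := by ring
    omega
  have h3 : ∀ s ∈ range a, q * (2 * a - s) + q / 2 ≤
      row 2 (2 * a + 1) ((2 * a + 1) * q) (a + s) := by
    intro s hs
    rw [mem_range] at hs
    obtain ⟨t, rfl⟩ : ∃ t, a = s + 1 + t := ⟨a - (s + 1), by omega⟩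
    have h := row_le (n := 2) (k := 2 * (s + 1 + t) + 1) (e := (2 * (s + 1 + t) + 1) * q)
      (s := s + 1 + t + s)
      (lo := 0) (hi := q * (2 * (s + 1 + t) - s) + q / 2) (fun u h2 h3 => by
        have h4 : 2 * (s + 1 + t) - s = s + 2 + 2 * t := by omega
        rw [h4] at h3
        have h8 : q * (s + 2 + 2 * t) + q + q * s = (2 * (s + 1 + t) + 1) * q := by ring
        have h9 : 2 * (u + 1) ≤ q * (2 * s + 5 + 4 * t) := by
          have : q * (2 * s + 5 + 4 * t) = 2 * (q * (s + 2 + 2 * t)) + q := by ring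
          omega
        have h10 : (2 * (s + 1 + t) + 1) * ((2 * (s + 1 + t) + 1) * q) ≤
            (2 * (s + 1 + t + s + 1)) * ((2 * (s + 1 + t) + 1) * q) :=
          Nat.mul_le_mul_right _ (by omega)
        refine ⟨by omega, ?_, ?_⟩
        · nlinarith [h10]
        · nlinarith)
    simpa using h
  have h4 : ∑ s ∈ range a, q * (a + 2 + s) + ∑ s ∈ range a, (q * (2 * a - s) + q / 2) =
      a * (q * (3 * a + 2) + q / 2) := by
    rw [← sum_add_distrib, sum_congr rfl (g := fun _ => q * (3 * a + 2) + q / 2), sum_const,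
      card_range, smul_eq_mul]
    intro s hs
    rw [mem_range] at hs
    rw [← add_assoc, ← mul_add]
    congr 2
    omega
  have h5 := sum_le_sum h1
  have h6 := sum_le_sum h3
  rw [sum_add_distrib, sum_const, card_range, smul_eq_mul] at h5
  have h7 : a * (q * (3 * a + 2) + q / 2) = a * (q * (3 * a + 2)) + a * (q / 2) := by ring
  have h8 : a * ((q + 1) / 2) = a * (q / 2) + a * (q % 2) := by
    rw [← mul_add]
    congr 1
    omega
  omega

/-- **The local inequality.** -/
theorem loc_sec {k q : ℕ} (hk : 2 ≤ k) (hq : 1 ≤ q) :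
    36 * (g2 k q).1 + 2 * ((k - 1) * (k * q)) + (2 + ex k q) ≤ 4 * (g2 k q).2 + 6 * ct 2 k (k * q) := by
  unfold g2 ex
  rcases Nat.even_or_odd' k with ⟨b, rfl | rfl⟩
  · obtain ⟨a, rfl⟩ : ∃ a, b = a + 1 := ⟨b - 1, by omega⟩
    have h := ct_even a q hq
    have h1 : 2 * (a + 1) % 2 = 0 := by omega
    rw [if_pos h1, if_pos h1]
    have h2 : 2 * (a + 1) / 2 = a + 1 := by omega
    have h3 : 2 * ((a + 1).choose 2) = (a + 1) * a := by
      rw [Nat.choose_two_right, Nat.add_sub_cancel]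
      exact Nat.mul_div_cancel' (Nat.even_mul_pred_self (a + 1)).two_dvd
    rw [h2]
    simp only [Nat.add_sub_cancel]
    generalize (a + 1).choose 2 = c at h3
    generalize ct 2 (2 * (a + 1)) (2 * (a + 1) * q) = x at h
    have h4 : 2 * (a + 1) - 1 = 2 * a + 1 := by omega
    rw [h4]
    have h5 : 36 * (q * c) = 18 * q * ((a + 1) * a) := by rw [← h3]; ring
    have h6 : 1 ≤ 2 * (a + 1) * q := Nat.one_le_iff_ne_zero.2 (by positivity)
    rw [h5]
    have h7 : 2 + 8 * (q - 1) + 6 = 8 * q := by omega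
    zify [h6, hq] at h h7 ⊢
    nlinarith
  · have h := ct_odd b q hq
    have h1 : ¬ (2 * b + 1) % 2 = 0 := by omega
    rw [if_neg h1, if_neg h1]
    have h2 : (2 * b + 1) / 2 = b := by omega
    obtain ⟨a, rfl⟩ : ∃ a, b = a + 1 := ⟨b - 1, by omega⟩
    have h3 : 2 * ((a + 1).choose 2) = (a + 1) * a := by
      rw [Nat.choose_two_right, Nat.add_sub_cancel]
      exact Nat.mul_div_cancel' (Nat.even_mul_pred_self (a + 1)).two_dvd
    rw [h2]
    simp only [Nat.add_sub_cancel]
    generalize (a + 1).choose 2 = c at h3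
    generalize ct 2 (2 * (a + 1) + 1) ((2 * (a + 1) + 1) * q) = x at h
    have h4 : 2 * (a + 1) + 1 - 2 = 2 * a + 1 := by omega
    rw [h4]
    rcases Nat.even_or_odd' q with ⟨p, rfl | rfl⟩
    · have h5 : 2 * p / 2 = p := by omega
      have h6 : 2 * p % 2 = 0 := by omega
      rw [h6] at h
      simp only [h5, h6, if_true, zero_mul, add_zero, mul_zero] at h ⊢
      have h7 : 2 + 2 * (2 * p - 1) = 4 * p := by omega
      rw [h7]
      nlinarith
    · have h5 : (2 * p + 1) / 2 = p := by omega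
      have h6 : (2 * p + 1) % 2 = 1 := by omega
      rw [h6] at h
      simp only [h5, h6, one_mul, mul_one] at h ⊢
      rw [if_neg (by norm_num)]
      have h7 : 36 * (p * (a + 1) ^ 2 + c) = 36 * (p * (a + 1) ^ 2) + 18 * ((a + 1) * a) := by
        rw [← h3]; ring
      rw [h7]
      nlinarith

end Pool.Agent.Helper46.BMY
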